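import Mathlib

/-! The real inequalities behind the contraction estimates, with uniform margins. -/

namespace Pool.Agent.P.MP_2d96df_co.H35

set_option maxHeartbeats 400000

/-- The normalised constraints on density `p`, dimension `κ`, size `y` and clique size `w`. -/
structure Hyp (δ ξ p κ y w : ℝ) : Prop where
  p0 : 0 ≤ p
  p1 : p ≤ 1599 / 1600
  k0 : 0 ≤ κ
  k1 : κ ≤ 2
  y0 : δ ≤ y
  y1 : y ≤ 1
  w0 : 0 ≤ w
  w1 : w ≤ 1
  kp : κ * p - 1 ≤ ξ
  wy : w - y ≤ ξ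
  alt : min (y - (1 - δ)) (δ - (y - w)) ≤ ξ
  dim : |κ - κ ^ 2 * p / 2 - 1 / 2| ≤ ξ
  deg : κ * y - y ^ 2 ≤ ξ
  cut : (w - κ) * (y - w) ≤ ξ
  rk : min (w - κ * p) (κ * w - κ ^ 2 * p / 2 - y ^ 2 / 2) ≤ ξ

lemma gap (δ p0 : ℝ) (Ψ : ℝ × ℝ × ℝ × ℝ → ℝ) (hΨ : Continuous Ψ)
    (h : ∀ p κ y w, p0 ≤ p → Hyp δ 0 p κ y w → (1 - p) * y * (y - κ) / 2 < Ψ (p, κ, y, w)) :
    ∃ ξ > 0, ∀ p κ y w, p0 ≤ p → Hyp δ ξ p κ y w →
      (1 - p) * y * (y - κ) / 2 + ξ ≤ Ψ (p, κ, y, w) := by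
  let F : ℝ × ℝ × ℝ × ℝ → ℝ := fun x =>
    max (x.2.1 * x.1 - 1) (max (x.2.2.2 - x.2.2.1)
      (max (min (x.2.2.1 - (1 - δ)) (δ - (x.2.2.1 - x.2.2.2)))
      (max |x.2.1 - x.2.1 ^ 2 * x.1 / 2 - 1 / 2| (max (x.2.1 * x.2.2.1 - x.2.2.1 ^ 2)
      (max ((x.2.2.2 - x.2.1) * (x.2.2.1 - x.2.2.2))
      (max (min (x.2.2.2 - x.2.1 * x.1) (x.2.1 * x.2.2.2 - x.2.1 ^ 2 * x.1 / 2 - x.2.2.1 ^ 2 / 2))
      (Ψ x - (1 - x.1) * x.2.2.1 * (x.2.2.1 - x.2.1) / 2)))))))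
  have hF : Continuous F := by fun_prop
  have hpos : ∀ x ∈ Set.Icc ((max p0 0, 0, δ, 0) : ℝ × ℝ × ℝ × ℝ) (1599 / 1600, 2, 1, 1),
      0 < F x := by
    rintro ⟨p, κ, y, w⟩ ⟨⟨a1, a2, a3, a4⟩, b1, b2, b3, b4⟩
    by_contra hc
    simp only [F, not_lt, max_le_iff] at hc a1
    obtain ⟨c1, c2, c3, c4, c5, c6, c7, c8⟩ := hc
    have := h p κ y w a1.1 ⟨a1.2, b1, a2, b2, a3, b3, a4, b4, c1, c2, c3, c4, c5, c6, c7⟩
    linarith
  obtain ⟨ξ, hξ, hξ'⟩ := isCompact_Icc.exists_forall_le' hF.continuousOn hpos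
  refine ⟨ξ / 2, by linarith, fun p κ y w hp H => ?_⟩
  have hh := hξ' (p, κ, y, w) ⟨⟨max_le hp H.p0, H.k0, H.y0, H.w0⟩, H.p1, H.k1, H.y1, H.w1⟩
  simp only [F, le_max_iff] at hh
  have := H.kp; have := H.wy; have := H.alt; have := H.dim; have := H.deg; have := H.cut
  have := H.rk
  rcases hh with h | h | h | h | h | h | h | h <;> linarith

lemma Hyp.facts {δ p κ y w : ℝ} (hδ : 0 < δ) (H : Hyp δ 0 p κ y w) :
    κ * (2 - κ * p) = 1 ∧ 1 / 2 ≤ κ ∧ κ < 1 ∧ κ ≤ y ∧ w ≤ κ ∧ (y = κ → w < y) := by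
  obtain ⟨p0, p1, k0, k1, y0, y1, w0, w1, kp, wy, alt, dim, deg, cut, rk⟩ := H
  have e : κ * (2 - κ * p) = 1 := by
    have := abs_nonpos_iff.1 dim
    linarith
  have h1 : 1 / 2 ≤ κ := by nlinarith [mul_nonneg k0 (mul_nonneg k0 p0)]
  have h2 : κ < 1 := by
    by_contra hc
    have : κ = 1 := by nlinarith
    subst this; linarith
  have h3 : κ ≤ y := by nlinarith
  refine ⟨e, h1, h2, h3, ?_, ?_⟩
  · by_contra hc
    have hw : w = y := by nlinarith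
    subst hw
    rcases min_le_iff.1 alt with h | h
    · rcases min_le_iff.1 rk with h' | h'
      · nlinarith
      · nlinarith
    · linarith
  · intro hy
    by_contra hc
    have hw : w = y := by linarith
    subst hw; subst hy
    rcases min_le_iff.1 rk with h' | h'
    · nlinarith
    · nlinarith

lemma gap_sparse (δ : ℝ) (hδ : 0 < δ) : ∃ ξ > 0, ∀ p κ y w, Hyp δ ξ p κ y w →
    (1 - p) * y * (y - κ) / 2 + ξ ≤ (y ^ 2 - w ^ 2) / 2 := by
  obtain ⟨ξ, hξ, h⟩ := gap δ 0 (fun x => (x.2.2.1 ^ 2 - x.2.2.2 ^ 2) / 2) (by fun_prop) (by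
    intro p κ y w _ H
    obtain ⟨e, h1, h2, h3, h4, h5⟩ := H.facts hδ
    have := H.p0; have := H.w0
    rcases h3.eq_or_lt with h | h
    · have := h5 h.symm
      subst h
      simp only [sub_self, mul_zero, zero_div]
      nlinarith
    · have a1 : w ^ 2 ≤ κ ^ 2 := by nlinarith
      have a2 : 0 ≤ p * (y * (y - κ)) := by
        have : 0 ≤ y - κ := by linarith
        have : 0 ≤ y := by linarith
        positivity
      simp only
      nlinarith)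
  exact ⟨ξ, hξ, fun p κ y w H => h p κ y w H.p0 H⟩

/-- The deterministic lower bound for the normalised support. -/
noncomputable def Phi (c y w : ℝ) : ℝ :=
  max (((max (y - c) 0) ^ 2 - (max (w - c) 0) ^ 2) / 4) (max ((w - c) * (y - w))
    ((w - c) * (y - w) + ((max (y - w - c) 0) ^ 2 - (max (w - c) 0) ^ 2) / 4))

lemma Phi_ge1 {c y w : ℝ} (hc : 0 < c) (hy : c < y) (hz : 2 * (w - c) < y - c) :
    ((y - c) ^ 2 - c ^ 2) / 4 ≤ Phi c y w := by
  simp only [Phi, le_max_iff]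
  rw [max_eq_left (show 0 ≤ y - c by linarith)]
  by_cases hzc : w - c ≤ c
  · left
    have : (max (w - c) 0) ^ 2 ≤ c ^ 2 :=
      pow_le_pow_left₀ (le_max_right _ _) (max_le hzc hc.le) 2
    linarith
  · right
    push Not at hzc
    by_cases hk : 2 * (w - c) + c ≤ y - c
    · right
      rw [max_eq_left (show 0 ≤ y - w - c by linarith), max_eq_left (show 0 ≤ w - c by linarith)]
      have := mul_nonneg (show 0 ≤ w - c - c by linarith)
        (show 0 ≤ y - c - 2 * (w - c) - c by linarith)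
      linarith
    · left
      have : (y - c - 2 * (w - c)) ^ 2 ≤ c ^ 2 := pow_le_pow_left₀ (by linarith) (by linarith) 2
      linarith

lemma Phi_ge2 {c y w : ℝ} (hy : c < y) (hz : 2 * (w - c) < y - c) :
    2 * (y - c) ^ 2 / 9 ≤ Phi c y w := by
  simp only [Phi, le_max_iff]
  rw [max_eq_left (show 0 ≤ y - c by linarith)]
  by_cases hz3 : 3 * (w - c) ≤ y - c
  · left
    have : (max (w - c) 0) ^ 2 ≤ ((y - c) / 3) ^ 2 :=
      pow_le_pow_left₀ (le_max_right _ _) (max_le (by linarith) (by linarith)) 2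
    linarith
  · right; left
    have := mul_nonneg (show 0 ≤ 3 * (w - c) - (y - c) by linarith)
      (show 0 ≤ 2 * (y - c) - 3 * (w - c) by linarith)
    linarith

lemma key1 {c κ y : ℝ} (e : κ * (2 - c) = 1) (hc : 0 < c) (hc1 : c < 1) (hy : 0 < y) (hy1 : y ≤ 1)
    (hs : 1 / 2 < (1 - c) ^ 2) : (1 - c) ^ 2 * y * (y - κ) / 2 < ((y - c) ^ 2 - c ^ 2) / 4 := by
  have a0 : (2 - c) * y ≤ 2 - c := mul_le_of_le_one_right (by linarith) hy1
  have a1 : 0 < (2 * (1 - c) ^ 2 - 1) * (2 - (2 - c) * y) := mul_pos (by linarith) (by linarith)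
  have a2 : (2 - c) * (y - 2 * c - 2 * (1 - c) ^ 2 * (y - κ)) =
      (2 * (1 - c) ^ 2 - 1) * (2 - (2 - c) * y) := by
    linear_combination (2 * (1 - c) ^ 2) * e
  have a3 : 0 < y - 2 * c - 2 * (1 - c) ^ 2 * (y - κ) :=
    (mul_pos_iff_of_pos_left (show 0 < 2 - c by linarith)).1 (by rw [a2]; exact a1)
  have a4 := mul_pos hy a3
  linarith

lemma key2 {c κ y : ℝ} (e : κ * (2 - c) = 1) (hκ : 0 ≤ κ) (hc : c < y) (hκy : κ ≤ y) (hy1 : y ≤ 1)
    (hs : (1 - c) ^ 2 ≤ 1 / 2) : (1 - c) ^ 2 * y * (y - κ) / 2 < 2 * (y - c) ^ 2 / 9 := by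
  have a0 : 2 / 9 < c := by nlinarith
  have a1 : (1 - c) ^ 2 * ((2 - c) * y - 1) ≤ (y - c) ^ 2 * (2 - c) ^ 2 / 4 := by
    linarith [sq_nonneg ((y - c) * (2 - c) / 2 - (1 - c) ^ 2)]
  have a2 : y - κ = κ * ((2 - c) * y - 1) := by linear_combination (-y) * e
  have a3 : (1 - c) ^ 2 * (y - κ) ≤ (y - c) ^ 2 * (2 - c) / 4 := by
    rw [a2]
    have := mul_le_mul_of_nonneg_left a1 hκ
    have e2 : κ * ((y - c) ^ 2 * (2 - c) ^ 2 / 4) = (y - c) ^ 2 * (2 - c) / 4 := by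
      linear_combination ((y - c) ^ 2 * (2 - c) / 4) * e
    linarith
  have a4 : 0 < (y - c) ^ 2 := pow_pos (by linarith) 2
  have a5 : 0 ≤ (1 - c) ^ 2 * (y - κ) := mul_nonneg (sq_nonneg _) (by linarith)
  have a6 : y * ((1 - c) ^ 2 * (y - κ)) ≤ (1 - c) ^ 2 * (y - κ) := mul_le_of_le_one_left a5 hy1
  have a7 := mul_pos a4 (show 0 < c - 2 / 9 by linarith)
  linarith

lemma gap_middle (δ p0 : ℝ) (hδ : 0 < δ) (hp0 : 0 < p0) :
    ∃ ξ > 0, ∀ p κ y w, p0 ≤ p → Hyp δ ξ p κ y w →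
      (1 - p) * y * (y - κ) / 2 + ξ ≤ Phi (κ * p) y w := by
  refine gap δ p0 (fun x => Phi (x.2.1 * x.1) x.2.2.1 x.2.2.2) (by unfold Phi; fun_prop) ?_
  intro p κ y w hp H
  obtain ⟨e, h1, h2, h3, h4, h5⟩ := H.facts hδ
  have hp1 := H.p1; have hw0 := H.w0; have hy1 := H.y1
  have hpp : 0 < p := by linarith
  simp only
  obtain ⟨c, hc⟩ : ∃ c, c = κ * p := ⟨_, rfl⟩
  rw [← hc] at e ⊢
  have hc0 : 0 < c := by rw [hc]; positivity
  have hcκ : c < κ := by rw [hc]; exact mul_lt_of_lt_one_right (by linarith) (by linarith)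
  have hq : 1 - p = (1 - c) ^ 2 := by
    have : p = c * (2 - c) := by rw [hc] at e ⊢; linear_combination (-p) * e
    rw [this]; ring
  have hκ : 1 / 2 < κ := by
    have := mul_pos (show 0 < κ by linarith) hc0
    linarith
  have hcq : κ - c = κ * (1 - p) := by rw [hc]; ring
  by_cases hz : y - c ≤ 2 * (w - c)
  · refine lt_of_lt_of_le ?_ ((le_max_left _ _).trans (le_max_right _ _))
    rcases h3.eq_or_lt with h | h
    · have := h5 h.symm
      rw [← h, sub_self, mul_zero, zero_div]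
      exact mul_pos (by linarith) (by linarith)
    · have a0 := mul_nonneg (show 0 ≤ κ - w by linarith) (show 0 ≤ w + κ - c - y by linarith)
      have a1 : (κ - c) * (y - κ) ≤ (w - c) * (y - w) := by linarith
      have a2 : 0 < (1 - p) * (y - κ) * (κ - y / 2) :=
        mul_pos (mul_pos (by linarith) (by linarith)) (by linarith)
      rw [hcq] at a1
      linarith
  push Not at hz
  rw [hq]
  by_cases hs : 1 / 2 < (1 - c) ^ 2
  · exact (key1 e hc0 (by linarith) (by linarith) hy1 hs).trans_le (Phi_ge1 hc0 (by linarith) hz)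
  · exact (key2 e (by linarith) (by linarith) h3 hy1 (not_lt.1 hs)).trans_le
      (Phi_ge2 (by linarith) hz)

end Pool.Agent.P.MP_2d96df_co.H35
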