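import Mathlib

/-! Homogeneous model of generic rigidity: vectors `P u`, rows `rho P e`, flexes and stresses. -/

namespace Pool.Agent.P.MP_2d96df_co.H35

open Finset Module
open scoped Classical

set_option linter.unusedSectionVars false

variable {K : Type*} [Field K] {V : Type*} [Fintype V] [DecidableEq V]
  {ι : Type*} [Fintype ι] [DecidableEq ι]

/-- Every motion `Y` of the configuration `P` is induced by a derivation of the field. -/
def Gen (P : V → ι → K) : Prop :=
  ∀ Y : V → ι → K, ∃ D : K →+ K, (∀ a b, D (a * b) = a * D b + D a * b) ∧ ∀ u i, D (P u i) = Y u i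

/-- The symmetric matrix of a motion `X`. -/
def MM (P X : V → ι → K) (u w : V) : K := P u ⬝ᵥ X w + X u ⬝ᵥ P w

/-- The row of a pair (loops allowed). -/
def rho (P : V → ι → K) : Sym2 V → V → ι → K :=
  Sym2.lift ⟨fun u w => Pi.single u (P w) + Pi.single w (P u), fun _ _ => add_comm _ _⟩

/-- The pairing of configurations. -/
def pair (X : V → ι → K) : (V → ι → K) →ₗ[K] K where
  toFun z := ∑ v, z v ⬝ᵥ X v
  map_add' a b := by simp [add_dotProduct, sum_add_distrib]
  map_smul' c a := by simp [smul_dotProduct, mul_sum]

lemma pair_apply (X z : V → ι → K) : pair X z = ∑ v, z v ⬝ᵥ X v := rfl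

lemma pair_comm (X z : V → ι → K) : pair X z = pair z X := by
  simp only [pair_apply]; exact sum_congr rfl fun v _ => dotProduct_comm _ _

lemma rho_mk (P : V → ι → K) (u w : V) :
    rho P s(u, w) = Pi.single u (P w) + Pi.single w (P u) := rfl

lemma pair_single (X : V → ι → K) (u : V) (y : ι → K) : pair X (Pi.single u y) = y ⬝ᵥ X u := by
  rw [pair_apply, sum_eq_single u]
  · simp
  · intro b _ hb; simp [Pi.single_eq_of_ne hb]
  · simp

lemma pair_rho (P X : V → ι → K) (u w : V) : pair X (rho P s(u, w)) = MM P X u w := by
  rw [rho_mk, map_add, pair_single, pair_single, MM, dotProduct_comm (P w)]; ring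

lemma MM_comm (P X : V → ι → K) (u w : V) : MM P X u w = MM P X w u := by
  simp only [MM, dotProduct_comm (X u), dotProduct_comm (X w)]; ring

lemma MM_swap (P X : V → ι → K) (u w : V) : MM P X u w = MM X P u w := by
  simp only [MM]; ring

lemma pair_rho_swap (P X : V → ι → K) (e : Sym2 V) : pair X (rho P e) = pair P (rho X e) := by
  induction e using Sym2.ind with
  | h u w => rw [pair_rho, pair_rho, MM_swap]

lemma exists_pair (f : (V → ι → K) →ₗ[K] K) : ∃ X, ∀ z, f z = pair X z := by
  refine ⟨fun v i => f (Pi.single v (Pi.single i 1)), fun z => ?_⟩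
  have hz : z = ∑ v, ∑ i, z v i • (Pi.single v (Pi.single i 1) : V → ι → K) := by
    ext v i
    simp only [Finset.sum_apply, Pi.smul_apply, smul_eq_mul]
    rw [sum_eq_single v]
    · simp [Pi.single_apply]
    · intro b _ hb; simp [Pi.single_eq_of_ne hb.symm]
    · simp
  conv_lhs => rw [hz]
  simp [pair_apply, map_sum, dotProduct]

lemma eq_zero_of_pair {z : V → ι → K} (h : ∀ Y, pair Y z = 0) : z = 0 := by
  ext v i
  have := h (Pi.single v (Pi.single i 1))
  rw [pair_comm, pair_single] at this
  simpa using this

lemma der_sum_smul {D : K →+ K} (hD : ∀ a b, D (a * b) = a * D b + D a * b) {α : Type*}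
    (s : Finset α) (a b : α → K) :
    D (∑ x ∈ s, a x * b x) = ∑ x ∈ s, a x * D (b x) + ∑ x ∈ s, D (a x) * b x := by
  rw [map_sum, ← sum_add_distrib]; exact sum_congr rfl fun x _ => hD _ _

/-- Any `card ι` of the vectors `P u` are independent. -/
lemma Gen.indep {P : V → ι → K} (hP : Gen P) (S : Finset V) (hS : S.card ≤ Fintype.card ι)
    (α : V → K) (hα : ∀ u, α u ≠ 0 → u ∈ S) (h : ∑ u, α u • P u = 0) : α = 0 := by
  by_contra hne
  obtain ⟨u0, hu0⟩ : ∃ u0, α u0 ≠ 0 := Function.ne_iff.1 hne
  have hlt : Submodule.span K (((S.erase u0).image P : Finset (ι → K)) : Set (ι → K)) < ⊤ := by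
    rw [lt_top_iff_ne_top]
    intro htop
    have h1 := finrank_span_finset_le_card (R := K) ((S.erase u0).image P)
    rw [Set.finrank, htop, finrank_top, Module.finrank_fintype_fun_eq_card] at h1
    have h2 : ((S.erase u0).image P).card ≤ (S.erase u0).card := card_image_le
    have h3 := card_erase_lt_of_mem (hα u0 hu0)
    omega
  obtain ⟨l, hl0, hl⟩ := Submodule.exists_le_ker_of_lt_top _ hlt
  have hl1 : ∀ u ∈ S, u ≠ u0 → l (P u) = 0 := fun u hu hne => hl (Submodule.subset_span (by
    simp only [coe_image, coe_erase]; exact ⟨u, ⟨hu, hne⟩, rfl⟩))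
  have hl2 : l (P u0) = 0 := by
    have := congrArg l h
    rw [map_sum, map_zero, sum_eq_single u0] at this
    · simpa [hu0] using this
    · intro b _ hb
      by_cases hb0 : α b = 0
      · simp [hb0]
      · simp [hl1 b (hα b hb0) hb]
    · simp
  obtain ⟨y, hy⟩ : ∃ y, l y ≠ 0 := by
    by_contra hc; push Not at hc; exact hl0 (LinearMap.ext hc)
  obtain ⟨D, hD, hDP⟩ := hP (Pi.single u0 y)
  have key : ∑ u, α u • (Pi.single u0 y : V → ι → K) u + ∑ u, D (α u) • P u = 0 := by
    ext i
    have := congrArg D (congrFun h i)
    simp only [Finset.sum_apply, Pi.smul_apply, smul_eq_mul, Pi.zero_apply, map_zero] at this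
    rw [der_sum_smul hD] at this
    simpa [Finset.sum_apply, hDP] using this
  have := congrArg l key
  rw [map_add, map_sum, map_sum, map_zero, sum_eq_single u0, sum_eq_zero] at this
  · simp [hu0, hy] at this
  · intro u _
    by_cases hu : α u = 0
    · simp [hu]
    · by_cases huu : u = u0
      · simp [huu, hl2]
      · simp [hl1 u (hα u hu) huu]
  · intro b _ hb; simp [Pi.single_eq_of_ne hb]
  · simp

lemma Gen.linearIndependent {P : V → ι → K} (hP : Gen P) (S : Finset V)
    (hS : S.card ≤ Fintype.card ι) : LinearIndependent K (fun u : S => P u) := by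
  rw [Fintype.linearIndependent_iff]
  intro g hg
  have := hP.indep S hS (fun u => if h : u ∈ S then g ⟨u, h⟩ else 0)
    (fun u hu => by by_contra h; simp [h] at hu) (by
      rw [← hg, ← Finset.sum_subset (Finset.subset_univ S) (fun x _ hx => by simp [hx]),
        ← Finset.sum_coe_sort]
      exact sum_congr rfl fun x _ => by simp)
  intro i
  simpa using congrFun this i

lemma exists_dep (P : V → ι → K) (S : Finset V) (hS : Fintype.card ι < S.card) :
    ∃ α : V → K, α ≠ 0 ∧ (∀ u, α u ≠ 0 → u ∈ S) ∧ ∑ u, α u • P u = 0 := by
  have : ¬ LinearIndependent K (fun u : S => P u) := by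
    intro h
    have := h.fintype_card_le_finrank
    simp at this; omega
  rw [Fintype.not_linearIndependent_iff] at this
  obtain ⟨g, hg, i, hi⟩ := this
  refine ⟨fun u => if h : u ∈ S then g ⟨u, h⟩ else 0, ?_, fun u hu => by
    by_contra h; simp [h] at hu, ?_⟩
  · intro h; apply hi; simpa using congrFun h i
  · rw [← hg, ← Finset.sum_subset (Finset.subset_univ S) (fun x _ hx => by simp [hx]),
      ← Finset.sum_coe_sort]
    exact sum_congr rfl fun x _ => by simp

/-- A set of `card ι` vectors spans. -/
lemma Gen.span {P : V → ι → K} (hP : Gen P) (S : Finset V) (hS : S.card = Fintype.card ι)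
    (y : ι → K) : ∃ α : V → K, (∀ u, α u ≠ 0 → u ∈ S) ∧ ∑ u, α u • P u = y := by
  have hli := hP.linearIndependent S hS.le
  have htop := hli.span_eq_top_of_card_eq_finrank' (by simp [hS])
  have : y ∈ Submodule.span K (Set.range fun u : S => P u) := by rw [htop]; trivial
  obtain ⟨g, hg⟩ := (Submodule.mem_span_range_iff_exists_fun K).1 this
  refine ⟨fun u => if h : u ∈ S then g ⟨u, h⟩ else 0, fun u hu => by
    by_contra h; simp [h] at hu, ?_⟩
  rw [← hg, ← Finset.sum_subset (Finset.subset_univ S) (fun x _ hx => by simp [hx]),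
      ← Finset.sum_coe_sort]
  exact sum_congr rfl fun x _ => by simp

lemma MM_bilin (P X : V → ι → K) (α β : V → K) :
    ∑ u, ∑ w, α u * β w * MM P X u w =
      (∑ u, α u • P u) ⬝ᵥ (∑ w, β w • X w) + (∑ u, α u • X u) ⬝ᵥ (∑ w, β w • P w) := by
  rw [sum_dotProduct, sum_dotProduct, ← sum_add_distrib]
  refine sum_congr rfl fun u _ => ?_
  rw [dotProduct_sum, dotProduct_sum, ← sum_add_distrib]
  refine sum_congr rfl fun w _ => ?_
  simp only [smul_dotProduct, dotProduct_smul, smul_eq_mul, MM]; ring

/-- Joining lemma: two vertices joined in the zero pattern to a zero clique of size `d`. -/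
lemma Gen.join [CharZero K] {P X : V → ι → K} (hP : Gen P) (hd : ∀ u, MM P X u u = 0)
    (B : Finset V) (hB : B.card + 1 = Fintype.card ι) (u v : V) (hu : u ∉ B) (hv : v ∉ B)
    (hBB : ∀ a ∈ B, ∀ b ∈ B, MM P X a b = 0) (huB : ∀ b ∈ B, MM P X u b = 0)
    (hvB : ∀ b ∈ B, MM P X v b = 0) : MM P X u v = 0 := by
  by_cases huv : u = v
  · rw [huv]; exact hd v
  have hcard : (insert u (insert v B)).card = B.card + 2 := by
    rw [card_insert_of_notMem (by simp [huv, hu]), card_insert_of_notMem hv]
  obtain ⟨α, hα0, hα, hs⟩ := exists_dep P (insert u (insert v B)) (by omega)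
  have hαu : α u ≠ 0 := by
    intro h0
    apply hα0
    refine hP.indep (insert v B) (by rw [card_insert_of_notMem hv]; omega) α (fun x hx => ?_) hs
    rcases mem_insert.1 (hα x hx) with rfl | h
    · exact absurd h0 hx
    · exact h
  have hαv : α v ≠ 0 := by
    intro h0
    apply hα0
    refine hP.indep (insert u B) (by rw [card_insert_of_notMem hu]; omega) α (fun x hx => ?_) hs
    rcases mem_insert.1 (hα x hx) with rfl | h
    · simp
    · rcases mem_insert.1 h with rfl | h
      · exact absurd h0 hx
      · simp [h]
  have hb := MM_bilin P X α α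
  rw [hs] at hb
  simp only [zero_dotProduct, dotProduct_zero, add_zero] at hb
  have hrow : ∀ a, ∑ w, α a * α w * MM P X a w =
      if a = u then α u * α v * MM P X u v else if a = v then α u * α v * MM P X u v else 0 := by
    intro a
    by_cases ha : α a = 0
    · have h1 : a ≠ u := fun h => hαu (h ▸ ha)
      have h2 : a ≠ v := fun h => hαv (h ▸ ha)
      simp [ha, h1, h2]
    split_ifs with h1 h2
    · subst h1
      rw [sum_eq_single v]
      · intro w _ hw
        by_cases hw0 : α w = 0
        · simp [hw0]
        rcases mem_insert.1 (hα w hw0) with rfl | h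
        · simp [hd]
        · rcases mem_insert.1 h with rfl | h
          · exact absurd rfl hw
          · simp [huB w h]
      · simp
    · subst h2
      rw [sum_eq_single u]
      · rw [MM_comm P X a u]; ring
      · intro w _ hw
        by_cases hw0 : α w = 0
        · simp [hw0]
        rcases mem_insert.1 (hα w hw0) with rfl | h
        · exact absurd rfl hw
        · rcases mem_insert.1 h with rfl | h
          · simp [hd]
          · simp [hvB w h]
      · simp
    · have haB : a ∈ B := by
        rcases mem_insert.1 (hα a ha) with h | h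
        · exact absurd h h1
        · rcases mem_insert.1 h with h | h
          · exact absurd h h2
          · exact h
      refine sum_eq_zero fun w _ => ?_
      by_cases hw0 : α w = 0
      · simp [hw0]
      rcases mem_insert.1 (hα w hw0) with rfl | h
      · rw [MM_comm, huB a haB, mul_zero]
      · rcases mem_insert.1 h with rfl | h
        · rw [MM_comm, hvB a haB, mul_zero]
        · rw [hBB a haB w h, mul_zero]
  simp only [hrow] at hb
  have h2 : ∑ a, (if a = u then α u * α v * MM P X u v
      else if a = v then α u * α v * MM P X u v else 0) = 2 * (α u * α v * MM P X u v) := by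
    have : ∀ a, (if a = u then α u * α v * MM P X u v
      else if a = v then α u * α v * MM P X u v else 0) =
        (if a = u then α u * α v * MM P X u v else 0) +
        (if a = v then α u * α v * MM P X u v else 0) := by
      intro a
      by_cases h1 : a = u
      · subst h1; simp [huv]
      · simp [h1]
    simp only [this, sum_add_distrib, sum_ite_eq', mem_univ, if_true]; ring
  rw [h2] at hb
  simpa [hαu, hαv] using hb

/-- The matrix of a weighting of the pairs. -/
def Om (ω : Sym2 V → K) (v w : V) : K := ω s(v, w) * (if v = w then 2 else 1)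

lemma Om_ne [CharZero K] (ω : Sym2 V → K) (v w : V) : Om ω v w ≠ 0 ↔ ω s(v, w) ≠ 0 := by
  unfold Om; split_ifs <;> simp

lemma rho_apply (P : V → ι → K) (e : Sym2 V) (v : V) :
    rho P e v = ∑ w, (if e = s(v, w) then (if v = w then (2 : K) else 1) else 0) • P w := by
  induction e using Sym2.ind with
  | h a b =>
    rw [rho_mk, Pi.add_apply]
    by_cases hva : v = a
    · subst hva
      rw [sum_eq_single b]
      · by_cases hb : v = b
        · subst hb; simp [two_smul]
        · simp [hb]
      · intro w _ hw
        have : s(v, b) ≠ s(v, w) := fun h => hw (Sym2.congr_right.1 h).symm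
        simp [this]
      · simp
    · by_cases hvb : v = b
      · subst hvb
        rw [sum_eq_single a]
        · simp [hva, Sym2.eq_swap]
        · intro w _ hw
          have : s(a, v) ≠ s(v, w) := by
            rw [Sym2.eq_swap]; exact fun h => hw (Sym2.congr_right.1 h).symm
          simp [this]
        · simp
      · rw [sum_eq_zero]
        · simp [hva, hvb]
        · intro w _
          have : s(a, b) ≠ s(v, w) := by
            intro h
            have : v ∈ s(a, b) := by rw [h]; simp
            simp [hva, hvb] at this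
          simp [this]

lemma sum_rho_apply (P : V → ι → K) (ω : Sym2 V → K) (v : V) :
    (∑ e, ω e • rho P e) v = ∑ w, Om ω v w • P w := by
  simp only [Finset.sum_apply, Pi.smul_apply, rho_apply, smul_sum, smul_smul]
  rw [sum_comm]
  refine sum_congr rfl fun w _ => ?_
  rw [← sum_smul]
  congr 1
  simp [Om]

/-- Every stress of the zero pattern of a motion is also a stress of the motion. -/
lemma Gen.stress_flex {P X : V → ι → K} (hP : Gen P) (ω : Sym2 V → K)
    (hω : ∑ e, ω e • rho P e = 0) (hF : ∀ e, ω e ≠ 0 → pair X (rho P e) = 0) :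
    ∑ e, ω e • rho X e = 0 := by
  apply eq_zero_of_pair
  intro Y
  obtain ⟨D, hD, hDP⟩ := hP Y
  have hrho : ∀ e v i, D (rho P e v i) = rho Y e v i := by
    intro e v i
    induction e using Sym2.ind with
    | h a b =>
      simp only [rho_mk, Pi.add_apply, map_add, Pi.single_apply]
      congr 1 <;> split_ifs <;> simp [hDP]
  have key : ∑ e, ω e • rho Y e + ∑ e, D (ω e) • rho P e = 0 := by
    ext v i
    have := congrArg D (congrFun (congrFun hω v) i)
    simp only [Finset.sum_apply, Pi.smul_apply, smul_eq_mul, Pi.zero_apply, map_zero] at this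
    rw [der_sum_smul hD] at this
    simpa [Finset.sum_apply, hrho] using this
  have := congrArg (pair X) key
  rw [map_add, map_sum, map_sum, map_zero, sum_eq_zero (s := univ)
    (f := fun e => pair X (D (ω e) • rho P e)), add_zero] at this
  · rw [map_sum, ← this]
    exact sum_congr rfl fun e _ => by rw [map_smul, map_smul, pair_rho_swap]
  · intro e _
    by_cases he : ω e = 0
    · simp [he]
    · simp [hF e he]

end Pool.Agent.P.MP_2d96df_co.H35
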