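import Pool.Agent.P.MP_2d96df_co.H35.Pattern
import Pool.Agent.P.MP_2d96df_co.H35.Analysis

/-! Lower bound for the number of pairs outside the closure of a quasirandom graph. -/

namespace Pool.Agent.P.MP_2d96df_co.H35

open Finset Module
open scoped Classical

set_option linter.unusedSectionVars false
set_option maxHeartbeats 400000

section Pairs

variable {V : Type*} [Fintype V] [DecidableEq V]

/-- The pairs of distinct vertices between `A` and `B`. -/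
def pr (A B : Finset V) : Finset (Sym2 V) := ((A ×ˢ B).filter fun x => x.1 ≠ x.2).image mk2

lemma mem_pr {A B : Finset V} {u w : V} :
    s(u, w) ∈ pr A B ↔ u ≠ w ∧ ((u ∈ A ∧ w ∈ B) ∨ (w ∈ A ∧ u ∈ B)) := by
  simp only [pr, mem_image, mem_filter, mem_product, mk2, Sym2.eq_iff, Prod.exists]
  constructor
  · rintro ⟨a, b, ⟨h1, h2⟩, ⟨rfl, rfl⟩ | ⟨rfl, rfl⟩⟩
    · exact ⟨h2, Or.inl h1⟩
    · exact ⟨fun h => h2 h.symm, Or.inr h1⟩
  · rintro ⟨h1, h | h⟩
    · exact ⟨u, w, ⟨h, h1⟩, Or.inl ⟨rfl, rfl⟩⟩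
    · exact ⟨w, u, ⟨h, fun h => h1 h.symm⟩, Or.inr ⟨rfl, rfl⟩⟩

lemma mem_pr_self {U : Finset V} {u w : V} : s(u, w) ∈ pr U U ↔ u ≠ w ∧ u ∈ U ∧ w ∈ U := by
  rw [mem_pr]; tauto

lemma not_isDiag_of_mem_pr {A B : Finset V} {e : Sym2 V} (h : e ∈ pr A B) : ¬ e.IsDiag := by
  induction e using Sym2.ind with
  | h a b => simpa using (mem_pr.1 h).1

lemma mem_pr_univ {e : Sym2 V} : e ∈ pr (univ : Finset V) univ ↔ ¬ e.IsDiag := by
  induction e using Sym2.ind with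
  | h a b => simp [mem_pr]

lemma pr_subset (A B : Finset V) : pr A B ⊆ pr univ univ :=
  fun _ h => mem_pr_univ.2 (not_isDiag_of_mem_pr h)

lemma card_pr_self (U : Finset V) : 2 * (pr U U).card + U.card = U.card * U.card := by
  rw [← card_ordered _ (fun e he => not_isDiag_of_mem_pr he), ← card_product,
    ← card_filter_add_card_filter_not (s := U ×ˢ U) (fun x => x.1 ≠ x.2)]
  congr 1
  · congr 1
    ext ⟨a, b⟩
    simp only [mk2, mem_filter, mem_univ, true_and, mem_pr_self, mem_product]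
    tauto
  · rw [← card_image_of_injective U (f := fun a => (a, a)) (fun a b h => (Prod.mk.inj h).1)]
    congr 1
    ext ⟨a, b⟩
    simp only [mem_image, Prod.mk.injEq, mem_filter, mem_product, not_not]
    constructor
    · rintro ⟨x, hx, rfl, rfl⟩; exact ⟨⟨hx, hx⟩, rfl⟩
    · rintro ⟨⟨h, -⟩, rfl⟩; exact ⟨a, h, rfl, rfl⟩

lemma card_pr_disj {A B : Finset V} (h : Disjoint A B) : (pr A B).card = A.card * B.card := by
  rw [pr, card_image_cross h _ (filter_subset _ _), filter_true_of_mem, card_product]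
  intro x hx he
  exact disjoint_left.1 h (mem_product.1 hx).1 (he ▸ (mem_product.1 hx).2)

lemma card_pr_le (A B : Finset V) : (pr A B).card ≤ Fintype.card V * Fintype.card V := by
  refine card_image_le.trans ((card_le_univ _).trans ?_)
  simp

lemma card_inter_pr_le (G : Finset (Sym2 V)) (A B : Finset V) :
    (G ∩ pr A B).card ≤ ∑ a ∈ A, (B.filter fun b => s(a, b) ∈ G).card := by
  rw [← card_filter_prod A B (fun a b => s(a, b) ∈ G)]
  refine le_trans (card_le_card ?_) (card_image_le (f := mk2))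
  intro e he
  obtain ⟨x, hx, rfl⟩ := mem_image.1 (mem_inter.1 he).2
  exact mem_image.2 ⟨x, mem_filter.2 ⟨(mem_filter.1 hx).1, (mem_inter.1 he).1⟩, rfl⟩

lemma sum_deg_le (G : Finset (Sym2 V)) (A : Finset V) :
    ∑ a ∈ A, (A.filter fun b => b ≠ a ∧ s(a, b) ∈ G).card ≤ 2 * (G ∩ pr A A).card := by
  rw [← card_filter_prod A A (fun a b => b ≠ a ∧ s(a, b) ∈ G)]
  refine (card_le_two_mul_image _).trans (Nat.mul_le_mul_left _ (card_le_card ?_))
  intro e he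
  obtain ⟨⟨a, b⟩, hx, rfl⟩ := mem_image.1 he
  simp only [mem_filter, mem_product] at hx
  exact mem_inter.2 ⟨hx.2.2, mem_pr_self.2 ⟨fun h => hx.2.1 h.symm, hx.1⟩⟩

/-- Quasirandomness of the edge counts. -/
def QR (p ξ : ℝ) (G : Finset (Sym2 V)) : Prop :=
  ∀ A B : Finset V,
    |((G ∩ pr A B).card : ℝ) - p * (pr A B).card| ≤ ξ * p * (Fintype.card V) ^ 2

lemma QR.upper {p ξ : ℝ} (hp : 0 ≤ p) {G : Finset (Sym2 V)} (h : QR p ξ G) (U : Finset V) :
    ((G ∩ pr U U).card : ℝ) ≤ p * U.card ^ 2 / 2 + ξ * p * (Fintype.card V) ^ 2 := by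
  have h1 := (abs_le.1 (h U U)).2
  have h2 : (2 * (pr U U).card + U.card : ℝ) = U.card * U.card := by exact_mod_cast card_pr_self U
  have h3 : p * (2 * (pr U U).card) ≤ p * U.card ^ 2 :=
    mul_le_mul_of_nonneg_left (by nlinarith [Nat.cast_nonneg (α := ℝ) U.card]) hp
  linarith

end Pairs

lemma Hyp.mono {δ ξ ξ' p κ y w : ℝ} (h : ξ ≤ ξ') (H : Hyp δ ξ p κ y w) : Hyp δ ξ' p κ y w :=
  ⟨H.p0, H.p1, H.k0, H.k1, H.y0, H.y1, H.w0, H.w1, H.kp.trans h, H.wy.trans h, H.alt.trans h,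
    H.dim.trans h, H.deg.trans h, H.cut.trans h, H.rk.trans h⟩

lemma hyp_of_real {δ ξ p n c u w : ℝ} (hn : 0 < n) (hp : 0 < p) (hp1 : p ≤ 1599 / 1600)
    (hξ : 0 ≤ ξ) (hξ1 : ξ ≤ 1 / 2) (hc : 0 ≤ c) (hcn : c ≤ n) (hw : 0 ≤ w) (hwu : w ≤ u)
    (hun : u ≤ n) (hδ : δ * n ≤ u) (halt : u ≤ (1 - δ) * n ∨ w + δ * n ≤ u)
    (hdim : |c * n - c ^ 2 / 2 - p * n ^ 2 / 2| ≤ ξ * p * n ^ 2)
    (hdeg : c * u ≤ p * u ^ 2 + 2 * ξ * p * n ^ 2)
    (hcut : (p * w - c) * (u - w) ≤ ξ * p * n ^ 2)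
    (hrk : w ≤ c ∨ c * w - c ^ 2 / 2 ≤ p * u ^ 2 / 2 + 2 * ξ * p * n ^ 2) :
    Hyp δ (2 * ξ) p (c / (p * n)) (u / n) (w / n) := by
  obtain ⟨κ, rfl⟩ : ∃ κ, c = κ * p * n := ⟨c / (p * n), by field_simp⟩
  obtain ⟨y, rfl⟩ : ∃ y, u = y * n := ⟨u / n, by field_simp⟩
  obtain ⟨x, rfl⟩ : ∃ x, w = x * n := ⟨w / n, by field_simp⟩
  rw [show κ * p * n / (p * n) = κ by field_simp, mul_div_cancel_right₀ _ hn.ne',
    mul_div_cancel_right₀ _ hn.ne']
  have hpn : 0 < p * n ^ 2 := by positivity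
  have k0 : 0 ≤ κ := by
    by_contra h
    have := mul_pos (mul_pos (neg_pos.2 (not_le.1 h)) hp) hn
    linarith
  have kp : κ * p ≤ 1 := le_of_mul_le_mul_right (by linarith) hn
  have x0 : 0 ≤ x := nonneg_of_mul_nonneg_left hw hn
  have xy : x ≤ y := le_of_mul_le_mul_right hwu hn
  have y1 : y ≤ 1 := le_of_mul_le_mul_right (by linarith) hn
  have dim : |κ - κ ^ 2 * p / 2 - 1 / 2| ≤ ξ := by
    refine le_of_mul_le_mul_right ?_ hpn
    rw [← abs_of_pos hpn, ← abs_mul, abs_of_pos hpn]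
    rw [show (κ - κ ^ 2 * p / 2 - 1 / 2) * (p * n ^ 2) =
      κ * p * n * n - (κ * p * n) ^ 2 / 2 - p * n ^ 2 / 2 by ring]
    linarith
  refine ⟨hp.le, hp1, k0, ?_, le_of_mul_le_mul_right hδ hn, y1, x0, by linarith, by linarith,
    by linarith, ?_, by linarith, ?_, ?_, ?_⟩
  · have := (abs_le.1 dim).2
    nlinarith [mul_nonneg k0 (sub_nonneg.2 kp)]
  · rw [min_le_iff]
    rcases halt with h | h
    · left; have := le_of_mul_le_mul_right h hn; linarith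
    · right
      have : x + δ ≤ y := le_of_mul_le_mul_right (by linarith) hn
      linarith
  · exact le_of_mul_le_mul_right (by linarith) hpn
  · have : (x - κ) * (y - x) ≤ ξ := le_of_mul_le_mul_right (by linarith) hpn
    linarith
  · rw [min_le_iff]
    rcases hrk with h | h
    · left; have := le_of_mul_le_mul_right h hn; linarith
    · right; exact le_of_mul_le_mul_right (by linarith) hpn

lemma cast_sub_max (a b : ℕ) : ((a - b : ℕ) : ℝ) = max ((a : ℝ) - b) 0 := by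
  rcases le_total b a with h | h
  · rw [Nat.cast_sub h, max_eq_left (by simpa using h)]
  · rw [Nat.sub_eq_zero_of_le h, max_eq_right (by simpa using h)]; simp

lemma Phi_scale {n c u w f : ℝ} (hn : 0 < n)
    (h1 : (max (u - c) 0) ^ 2 ≤ 4 * f + (max (w - c) 0) ^ 2)
    (f' : ℝ) (hf' : 0 ≤ f') (h2 : (w - c) * (u - w) + f' ≤ f)
    (h3 : (max (u - w - c) 0) ^ 2 ≤ 4 * f' + (max (w - c) 0) ^ 2) :
    Phi (c / n) (u / n) (w / n) * n ^ 2 ≤ f := by
  have hm : ∀ a : ℝ, max (a / n) 0 = max a 0 / n := fun a => by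
    rw [← max_div_div_right hn.le, zero_div]
  rw [← le_div_iff₀ (by positivity)]
  simp only [Phi, ← sub_div, hm, max_le_iff, div_pow]
  refine ⟨?_, ?_, ?_⟩ <;> rw [le_div_iff₀ (by positivity)] <;> field_simp <;> linarith

variable {K : Type*} [Field K] [CharZero K] {V : Type*} [Fintype V] [DecidableEq V]
  {ι : Type*} [Fintype ι] [DecidableEq ι]

lemma choose_diff (c t : ℕ) : 2 * (c + t + 1).choose 2 = 2 * (t + 1).choose 2 + (2 * c * t + c * c + c) := by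
  rw [two_mul_choose, two_mul_choose]; ring

/-- The data of a maximum clique of the closure of `G` inside `U`. -/
lemma clique_data {P X : V → ι → K} (hP : Gen P) (h1 : 1 ≤ Fintype.card ι) (G : Finset (Sym2 V))
    (U : Finset V) (hX : ∀ e, pair X (rho P e) = 0 ↔ rho P e ∈ Sp P (G ∩ pr U U)) :
    ∃ Y ⊆ U, Clq P X Y ∧ (∀ Y0 ⊆ U, Clq P X Y0 → Y0.card ≤ Y.card) ∧
      (∀ v ∈ U \ Y, (Y.filter fun b => s(v, b) ∈ G).card ≤ Fintype.card ι) ∧
      ((Y.card : ℝ) ≤ Fintype.card ι ∨ (Fintype.card ι * Y.card - Fintype.card ι ^ 2 / 2 : ℝ) ≤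
        (G ∩ pr U U).card + Fintype.card V) ∧
      ∀ n : ℝ, 0 < n → Phi (Fintype.card ι / n) (U.card / n) (Y.card / n) * n ^ 2 ≤
        (supp P X U).card := by
  have hd : ∀ u, MM P X u u = 0 := fun u => by
    rw [← pair_rho, hX]; exact rho_mem_Sp P (Or.inr (by simp))
  obtain ⟨Y, hY, hq, hmax, hout⟩ := exists_max_clique hP hd h1 U
  refine ⟨Y, hY, hq, hmax, fun v hv => ?_, ?_, fun n hn => ?_⟩
  · refine le_trans (card_le_card ?_) ((Nat.le_add_right _ 2).trans (hout v hv))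
    intro b hb
    rw [mem_filter] at hb ⊢
    rw [mem_sdiff] at hv
    refine ⟨hb.1, ?_⟩
    rw [← pair_rho, hX]
    exact rho_mem_Sp P (Or.inl (mem_inter.2 ⟨hb.2, mem_pr_self.2
      ⟨fun h => hv.2 (h ▸ hb.1), hv.1, hY hb.1⟩⟩))
  · rcases le_total Y.card (Fintype.card ι) with h | h
    · left; exact_mod_cast h
    · right
      have e1 := clique_rank hP h1 (Sp P (G ∩ pr U U)) Y h
        (fun u hu w hw => by rw [← hX, pair_rho]; exact hq u hu w hw)
        (fun u => rho_mem_Sp P (Or.inr (by simp)))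
      have e2 := finrank_Sp_le P (G ∩ pr U U)
      obtain ⟨t, ht⟩ := Nat.exists_eq_add_of_le h
      have e3 := choose_diff (Fintype.card ι) t
      rw [ht, Nat.add_sub_cancel_left] at e1
      have e4 : Y.card ≤ Fintype.card V := card_le_univ _
      have e5 : 2 * Fintype.card ι * t + Fintype.card ι * Fintype.card ι ≤
          2 * ((G ∩ pr U U).card + Fintype.card V) := by omega
      have e6 : (2 * Fintype.card ι * t + Fintype.card ι * Fintype.card ι : ℝ) ≤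
          2 * ((G ∩ pr U U).card + Fintype.card V) := by exact_mod_cast e5
      rw [ht]; push_cast; linarith
  · have e1 := IT hP X Y.card U hmax
    have e2 := IT hP X Y.card (U \ Y) (fun Y0 h => hmax Y0 (h.trans sdiff_subset))
    have e3 := supp_split P X hY (Fintype.card ι) (fun v hv => by have := hout v hv; omega)
    have e4 := card_le_card hY
    rw [card_sdiff_of_subset hY] at e2
    refine Phi_scale hn ?_ (supp P X (U \ Y)).card (by positivity) ?_ ?_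
    · rw [← cast_sub_max, ← cast_sub_max]; exact_mod_cast e1
    · have e5 : (((U.card - Y.card : ℕ) : ℝ) * ((Y.card - Fintype.card ι : ℕ) : ℝ) +
          (supp P X (U \ Y)).card) ≤ (supp P X U).card := by exact_mod_cast e3
      rw [Nat.cast_sub e4, cast_sub_max] at e5
      have e6 : (Y.card : ℝ) ≤ U.card := by exact_mod_cast e4
      have := mul_le_mul_of_nonneg_left (le_max_left ((Y.card : ℝ) - Fintype.card ι) 0)
        (sub_nonneg.2 e6)
      linarith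
    · rw [← Nat.cast_sub e4, ← cast_sub_max, ← cast_sub_max]; exact_mod_cast e2

lemma sparse_num {η μ n c : ℝ} (b : ℕ) (hη : 0 < η) (hμ : 0 < μ) (hμ1 : μ ≤ 1)
    (hμη : 12 * μ ≤ η) (hn : 0 < n) (hc0 : 0 ≤ c) (hc : c ≤ 2 * μ ^ 10 * n)
    (hb : μ ^ 2 * c < b + 1) :
    2 * c ≤ η * n ∧ (c * n / (μ ^ 4 * η * n / 2) + (μ ^ 4 * η * n / 2) * n / (η * n - c)) *
      (b + 1 + 2 * c) ≤ (b + 1) * (η * n / 2) := by
  have p2 : μ ^ 2 ≤ μ := pow_le_of_le_one hμ.le hμ1 two_ne_zero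
  have p10 : μ ^ 10 ≤ μ := pow_le_of_le_one hμ.le hμ1 (by norm_num)
  have h1 : 2 * c ≤ η * n := by nlinarith
  refine ⟨h1, ?_⟩
  have h2 : c * n / (μ ^ 4 * η * n / 2) ≤ μ ^ 4 * n := by
    rw [div_le_iff₀ (by positivity)]
    have : μ ^ 8 * n ^ 2 * (4 * μ ^ 2) ≤ μ ^ 8 * n ^ 2 * η :=
      mul_le_mul_of_nonneg_left (by linarith) (by positivity)
    nlinarith
  have h3 : (μ ^ 4 * η * n / 2) * n / (η * n - c) ≤ μ ^ 4 * n := by
    have : 0 < η * n := by positivity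
    rw [div_le_iff₀ (by linarith)]
    have : μ ^ 4 * n * (2 * c) ≤ μ ^ 4 * n * (η * n) :=
      mul_le_mul_of_nonneg_left h1 (by positivity)
    nlinarith
  have h4 : 2 * (μ ^ 4 * n) * (b + 1 + 2 * c) ≤ (b + 1) * (η * n / 2) := by
    have e1 : μ ^ 2 * n * (μ ^ 2 * c) ≤ μ ^ 2 * n * (b + 1) :=
      mul_le_mul_of_nonneg_left hb.le (by positivity)
    have p4 : μ ^ 4 ≤ μ := pow_le_of_le_one hμ.le hμ1 (by norm_num)
    have e2 : (2 * μ ^ 4 + 4 * μ ^ 2) * (n * (b + 1)) ≤ η / 2 * (n * (b + 1)) :=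
      mul_le_mul_of_nonneg_right (by linarith) (by positivity)
    nlinarith
  refine le_trans (mul_le_mul_of_nonneg_right (by linarith) (by positivity)) h4

theorem beta (δ : ℝ) (hδ : 0 < δ) : ∃ ξ γ μ0 : ℝ, 0 < ξ ∧ ξ ≤ 1 / 100 ∧ 0 < γ ∧ γ ≤ 1 ∧
    0 < μ0 ∧ μ0 ≤ γ ^ 2 / 10000 ∧
    ∀ (K V ι : Type) [Field K] [CharZero K] [Fintype V] [DecidableEq V] [Fintype ι]
      [DecidableEq ι] (P : V → ι → K), Gen P → ∀ (μ n c : ℝ), n = Fintype.card V →
      c = Fintype.card ι → 0 < μ → μ ^ 10 ≤ 1599 / 1600 → 1 ≤ c → c ≤ n →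
      1 ≤ ξ * (μ ^ 10 * n) → |c * n - c ^ 2 / 2 - μ ^ 10 * n ^ 2 / 2| ≤ ξ * μ ^ 10 * n ^ 2 →
      ∀ G : Finset (Sym2 V), QR (μ ^ 10) ξ G →
      (μ ≤ μ0 → PatHit P (2 * ⌊μ ^ 2 * c⌋₊) (γ * n ^ 2) G) →
      ∀ (U : Finset V) (X : V → ι → K),
      (∀ e, pair X (rho P e) = 0 ↔ rho P e ∈ Sp P (G ∩ pr U U)) → δ * n ≤ U.card →
      c * U.card ≤ 2 * (G ∩ pr U U).card →
      (U.card ≤ (1 - δ) * n ∨ ∀ Y ⊆ U, Clq P X Y →
        (∀ v ∈ U \ Y, (Y.filter fun b => s(v, b) ∈ G).card ≤ Fintype.card ι) →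
        Y.card + δ * n ≤ U.card) →
      (1 - μ ^ 10) * U.card * (μ ^ 10 * U.card - c) / (2 * μ ^ 10) + 4 * ξ * n ^ 2 ≤
        (supp P X U).card := by
  obtain ⟨ξ1, hξ1, H1⟩ := gap_sparse δ hδ
  obtain ⟨η, hη, hη1, hη2⟩ : ∃ η : ℝ, 0 < η ∧ η ≤ 1 ∧ η ≤ ξ1 / 2 :=
    ⟨min 1 (ξ1 / 2), lt_min one_pos (by linarith), min_le_left _ _, min_le_right _ _⟩
  have hγ1 : η ^ 4 / 64 ≤ 1 := by
    have := pow_le_one₀ hη.le hη1 (n := 4); linarith
  obtain ⟨μ0, hμ0, hμ1, hμ2⟩ : ∃ μ0 : ℝ, 0 < μ0 ∧ μ0 ≤ (η ^ 4 / 64) ^ 2 / 10000 ∧ μ0 ≤ η / 12 :=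
    ⟨min ((η ^ 4 / 64) ^ 2 / 10000) (η / 12), lt_min (by positivity) (by positivity),
      min_le_left _ _, min_le_right _ _⟩
  obtain ⟨ξ2, hξ2, H2⟩ := gap_middle δ (μ0 ^ 10) hδ (by positivity)
  obtain ⟨ξ, hξ, hξa, hξb, hξc⟩ : ∃ ξ : ℝ, 0 < ξ ∧ ξ ≤ 1 / 100 ∧ ξ ≤ ξ1 / 8 ∧ ξ ≤ ξ2 / 4 :=
    ⟨min (1 / 100) (min (ξ1 / 8) (ξ2 / 4)), lt_min (by norm_num) (lt_min (by positivity)
      (by positivity)), min_le_left _ _, (min_le_right _ _).trans (min_le_left _ _),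
      (min_le_right _ _).trans (min_le_right _ _)⟩
  refine ⟨ξ, η ^ 4 / 64, μ0, hξ, hξa, by positivity, hγ1, hμ0, hμ1, ?_⟩
  intro K V ι _ _ _ _ _ _ P hP μ n c hn hc hμ hp1 hc1 hcn hT hdim G hQ hhit U X hX hδU hdeg halt
  have hn0 : 0 < n := by linarith
  have hc1' : 1 ≤ Fintype.card ι := by rw [hc] at hc1; exact_mod_cast hc1
  obtain ⟨p, hp⟩ : ∃ p, p = μ ^ 10 := ⟨_, rfl⟩
  have hp0 : 0 < p := by rw [hp]; positivity
  rw [← hp] at hp1 hT hdim hQ ⊢
  obtain ⟨Y, hY, hq, hmax, hout, hrk, hPhi⟩ := clique_data hP hc1' G U hX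
  have hup := hQ.upper hp0.le U
  rw [← hn] at hup hrk
  rw [← hc] at hrk hPhi
  have hYU : (Y.card : ℝ) ≤ U.card := by exact_mod_cast card_le_card hY
  have hUn : (U.card : ℝ) ≤ n := by rw [hn]; exact_mod_cast card_le_univ U
  have hnn : n ≤ ξ * p * n ^ 2 := by nlinarith
  have H : Hyp δ (2 * ξ) p (c / (p * n)) (U.card / n) (Y.card / n) := by
    refine hyp_of_real hn0 hp0 hp1 hξ.le (by linarith) (by linarith) hcn (by positivity) hYU hUn
      hδU (halt.imp_right fun h => h Y hY hq hout) hdim (by linarith) ?_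
      (hrk.imp_right fun h => by linarith)
    have e1 := (abs_le.1 (hQ (U \ Y) Y)).1
    have e2 : (G ∩ pr (U \ Y) Y).card ≤ (U \ Y).card * Fintype.card ι := by
      refine (card_inter_pr_le G _ _).trans ?_
      rw [← smul_eq_mul, ← sum_const]
      exact sum_le_sum hout
    have e3 : ((G ∩ pr (U \ Y) Y).card : ℝ) ≤ (U \ Y).card * c := by rw [hc]; exact_mod_cast e2
    rw [card_pr_disj sdiff_disjoint, ← hn] at e1
    rw [card_sdiff_of_subset hY] at e1 e3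
    push_cast [Nat.cast_sub (card_le_card hY)] at e1 e3
    linarith
  have hR : (1 - p) * U.card * (p * U.card - c) / (2 * p) =
      (1 - p) * (U.card / n) * (U.card / n - c / (p * n)) / 2 * n ^ 2 := by field_simp
  rw [hR]
  have hn2 : 0 < n ^ 2 := by positivity
  by_cases hμ' : μ ≤ μ0
  · have h1 := mul_le_mul_of_nonneg_right (H1 _ _ _ _ (H.mono (by linarith))) hn2.le
    have hd : ∀ u, MM P X u u = 0 := fun u => by
      rw [← pair_rho, hX]; exact rho_mem_Sp P (Or.inr (by simp))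
    have hc2 : c ≤ 2 * μ ^ 10 * n := by
      have := H.k1
      rw [div_le_iff₀ (by positivity)] at this
      rw [← hp]; linarith
    obtain ⟨n1, n2⟩ := sparse_num ⌊μ ^ 2 * c⌋₊ hη hμ (by linarith) (by linarith) hn0 (by linarith)
      hc2 (Nat.lt_floor_add_one _)
    have h2 := core_supp hd (η * n) (by positivity) Y.card U (fun Y' hY' hD => hmax Y' hY'
      (dense_clique hP hd hc1' G Y' (fun u hu w hw h => by
        by_cases huw : u = w
        · rw [huw]; exact hd w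
        · rw [← pair_rho, hX]
          exact rho_mem_Sp P (Or.inl (mem_inter.2 ⟨h, mem_pr_self.2 ⟨huw, hY' hu, hY' hw⟩⟩)))
        (μ ^ 4 * η * n / 2) (η * n) (η ^ 4 / 64 * n ^ 2) ⌊μ ^ 2 * c⌋₊ (by positivity)
        (by positivity) (by rw [← hc]; exact n1) (by rw [← hc, ← hn]; exact n2)
        (by rw [← hn]; nlinarith [show 0 < (η * n) ^ 4 by positivity]) (hhit hμ') hD))
    have h3 : (((U.card : ℝ) / n) ^ 2 - (Y.card / n) ^ 2) / 2 * n ^ 2 =
        (U.card ^ 2 - Y.card ^ 2) / 2 := by field_simp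
    rw [h3] at h1
    have h4 : η * n * U.card ≤ η * n * n := mul_le_mul_of_nonneg_left hUn (by positivity)
    have h5 := mul_le_mul_of_nonneg_right (show η + 4 * ξ ≤ ξ1 by linarith) hn2.le
    linarith
  · have h1 := mul_le_mul_of_nonneg_right (H2 _ _ _ _ (by
      rw [hp]; exact pow_le_pow_left₀ hμ0.le (not_le.1 hμ').le 10) (H.mono (by linarith))) hn2.le
    rw [show c / (p * n) * p = c / n by field_simp] at h1
    have h2 := hPhi n hn0
    have h5 := mul_le_mul_of_nonneg_right (show 4 * ξ ≤ ξ2 by linarith) hn2.le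
    linarith

end Pool.Agent.P.MP_2d96df_co.H35
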