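import Pool.Agent.P.MP_2d96df_co.H35.M1

/-! Counting pairs, the iterated support inequality and maximum cliques of the zero pattern. -/

namespace Pool.Agent.P.MP_2d96df_co.H35

open Finset Module
open scoped Classical

set_option linter.unusedSectionVars false
set_option maxHeartbeats 400000

section Count

variable {V : Type*} [Fintype V] [DecidableEq V]

/-- The unordered pair of an ordered pair. -/
def mk2 (x : V × V) : Sym2 V := s(x.1, x.2)

lemma card_le_two_mul_image (T : Finset (V × V)) : T.card ≤ 2 * (T.image mk2).card := by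
  refine card_le_mul_card_image T 2 fun e _ => ?_
  induction e using Sym2.ind with
  | h a b =>
    refine le_trans (card_le_card (t := {(a, b), (b, a)}) ?_) card_le_two
    rintro ⟨x, y⟩ h
    simp only [mem_filter, mk2, Sym2.eq_iff] at h
    rcases h.2 with ⟨rfl, rfl⟩ | ⟨rfl, rfl⟩ <;> simp

lemma card_ordered (E : Finset (Sym2 V)) (hE : ∀ e ∈ E, ¬ e.IsDiag) :
    (univ.filter fun x : V × V => mk2 x ∈ E).card = 2 * E.card := by
  rw [card_eq_sum_card_fiberwise (f := mk2) (t := E) (fun x hx => by simpa using hx),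
    mul_comm, ← smul_eq_mul, ← sum_const]
  refine sum_congr rfl fun e he => ?_
  induction e using Sym2.ind with
  | h a b =>
    have hab : a ≠ b := fun h => hE _ he (Sym2.mk_isDiag_iff.2 h)
    have : (univ.filter fun x : V × V => mk2 x ∈ E).filter (fun x => mk2 x = s(a, b)) =
        {(a, b), (b, a)} := by
      ext ⟨x, y⟩
      simp only [mem_filter, mem_univ, true_and, mem_insert, mem_singleton, Prod.mk.injEq]
      constructor
      · rintro ⟨-, h⟩
        simpa [mk2, Sym2.eq_iff] using h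
      · rintro (⟨rfl, rfl⟩ | ⟨rfl, rfl⟩)
        · exact ⟨he, rfl⟩
        · have : mk2 (x, y) = s(y, x) := Sym2.eq_swap
          exact ⟨this ▸ he, this⟩
    rw [this, card_pair]
    simp [hab]

lemma card_image_cross {A B : Finset V} (h : Disjoint A B) (T : Finset (V × V))
    (hT : T ⊆ A ×ˢ B) : (T.image mk2).card = T.card := by
  refine card_image_of_injOn ?_
  rintro ⟨a, b⟩ hab ⟨a', b'⟩ hab' he
  have h1 := mem_product.1 (hT hab)
  have h2 := mem_product.1 (hT hab')
  simp only [mk2, Sym2.eq_iff] at he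
  rcases he with ⟨rfl, rfl⟩ | ⟨rfl, rfl⟩
  · rfl
  · exact absurd h2.2 (disjoint_left.1 h h1.1)

lemma card_filter_prod (A B : Finset V) (R : V → V → Prop) [∀ a b, Decidable (R a b)] :
    ((A ×ˢ B).filter fun x => R x.1 x.2).card = ∑ a ∈ A, (B.filter fun b => R a b).card := by
  simp only [card_filter, sum_product]

end Count

variable {K : Type*} [Field K] {V : Type*} [Fintype V] [DecidableEq V]
  {ι : Type*} [Fintype ι] [DecidableEq ι]

/-- The support of the matrix of `X` inside `U`. -/
noncomputable def supp (P X : V → ι → K) (U : Finset V) : Finset (Sym2 V) :=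
  U.sym2.filter fun e => pair X (rho P e) ≠ 0

/-- `Y` is a clique of the zero pattern. -/
def Clq (P X : V → ι → K) (Y : Finset V) : Prop := ∀ u ∈ Y, ∀ w ∈ Y, MM P X u w = 0

lemma mem_supp {P X : V → ι → K} {U : Finset V} {u w : V} :
    s(u, w) ∈ supp P X U ↔ u ∈ U ∧ w ∈ U ∧ MM P X u w ≠ 0 := by
  simp [supp, pair_rho, and_assoc]

lemma Gen.restrict {P : V → ι → K} (hP : Gen P) (Y : Finset V) : Gen (fun u : Y => P u) := by
  intro Z
  obtain ⟨D, hD, h⟩ := hP (fun v => if h : v ∈ Y then Z ⟨v, h⟩ else 0)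
  exact ⟨D, hD, fun u i => by simp [h]⟩

lemma M1_sub [CharZero K] {P : V → ι → K} (hP : Gen P) (X : V → ι → K) (Y : Finset V)
    (hc : Fintype.card ι ≤ Y.card) :
    ∃ (W : Finset V) (a j l e : ℕ), W ⊆ Y ∧ j ≤ a ∧ j + l + Fintype.card ι = Y.card ∧
      W.card ≤ a + j ∧ a * l + (j + 1).choose 2 ≤ e ∧
      e + (supp P X (Y \ W)).card ≤ (supp P X Y).card ∧ (¬ Clq P X Y → W.Nonempty) := by
  obtain ⟨W, a, j, l, h1, h2, h3, -, h5, -, h7⟩ :=
    M1 (hP.restrict Y) (by simpa using hc) (fun u : Y => X u)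
  refine ⟨W.map (Function.Embedding.subtype _), a, j, l, _, ?_, h1, by simpa using h2,
    by simpa using h3, h5, ?_, ?_⟩
  · intro x hx
    obtain ⟨y, -, rfl⟩ := mem_map.1 hx
    exact y.2
  · rw [← card_map ⟨Sym2.map Subtype.val, Sym2.map.injective Subtype.val_injective⟩,
      ← card_union_of_disjoint]
    · refine card_le_card (union_subset ?_ ?_)
      · intro e he
        obtain ⟨e', he', rfl⟩ := mem_map.1 he
        induction e' using Sym2.ind with
        | h u w =>
          simp only [touch, mem_filter, pair_rho] at he'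
          exact mem_supp.2 ⟨u.2, w.2, he'.2.1⟩
      · exact filter_subset_filter _ (sym2_mono sdiff_subset)
    · rw [disjoint_left]
      intro e he he2
      obtain ⟨e', he', rfl⟩ := mem_map.1 he
      induction e' using Sym2.ind with
      | h u w =>
        simp only [touch, mem_filter, pair_rho] at he'
        obtain ⟨x, hx, hx'⟩ := he'.2.2
        have := mem_supp.1 he2
        simp only [mem_sdiff, mem_map, Function.Embedding.coe_subtype] at this
        rcases Sym2.mem_iff.1 hx' with rfl | rfl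
        · exact this.1.2 ⟨x, hx, rfl⟩
        · exact this.2.1.2 ⟨x, hx, rfl⟩
  · intro hn
    simp only [Clq, not_forall] at hn
    obtain ⟨u, hu, w, hw, h⟩ := hn
    exact (h7 ⟨⟨u, hu⟩, ⟨w, hw⟩, h⟩).map

lemma two_mul_choose (j : ℕ) : 2 * (j + 1).choose 2 = (j + 1) * j := by
  rw [Nat.choose_two_right, Nat.add_sub_cancel, Nat.mul_div_cancel']
  rw [mul_comm]; exact (Nat.even_mul_succ_self j).two_dvd

lemma arith_IT (a j l μ e : ℕ) (hja : j ≤ a) (hμ : μ ≤ a + j) (he : a * l + (j + 1).choose 2 ≤ e) :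
    (j + l) ^ 2 ≤ 4 * e + (j + l - μ) ^ 2 := by
  have h := two_mul_choose j
  rcases le_total l a with hl | hl
  · have : (j + l) ^ 2 ≤ 4 * e := by nlinarith
    omega
  · obtain ⟨t, rfl⟩ := Nat.exists_eq_add_of_le hl
    have h1 : t ^ 2 ≤ (j + (a + t) - μ) ^ 2 := Nat.pow_le_pow_left (by omega) 2
    nlinarith

/-- The iterated support inequality. -/
lemma IT [CharZero K] {P : V → ι → K} (hP : Gen P) (X : V → ι → K) (w : ℕ) (Y : Finset V)
    (hw : ∀ Y0 ⊆ Y, Clq P X Y0 → Y0.card ≤ w) :
    (Y.card - Fintype.card ι) ^ 2 ≤ 4 * (supp P X Y).card + (w - Fintype.card ι) ^ 2 := by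
  induction Y using Finset.strongInduction with
  | H Y ih =>
    by_cases hq : Clq P X Y
    · have := hw Y subset_rfl hq
      have : (Y.card - Fintype.card ι) ^ 2 ≤ (w - Fintype.card ι) ^ 2 :=
        Nat.pow_le_pow_left (by omega) 2
      omega
    by_cases hc : Fintype.card ι ≤ Y.card
    swap
    · rw [Nat.sub_eq_zero_of_le (by omega)]; simp
    obtain ⟨W, a, j, l, e, hW, h1, h2, h3, h4, h5, h6⟩ := M1_sub hP X Y hc
    have h7 := ih (Y \ W) (sdiff_ssubset hW (h6 hq)) (fun Y0 h => hw Y0 (h.trans sdiff_subset))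
    have h8 := arith_IT a j l W.card e h1 h3 h4
    rw [card_sdiff_of_subset hW] at h7
    have e1 : Y.card - Fintype.card ι = j + l := by omega
    have e2 : Y.card - W.card - Fintype.card ι = j + l - W.card := by omega
    rw [e2] at h7
    rw [e1]; omega

lemma Clq.insert [CharZero K] {P X : V → ι → K} (hP : Gen P) (hd : ∀ u, MM P X u u = 0)
    (h1 : 1 ≤ Fintype.card ι) {Y : Finset V} (hY : Clq P X Y) {v : V} (hv : v ∉ Y)
    (hc : Fintype.card ι ≤ (Y.filter fun b => MM P X v b = 0).card + 1) :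
    Clq P X (insert v Y) := by
  obtain ⟨B, hB, hBc⟩ := exists_subset_card_eq (s := Y.filter fun b => MM P X v b = 0)
    (n := Fintype.card ι - 1) (by omega)
  have hBY : ∀ b ∈ B, b ∈ Y := fun b hb => (mem_filter.1 (hB hb)).1
  have hvB : ∀ b ∈ B, MM P X v b = 0 := fun b hb => (mem_filter.1 (hB hb)).2
  have key : ∀ u ∈ Y, MM P X u v = 0 := by
    intro u hu
    by_cases huB : u ∈ B
    · rw [MM_comm]; exact hvB u huB
    · exact hP.join hd B (by omega) u v huB (fun h => hv (hBY v h))
        (fun a ha b hb => hY a (hBY a ha) b (hBY b hb)) (fun b hb => hY u hu b (hBY b hb)) hvB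
  intro a ha b hb
  rcases mem_insert.1 ha with rfl | ha' <;> rcases mem_insert.1 hb with rfl | hb'
  · exact hd _
  · rw [MM_comm]; exact key b hb'
  · exact key a ha'
  · exact hY a ha' b hb'

lemma exists_max_clique [CharZero K] {P X : V → ι → K} (hP : Gen P) (hd : ∀ u, MM P X u u = 0)
    (h1 : 1 ≤ Fintype.card ι) (U : Finset V) :
    ∃ Y ⊆ U, Clq P X Y ∧ (∀ Y0 ⊆ U, Clq P X Y0 → Y0.card ≤ Y.card) ∧
      ∀ v ∈ U \ Y, (Y.filter fun b => MM P X v b = 0).card + 2 ≤ Fintype.card ι := by
  obtain ⟨Y, hY, hmax⟩ := exists_max_image (U.powerset.filter (fun B => Clq P X B)) card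
    ⟨∅, by simp [Clq]⟩
  simp only [mem_filter, mem_powerset] at hY hmax
  refine ⟨Y, hY.1, hY.2, fun Y0 h h' => hmax Y0 ⟨h, h'⟩, fun v hv => ?_⟩
  by_contra hc
  rw [mem_sdiff] at hv
  have := hmax _ ⟨insert_subset hv.1 hY.1, hY.2.insert hP hd h1 hv.2 (by omega)⟩
  rw [card_insert_of_notMem hv.2] at this
  omega

lemma supp_split (P X : V → ι → K) {U Y : Finset V} (hY : Y ⊆ U) (t : ℕ)
    (ht : ∀ v ∈ U \ Y, (Y.filter fun b => MM P X v b = 0).card ≤ t) :
    (U.card - Y.card) * (Y.card - t) + (supp P X (U \ Y)).card ≤ (supp P X U).card := by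
  have h1 : (U.card - Y.card) * (Y.card - t) ≤
      ((((U \ Y) ×ˢ Y).filter fun x => MM P X x.1 x.2 ≠ 0).image mk2).card := by
    rw [card_image_cross sdiff_disjoint _ (filter_subset _ _),
      card_filter_prod _ _ (fun a b => MM P X a b ≠ 0), ← card_sdiff_of_subset hY,
      ← smul_eq_mul, ← sum_const]
    refine sum_le_sum fun v hv => ?_
    have := card_filter_add_card_filter_not (s := Y) (fun b => MM P X v b = 0)
    have := ht v hv
    simp only [ne_eq]
    omega
  refine le_trans (Nat.add_le_add_right h1 _) ?_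
  rw [← card_union_of_disjoint]
  · refine card_le_card (union_subset ?_ (filter_subset_filter _ (sym2_mono sdiff_subset)))
    intro e he
    obtain ⟨⟨a, b⟩, hab, rfl⟩ := mem_image.1 he
    simp only [mem_filter, mem_product, mem_sdiff] at hab
    exact mem_supp.2 ⟨hab.1.1.1, hY hab.1.2, hab.2⟩
  · rw [disjoint_left]
    intro e he he2
    obtain ⟨⟨a, b⟩, hab, rfl⟩ := mem_image.1 he
    simp only [mem_filter, mem_product, mem_sdiff] at hab
    exact (mem_sdiff.1 (mem_supp.1 he2).2.1).2 hab.1.2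

lemma two_mul_supp {P X : V → ι → K} (hd : ∀ u, MM P X u u = 0) (U : Finset V) :
    2 * (supp P X U).card = ((U ×ˢ U).filter fun x => MM P X x.1 x.2 ≠ 0).card := by
  rw [← card_ordered]
  · congr 1
    ext ⟨a, b⟩
    simp [mk2, mem_supp, and_assoc]
  · intro e he
    induction e using Sym2.ind with
    | h a b =>
      intro h
      rw [Sym2.mk_isDiag_iff] at h
      subst h
      exact (mem_supp.1 he).2.2 (hd a)

end Pool.Agent.P.MP_2d96df_co.H35
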