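import Mathlib

/-! Generic embeddings, the rigidity matrix and generic rigidity of a graph. -/

namespace Pool.Agent.P.MP_2d96df_co.H35

/-- An embedding of `n` vertices in `ℝ^d` is generic if its `d n` coordinates are algebraically
independent over `ℚ`. -/
def Generic {n d : ℕ} (pt : Fin n → Fin d → ℝ) : Prop :=
  AlgebraicIndependent ℚ (fun x : Fin n × Fin d => pt x.1 x.2)

/-- The rigidity matrix: the row of the edge `uw` carries `pt u - pt w` in the columns of `u`,
`pt w - pt u` in the columns of `w` and zero elsewhere. -/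
def rigidityMatrix {n d : ℕ} (G : SimpleGraph (Fin n)) (pt : Fin n → Fin d → ℝ) :
    Matrix G.edgeSet (Fin n × Fin d) ℝ :=
  fun e x => Sym2.lift ⟨fun u w => (if x.1 = u then pt u x.2 - pt w x.2 else 0) +
    (if x.1 = w then pt w x.2 - pt u x.2 else 0), fun _ _ => add_comm _ _⟩ e.1

/-- `G` is `d`-rigid: at generic embeddings the rigidity matrix has rank `d n - C(d+1, 2)`. -/
def IsRigid {n : ℕ} (d : ℕ) (G : SimpleGraph (Fin n)) : Prop :=
  ∀ pt : Fin n → Fin d → ℝ, Generic pt → (rigidityMatrix G pt).rank = d * n - (d + 1).choose 2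

end Pool.Agent.P.MP_2d96df_co.H35
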