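import Pool.Agent.P.MP_2d96df_co.H35.Main1

/-! The regime of density close to one. -/

namespace Pool.Agent.P.MP_2d96df_co.H35

open Finset Filter Topology
open scoped Classical

set_option linter.unusedSectionVars false
set_option maxHeartbeats 400000

lemma Pr_compl {α : Type*} [DecidableEq α] (Ω : Finset α) (p : ℝ) (A : Finset α → Prop) :
    Pr Ω p A = Pr Ω (1 - p) (fun H => A (Ω \ H)) := by
  unfold Pr Ex
  refine sum_bij' (fun G _ => Ω \ G) (fun G _ => Ω \ G) (fun _ _ => mem_powerset.2 sdiff_subset)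
    (fun _ _ => mem_powerset.2 sdiff_subset)
    (fun G hG => Finset.sdiff_sdiff_eq_self (mem_powerset.1 hG))
    (fun G hG => Finset.sdiff_sdiff_eq_self (mem_powerset.1 hG)) fun G hG => ?_
  have hG' := mem_powerset.1 hG
  beta_reduce
  rw [Finset.sdiff_sdiff_eq_self hG', wt, wt, card_sdiff_of_subset hG',
    Nat.sub_sub_self (card_le_card hG'), sub_sub_cancel, mul_comm (p ^ _)]

variable {K : Type*} [Field K] [CharZero K] {V : Type*} [Fintype V] [DecidableEq V]
  {ι : Type*} [Fintype ι] [DecidableEq ι]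

lemma card_Omega : (pr (univ : Finset V) univ).card + Fintype.card V =
    (Fintype.card V + 1).choose 2 := by
  have e1 := card_pr_self (univ : Finset V)
  have e2 := two_mul_choose (Fintype.card V)
  rw [card_univ] at e1
  nlinarith

lemma arith_dense (a j l e : ℕ) (hja : j ≤ a) (hl : 1 ≤ l) (he : a * l + (j + 1).choose 2 ≤ e)
    (he2 : e ≤ (j + l + 1).choose 2) : (a + j) * (2 * (j + l) + 3) ≤ 8 * e := by
  have h1 := two_mul_choose j
  have h2 := two_mul_choose (j + l)
  obtain ⟨s, rfl⟩ := Nat.exists_eq_add_of_le hja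
  obtain ⟨m, rfl⟩ := Nat.exists_eq_add_of_le hl
  have h3 : 2 * s ≤ m + 2 := by
    have : (1 + m) * (2 * s) ≤ (1 + m) * (m + 2) := by nlinarith
    exact Nat.le_of_mul_le_mul_left this (by omega)
  have h4 : j * s ≤ j * (2 * m + 1) := Nat.mul_le_mul_left _ (by omega)
  nlinarith

lemma dense_det {P : V → ι → K} (hP : Gen P) (h1 : 1 ≤ Fintype.card ι)
    (hc : Fintype.card ι ≤ Fintype.card V) {H : Finset (Sym2 V)} (hH : H ⊆ pr univ univ)
    (hr : ¬ Rigid P (pr univ univ \ H)) (hE : Enough (Fintype.card ι) (pr univ univ \ H)) :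
    H.card ≤ (Fintype.card V - Fintype.card ι + 1).choose 2 ∧
    ∀ Δ : ℕ, (∀ v, (univ.filter fun w => s(v, w) ∈ H).card ≤ Δ) →
      Fintype.card V - Fintype.card ι < 4 * Δ ∧ 2 ≤ Δ := by
  have hcard : H.card ≤ (Fintype.card V - Fintype.card ι + 1).choose 2 := by
    have e1 := card_Omega (V := V)
    have e2 := card_le_card hH
    unfold Enough at hE
    rw [card_sdiff_of_subset hH] at hE
    omega
  refine ⟨hcard, fun Δ hΔ => ?_⟩
  obtain ⟨X, hX⟩ := exists_generic_flex P (pr univ univ \ H)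
  obtain ⟨e, -, ω, w1, w2, w3⟩ := exists_InC hP h1 hc
    (fun e he => mem_pr_univ.1 (mem_sdiff.1 he).1) hE hr
  have w4 := hP.stress_flex ω w2 (fun g hg => (hX g).2 (rho_mem_Sp P (w1 g hg)))
  have hin : ∀ g, pair X (rho P g) ≠ 0 → g ∈ H := by
    intro g hg
    by_contra hn
    apply hg
    refine (hX g).2 (rho_mem_Sp P ?_)
    by_cases hd : g.IsDiag
    · exact Or.inr hd
    · exact Or.inl (mem_sdiff.2 ⟨mem_pr_univ.2 hd, hn⟩)
  obtain ⟨W, a, j, l, m1, m2, m3, m4, m5, m6, m7⟩ := M1 hP hc X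
  have hl : 1 ≤ l := m4 (by
    induction e using Sym2.ind with
    | h v w =>
      refine ⟨Om ω v, fun h => (Om_ne ω v w).2 w3 (congrFun h w), ?_, ?_⟩
      · rw [← sum_rho_apply, w2]; rfl
      · rw [← sum_rho_apply, w4]; rfl)
  have hW : 0 < W.card := card_pos.2 (m7 (by
    simp only [Rigid, not_forall] at hr
    obtain ⟨g, hg⟩ := hr
    induction g using Sym2.ind with
    | h u w => exact ⟨u, w, fun h => hg ((hX _).1 (by rw [pair_rho]; exact h))⟩))
  have hsub : touch P X W ⊆ H := fun g hg => hin g (mem_filter.1 hg).2.1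
  have hk : Fintype.card V - Fintype.card ι = j + l := by omega
  rw [hk] at hcard ⊢
  have key := arith_dense a j l _ m1 hl m5 ((card_le_card hsub).trans hcard)
  have e1 : (touch P X W).card ≤ W.card * Δ := by
    have : touch P X W ⊆ ((W ×ˢ univ).filter fun x => s(x.1, x.2) ∈ H).image mk2 := by
      intro g hg
      obtain ⟨u, hu, hug⟩ := (mem_filter.1 hg).2.2
      obtain ⟨w, rfl⟩ := Sym2.mem_iff_exists.1 hug
      exact mem_image.2 ⟨(u, w), mem_filter.2 ⟨by simp [hu], hsub hg⟩, rfl⟩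
    refine (card_le_card this).trans (card_image_le.trans ?_)
    rw [card_filter_prod W univ (fun a b => s(a, b) ∈ H), ← smul_eq_mul, ← sum_const]
    exact sum_le_sum fun v _ => hΔ v
  constructor
  · have e2 : (a + j) * (2 * (j + l) + 3) ≤ (a + j) * (8 * Δ) := by
      nlinarith [Nat.mul_le_mul_right Δ m3]
    have := Nat.le_of_mul_le_mul_left e2 (by omega)
    omega
  · by_contra hΔ2
    have huniq : ∀ v x y, s(v, x) ∈ H → s(v, y) ∈ H → x = y := fun v x y hx hy =>
      card_le_one.1 ((hΔ v).trans (by omega)) x (by simpa using hx) y (by simpa using hy)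
    have e2 : 2 * (touch P X W).card ≤ W.card := by
      rw [← card_ordered _ (fun g hg => mem_pr_univ.1 (hH (hsub hg)))]
      refine card_le_card_of_injOn Prod.fst ?_ ?_
      · rintro ⟨x, y⟩ hxy
        have h := (mem_filter.1 hxy).2
        obtain ⟨u, hu, hug⟩ := (mem_filter.1 h).2.2
        rcases Sym2.mem_iff.1 hug with rfl | rfl
        · exact hu
        · obtain ⟨w, hw, hw'⟩ := m6 u hu
          have := huniq u x w (by rw [Sym2.eq_swap]; exact hsub h)
            (hin _ (by rw [pair_rho]; exact hw'))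
          show x ∈ W
          rw [this]; exact hw
      · rintro ⟨x, y⟩ hxy ⟨x', y'⟩ hxy' (h : x = x')
        subst h
        rw [huniq x y y' (hsub (mem_filter.1 hxy).2) (hsub (mem_filter.1 hxy').2)]
    have e3 : (a + j) * (2 * (j + l) + 3) ≤ (a + j) * 4 := by omega
    have := Nat.le_of_mul_le_mul_left e3 (by omega)
    omega

lemma Pr_contains {α : Type*} [DecidableEq α] {Ω S : Finset α} (hS : S ⊆ Ω) (q : ℝ) :
    Pr Ω q (fun H => S ⊆ H) = q ^ S.card := by
  rw [Pr_compl]
  have := Pr_avoid (p := 1 - q) hS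
  rw [sub_sub_cancel] at this
  rw [← this]
  congr 1
  ext G
  exact ⟨fun h e he => (mem_sdiff.1 (h he)).2, fun h e he => mem_sdiff.2 ⟨hS he, h e he⟩⟩

lemma Pr_cherry {q : ℝ} (h0 : 0 ≤ q) (h1 : q ≤ 1) :
    Pr (pr (univ : Finset V) univ) q
      (fun H => ¬ ∀ v, (univ.filter fun w => s(v, w) ∈ H).card ≤ 1) ≤
      (Fintype.card V) ^ 3 * q ^ 2 := by
  refine (Pr_le_sum h0 h1 (univ : Finset (V × V × V)) (B := fun x H => x.2.1 ≠ x.2.2 ∧
    {s(x.1, x.2.1), s(x.1, x.2.2)} ⊆ H) fun H _ h => ?_).trans ?_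
  · simp only [not_forall, not_le, one_lt_card] at h
    obtain ⟨v, a, ha, b, hb, hab⟩ := h
    exact ⟨(v, a, b), mem_univ _, hab,
      insert_subset (mem_filter.1 ha).2 (singleton_subset_iff.2 (mem_filter.1 hb).2)⟩
  · refine (sum_le_sum (g := fun _ => q ^ 2) fun x _ => ?_).trans (le_of_eq ?_)
    · by_cases h : x.2.1 ≠ x.2.2 ∧ {s(x.1, x.2.1), s(x.1, x.2.2)} ⊆ pr (univ : Finset V) univ
      · refine (Pr_mono h0 h1 fun H _ hH => hH.2).trans (le_of_eq ?_)
        rw [Pr_contains h.2, card_pair fun he => h.1 (Sym2.congr_right.1 he)]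
      · rw [Pr_false fun H hH hh => h ⟨hh.1, hh.2.trans hH⟩]; positivity
    · simp [pow_succ, mul_assoc]

lemma Pr_maxdeg {q : ℝ} (h0 : 0 ≤ q) (h1 : q ≤ 1) (D : ℝ) :
    Pr (pr (univ : Finset V) univ) q
      (fun H => ¬ ∀ v, ((univ.filter fun w => s(v, w) ∈ H).card : ℝ) ≤ D) ≤
      Fintype.card V * Real.exp (2 * (q * Fintype.card V) - D) := by
  refine (Pr_le_sum h0 h1 (univ : Finset V)
    (B := fun v H => D ≤ 1 * (H ∩ pr {v} univ).card) fun H hH h => ?_).trans ?_
  · simp only [not_forall, not_le] at h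
    obtain ⟨v, h⟩ := h
    refine ⟨v, mem_univ _, ?_⟩
    rw [one_mul]
    refine h.le.trans (Nat.cast_le.2 (card_le_card_of_injOn (fun w => s(v, w)) ?_ ?_))
    · intro w hw
      have := (mem_filter.1 hw).2
      exact mem_coe.2 (mem_inter.2 ⟨this, mem_pr.2 ⟨(mem_pr.1 (hH this)).1, Or.inl (by simp)⟩⟩)
    · exact fun a _ b _ h => Sym2.congr_right.1 h
  · rw [← card_univ, ← nsmul_eq_mul, ← sum_const]
    refine sum_le_sum fun v _ => (Pr_tail h0 h1 (pr_subset _ _) _ _).trans (Real.exp_le_exp.2 ?_)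
    have e1 : (pr {v} (univ : Finset V)).card ≤ (univ : Finset V).card :=
      card_image_le.trans ((card_filter_le _ _).trans (by simp))
    have e2 := mul_le_mul_of_nonneg_left ((Nat.cast_le (α := ℝ)).2 e1) h0
    have e3 := Real.exp_one_lt_d9
    have e4 : 0 ≤ q * (pr {v} (univ : Finset V)).card := by positivity
    nlinarith

theorem dense (η : ℝ) (hη : 0 < η) : ∃ n0 : ℝ,
    ∀ (K V ι : Type) [Field K] [CharZero K] [Fintype V] [DecidableEq V] [Fintype ι]
      [DecidableEq ι] (P : V → ι → K), Gen P → ∀ p : ℝ, 1599 / 1600 ≤ p → p ≤ 1 →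
      1 ≤ Fintype.card ι → Fintype.card ι ≤ Fintype.card V → n0 ≤ Fintype.card V →
      Pr (pr univ univ) p (fun G => ¬ Rigid P G ∧ Enough (Fintype.card ι) G) ≤ η := by
  have hF : Tendsto (fun s : ℝ => 2 * Real.exp (0 - 1 / 64 * s) +
      20 ^ 8 * ((1 / 20 * s) ^ 8 * Real.exp (-(1 / 20 * s)))) atTop (𝓝 0) := by
    have := ((tendsto_exp_lin (show (0 : ℝ) < 1 / 64 by norm_num) 0).const_mul 2).add
      (((Real.tendsto_pow_mul_exp_neg_atTop_nhds_zero 8).comp
      (tendsto_id.const_mul_atTop (show (0 : ℝ) < 1 / 20 by norm_num))).const_mul (20 ^ 8))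
    simpa only [mul_zero, add_zero, Function.comp, id] using this
  obtain ⟨s0, hs0⟩ := eventually_atTop.1 ((hF.eventually_le_const hη).and
    (eventually_ge_atTop 20))
  refine ⟨max (max 4 (1 / η ^ 2)) ((max s0 0) ^ 8), ?_⟩
  intro K V ι _ _ _ _ _ _ P hP p hp hp1 hc1 hcn hn
  obtain ⟨n, hnd⟩ : ∃ n : ℝ, n = Fintype.card V := ⟨_, rfl⟩
  rw [← hnd, max_le_iff, max_le_iff] at hn
  obtain ⟨⟨hn4, hnη⟩, hns⟩ := hn
  rw [Pr_compl]
  obtain ⟨q, hq⟩ : ∃ q, q = 1 - p := ⟨_, rfl⟩
  rw [← hq]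
  have hq0 : 0 ≤ q := by linarith
  have hq1 : q ≤ 1 / 1600 := by linarith
  obtain ⟨s, hs0', hs⟩ : ∃ s : ℝ, 0 ≤ s ∧ s ^ 2 = q * n ^ 2 :=
    ⟨√(q * n ^ 2), Real.sqrt_nonneg _, Real.sq_sqrt (by positivity)⟩
  by_cases hcase : n ≤ s ^ 8
  · obtain ⟨t1, t2⟩ := hs0 s ((le_max_left _ _).trans
      (le_of_pow_le_pow_left₀ (by norm_num) hs0' (hns.trans hcase)))
    have g1 := Pr_dev (Ω := pr (univ : Finset V) univ) hq0 (by linarith) subset_rfl
      (ξ := 1 / 4) (M := q * n ^ 2) (by norm_num) (by norm_num) (by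
        refine mul_le_mul_of_nonneg_left ?_ hq0
        rw [hnd, sq]; exact_mod_cast card_pr_le univ univ)
    have g2 := Pr_maxdeg (V := V) hq0 (by linarith) (s / 10)
    refine (Pr_le_add hq0 (by linarith) fun H hH h => ?_).trans ((add_le_add g1 g2).trans
      (le_trans (add_le_add ?_ ?_) t1))
    · by_contra hno
      rw [not_or, not_lt, not_not] at hno
      obtain ⟨d1, d2⟩ := dense_det hP hc1 hcn hH h.1 h.2
      have d3 := (d2 ⌊s / 10⌋₊ fun v => Nat.le_floor (hno.2 v)).1
      have d4 := two_mul_choose (Fintype.card V - Fintype.card ι)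
      generalize Fintype.card V - Fintype.card ι = k at d1 d3 d4
      have d5 : 2 * H.card ≤ (k + 1) * k := by omega
      have d6 := (Nat.cast_le (α := ℝ)).2 d5
      have d7 := (Nat.cast_lt (α := ℝ)).2 d3
      have d8 := Nat.floor_le (show 0 ≤ s / 10 by positivity)
      have d9 := (abs_le.1 hno.1).1
      have hN : (2 * (pr (univ : Finset V) univ).card + n : ℝ) = n * n := by
        rw [hnd]; exact_mod_cast card_pr_self (univ : Finset V)
      rw [inter_eq_left.2 hH] at d9
      push_cast at d6 d7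
      have d10 : q * (3 / 8 * n ^ 2) ≤ q * (pr (univ : Finset V) univ).card :=
        mul_le_mul_of_nonneg_left (by nlinarith) hq0
      have d11 : (0 : ℝ) ≤ k := by positivity
      nlinarith
    · refine mul_le_mul_of_nonneg_left (Real.exp_le_exp.2 ?_) (by norm_num)
      rw [← hs]; nlinarith
    · rw [← hnd, ← mul_assoc (20 ^ 8), ← mul_pow]
      refine mul_le_mul (by rw [show 20 * (1 / 20 * s) = s by ring]; exact hcase)
        (Real.exp_le_exp.2 ?_) (by positivity) (by positivity)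
      have : q * n ≤ s / 40 := le_of_sq_le_sq (by
        have := mul_le_mul_of_nonneg_right hq1 (show 0 ≤ q * n ^ 2 by positivity)
        nlinarith) (by positivity)
      linarith
  · refine (Pr_mono hq0 (by linarith) fun H hH h hh => ?_).trans
      ((Pr_cherry (V := V) hq0 (by linarith)).trans ?_)
    · have := ((dense_det hP hc1 hcn hH h.1 h.2).2 1 hh).2
      omega
    · rw [← hnd]
      have hn0 : 0 < n := by linarith
      refine le_of_sq_le_sq (le_of_mul_le_mul_right ?_ (show 0 < n ^ 2 by positivity)) hη.le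
      rw [div_le_iff₀ (by positivity)] at hnη
      have e1 : (n ^ 3 * q ^ 2) ^ 2 * n ^ 2 = s ^ 8 := by
        rw [show s ^ 8 = (s ^ 2) ^ 4 by ring, hs]; ring
      rw [e1]
      nlinarith [mul_le_mul_of_nonneg_left hnη hn0.le]

end Pool.Agent.P.MP_2d96df_co.H35
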