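import Pool.Agent.P.MP_2d96df_co.H35.Rank

/-! The transcendence inequality for the support of the matrix of a motion. -/

namespace Pool.Agent.P.MP_2d96df_co.H35

open Finset Module
open scoped Classical

set_option linter.unusedSectionVars false
set_option maxHeartbeats 400000

variable {K : Type*} [Field K] {V : Type*} [Fintype V] [DecidableEq V]
  {ι : Type*} [Fintype ι] [DecidableEq ι]

lemma exists_dual_vec {I β : Type*} [Fintype I] [DecidableEq I] [Fintype β] [DecidableEq β]
    (v : I → β → K) (hv : LinearIndependent K v) :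
    ∃ w : I → β → K, ∀ i j, w i ⬝ᵥ v j = if i = j then 1 else 0 := by
  have : ∀ i : I, ∃ w : β → K, ∀ j, w ⬝ᵥ v j = if i = j then 1 else 0 := by
    intro i
    obtain ⟨g, hg⟩ := LinearMap.exists_extend ((Finsupp.lapply i).comp hv.repr)
    refine ⟨fun b => g (Pi.single b 1), fun j => ?_⟩
    have h1 : g (v j) = if i = j then 1 else 0 := by
      have := congrArg (fun f => f ⟨v j, Submodule.subset_span ⟨j, rfl⟩⟩) hg
      simp only [LinearMap.comp_apply, Submodule.subtype_apply, Finsupp.lapply_apply] at this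
      rw [this, hv.repr_eq_single j _ rfl, Finsupp.single_apply]
      simp [eq_comm]
    rw [← h1]
    have h2 : v j = ∑ b, v j b • (Pi.single b 1 : β → K) := by
      ext b; simp [Finset.sum_apply, Pi.single_apply]
    conv_rhs => rw [h2]
    simp [map_sum, dotProduct, mul_comm]
  choose w hw using this
  exact ⟨w, hw⟩

lemma linearIndependent_of_test {I M : Type*} [Fintype I] [AddCommGroup M] [Module K M]
    (v : I → M) (f : I → M →ₗ[K] K) (h1 : ∀ i j, i ≠ j → f i (v j) = 0)
    (h2 : ∀ i, f i (v i) ≠ 0) : LinearIndependent K v := by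
  rw [Fintype.linearIndependent_iff]
  intro g hg i
  have := congrArg (f i) hg
  rw [map_sum, map_zero, sum_eq_single i] at this
  · simpa [h2 i] using this
  · intro b _ hb; simp [h1 i b hb.symm]
  · simp

/-- Elementary tensor. -/
def tens (a : V → K) (b : ι → K) : V → ι → K := fun v => a v • b

lemma pair_tens (Y : V → ι → K) (a : V → K) (b : ι → K) :
    pair Y (tens a b) = b ⬝ᵥ ∑ v, a v • Y v := by
  simp [pair_apply, tens, dotProduct_sum]

lemma pair_tens_tens (a a' : V → K) (b b' : ι → K) :
    pair (tens a b) (tens a' b') = (a ⬝ᵥ a') * (b ⬝ᵥ b') := by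
  simp only [pair_apply, tens, smul_dotProduct, dotProduct_smul, smul_eq_mul]
  rw [dotProduct_comm b' b, show a ⬝ᵥ a' = ∑ v, a v * a' v from rfl, sum_mul]
  exact sum_congr rfl fun v _ => by ring

section Der

variable {P X Y : V → ι → K} {D : K →+ K}

lemma der_dot (hD : ∀ a b, D (a * b) = a * D b + D a * b) (a b : ι → K) :
    D (a ⬝ᵥ b) = a ⬝ᵥ (fun i => D (b i)) + (fun i => D (a i)) ⬝ᵥ b :=
  der_sum_smul hD _ _ _

lemma der_MM (hD : ∀ a b, D (a * b) = a * D b + D a * b) (hY : ∀ u i, D (P u i) = Y u i)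
    (u w : V) : D (MM P X u w) = MM Y X u w + MM P (fun v i => D (X v i)) u w := by
  simp only [MM, map_add, der_dot hD, hY]; ring

lemma der_all (hD : ∀ a b, D (a * b) = a * D b + D a * b) (W : Finset V) (A : V → V → K)
    (hA : ∀ v w, A v w ≠ 0 → w ∈ W) (hs : ∀ v x, ∑ w, A v w * MM P X w x = MM P X v x)
    (hW : ∀ u ∈ W, ∀ w, D (MM P X u w) = 0) (u v : V) : D (MM P X u v) = 0 := by
  have h1 : ∀ x, D (MM P X u x) = ∑ w, D (A u w) * MM P X w x := by
    intro x
    rw [← hs u x, der_sum_smul hD, sum_eq_zero, zero_add]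
    intro w _
    by_cases h : A u w = 0
    · simp [h]
    · simp [hW w (hA u w h)]
  rw [h1]
  have h2 : ∀ w, MM P X w v = ∑ x, A v x * MM P X w x := by
    intro w
    rw [MM_comm, ← hs v w]
    exact sum_congr rfl fun x _ => by rw [MM_comm]
  simp only [h2, mul_sum]
  rw [sum_comm]
  refine sum_eq_zero fun x _ => ?_
  by_cases h : A v x = 0
  · simp [h]
  · have := h1 x
    rw [MM_comm, hW x (hA v x h)] at this
    have h3 : ∑ w, D (A u w) * (A v x * MM P X w x) = A v x * ∑ w, D (A u w) * MM P X w x := by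
      rw [mul_sum]; exact sum_congr rfl fun w _ => by ring
    rw [h3, ← this, mul_zero]

lemma der_type1 (hD : ∀ a b, D (a * b) = a * D b + D a * b) (hY : ∀ u i, D (P u i) = Y u i)
    (hM : ∀ u w, D (MM P X u w) = 0) (l : ι → K) (ν z : V → K)
    (hl : ∀ u, P u ⬝ᵥ l = ∑ w, ν w * MM P X w u) (hz : ∑ u, z u • P u = 0)
    (hz' : ∑ u, z u • X u = 0) : pair Y (tens z l) = 0 := by
  have h1 : ∀ u, P u ⬝ᵥ (fun i => D (l i)) + Y u ⬝ᵥ l = ∑ w, D (ν w) * MM P X w u := by
    intro u
    have := congrArg D (hl u)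
    rw [der_dot hD, der_sum_smul hD] at this
    simpa [hM, hY] using this
  have h2 := MM_bilin P X (fun w => D (ν w)) z
  rw [hz, hz'] at h2
  simp only [dotProduct_zero, add_zero] at h2
  rw [sum_comm] at h2
  have h3 : ∑ u, z u * (P u ⬝ᵥ (fun i => D (l i)) + Y u ⬝ᵥ l) = 0 := by
    rw [← h2]
    refine sum_congr rfl fun u _ => ?_
    rw [h1, mul_sum]
    exact sum_congr rfl fun w _ => by ring
  have h4 : ∑ u, z u * (P u ⬝ᵥ (fun i => D (l i))) = 0 := by
    have := congrArg (· ⬝ᵥ (fun i => D (l i))) hz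
    simpa [sum_dotProduct] using this
  simp only [mul_add, sum_add_distrib, h4, zero_add] at h3
  rw [pair_tens, dotProduct_comm, sum_dotProduct, ← h3]
  simp

lemma der_type2 (hD : ∀ a b, D (a * b) = a * D b + D a * b) (hY : ∀ u i, D (P u i) = Y u i)
    (hM : ∀ u w, D (MM P X u w) = 0) (y y' : V → K) (hy : ∑ u, y u • P u = 0)
    (hy' : ∑ u, y' u • P u = 0) :
    pair Y (tens y (∑ u, y' u • X u) + tens y' (∑ u, y u • X u)) = 0 := by
  have h1 := MM_bilin Y X y y'
  have h2 := MM_bilin P (fun v i => D (X v i)) y y'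
  rw [hy, hy'] at h2
  simp only [dotProduct_zero, zero_dotProduct, add_zero] at h2
  have h3 : ∑ u, ∑ w, y u * y' w * MM Y X u w +
      ∑ u, ∑ w, y u * y' w * MM P (fun v i => D (X v i)) u w = 0 := by
    rw [← sum_add_distrib]
    refine sum_eq_zero fun u _ => ?_
    rw [← sum_add_distrib]
    refine sum_eq_zero fun w _ => ?_
    rw [← mul_add, ← der_MM hD hY, hM, mul_zero]
  rw [h2, add_zero, h1] at h3
  rw [map_add, pair_tens, pair_tens, dotProduct_comm, h3]

end Der

/-- The pairs in the support of the matrix of `X` that touch `W`. -/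
noncomputable def touch (P X : V → ι → K) (W : Finset V) : Finset (Sym2 V) :=
  univ.filter fun e => pair X (rho P e) ≠ 0 ∧ ∃ u ∈ W, u ∈ e

lemma exists_gens {P : V → ι → K} (hP : Gen P) (X : V → ι → K) (W : Finset V) (A : V → V → K)
    (hA : ∀ v w, A v w ≠ 0 → w ∈ W) (hs : ∀ v x, ∑ w, A v w * MM P X w x = MM P X v x) :
    ∃ S : Submodule K (V → ι → K), finrank K S ≤ (touch P X W).card ∧
      ∀ φ, (∀ (Y : V → ι → K) (D : K →+ K), (∀ a b, D (a * b) = a * D b + D a * b) →
        (∀ u i, D (P u i) = Y u i) → (∀ u w, D (MM P X u w) = 0) → pair Y φ = 0) → φ ∈ S := by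
  choose D hD hDP using fun x : V × ι => hP (Pi.single x.1 (Pi.single x.2 1))
  let g : Sym2 V → V → ι → K := fun e v i => D (v, i) (pair X (rho P e))
  refine ⟨Submodule.span K (g '' (touch P X W)), finrank_span_image_le _ _, fun φ hφ => ?_⟩
  by_contra hc
  obtain ⟨f, hf, hf'⟩ := Submodule.exists_le_ker_of_notMem hc
  obtain ⟨Y, hY⟩ := exists_pair f
  let DY : K →+ K :=
    { toFun := fun a => ∑ v, ∑ i, D (v, i) a * Y v i
      map_zero' := by simp
      map_add' := fun a b => by simp [add_mul, sum_add_distrib] }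
  have hDY : ∀ a, DY a = ∑ v, ∑ i, D (v, i) a * Y v i := fun a => rfl
  have h1 : ∀ a b, DY (a * b) = a * DY b + DY a * b := by
    intro a b
    simp only [hDY, hD, mul_sum, sum_mul, ← sum_add_distrib]
    exact sum_congr rfl fun v _ => sum_congr rfl fun i _ => by ring
  have h2 : ∀ u i, DY (P u i) = Y u i := by
    intro u i
    simp only [hDY, hDP]
    rw [sum_eq_single u]
    · simp [Pi.single_apply]
    · intro b _ hb; simp [Pi.single_eq_of_ne hb.symm]
    · simp
  apply hf
  rw [hY]
  refine hφ Y DY h1 h2 (der_all h1 W A hA hs fun u hu w => ?_)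
  by_cases h0 : MM P X u w = 0
  · simp [h0]
  · have : g s(u, w) ∈ Submodule.span K (g '' (touch P X W)) :=
      Submodule.subset_span ⟨s(u, w), by
        simp only [touch, coe_filter, mem_univ, true_and, Set.mem_ofPred_eq, pair_rho]
        exact ⟨h0, u, hu, by simp⟩, rfl⟩
    have h3 := hf' this
    rw [LinearMap.mem_ker, hY, pair_apply] at h3
    rw [hDY, ← h3]
    simp [g, pair_rho, dotProduct]

lemma finrank_map_add_inf {E F : Type*} [AddCommGroup E] [Module K E] [AddCommGroup F]
    [Module K F] [Module.Finite K E] (f : E →ₗ[K] F) (N : Submodule K E) :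
    finrank K (N.map f) + finrank K (N ⊓ LinearMap.ker f : Submodule K E) = finrank K N := by
  have h := LinearMap.finrank_range_add_finrank_ker (f.domRestrict N)
  rw [LinearMap.range_domRestrict, LinearMap.ker_domRestrict,
    ← Submodule.finrank_map_subtype_eq N, Submodule.map_comap_subtype] at h
  exact h

lemma exists_adapted {E F : Type*} [AddCommGroup E] [Module K E] [AddCommGroup F] [Module K F]
    [Module.Finite K E] (f : E →ₗ[K] F) (N : Submodule K E) :
    ∃ (j l : ℕ) (yy : Fin j → E) (zz : Fin l → E), j + l = finrank K N ∧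
      j = finrank K (N.map f) ∧ (∀ s, yy s ∈ N) ∧ (∀ t, zz t ∈ N) ∧ (∀ t, f (zz t) = 0) ∧
      LinearIndependent K (fun s => f (yy s)) ∧ LinearIndependent K (Sum.elim yy zz) ∧
      (∀ x ∈ N, ∃ β : Fin j → K, ∑ s, β s • f (yy s) = f x) ∧
      ((∃ z, z ≠ 0 ∧ z ∈ N ∧ f z = 0) → 1 ≤ l) := by
  let bx := Module.finBasis K (N.map f)
  let bz := Module.finBasis K (N ⊓ LinearMap.ker f : Submodule K E)
  choose y hy hy' using fun s => (bx s).2
  have hxi : LinearIndependent K (fun s => f (y s)) := by
    simp only [hy']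
    exact bx.linearIndependent.map' (N.map f).subtype (Submodule.ker_subtype _)
  have hzz : LinearIndependent K (fun t => (bz t : E)) :=
    bz.linearIndependent.map' (N ⊓ LinearMap.ker f).subtype (Submodule.ker_subtype _)
  have hzX : ∀ t, f (bz t) = 0 := fun t => (bz t).2.2
  refine ⟨_, _, y, fun t => bz t, finrank_map_add_inf f N, rfl, hy, fun t => (bz t).2.1, hzX,
    hxi, ?_, ?_, ?_⟩
  · rw [Fintype.linearIndependent_iff]
    intro g hg
    rw [Fintype.sum_sum_type] at hg
    simp only [Sum.elim_inl, Sum.elim_inr] at hg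
    have h1 := congrArg f hg
    simp only [map_add, map_sum, map_smul, hzX, smul_zero, Finset.sum_const_zero, add_zero,
      map_zero] at h1
    have h2 := Fintype.linearIndependent_iff.1 hxi _ h1
    simp only [h2, zero_smul, Finset.sum_const_zero, zero_add] at hg
    have h3 := Fintype.linearIndependent_iff.1 hzz _ hg
    rintro (s | t)
    · exact h2 s
    · exact h3 t
  · intro x hx
    refine ⟨bx.repr ⟨f x, x, hx, rfl⟩, ?_⟩
    have := congrArg (N.map f).subtype (bx.sum_repr ⟨f x, x, hx, rfl⟩)
    rw [map_sum] at this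
    simp only [map_smul, Submodule.subtype_apply] at this
    simp only [hy']; exact this
  · rintro ⟨z, hz0, hz1, hz2⟩
    have : Nontrivial (N ⊓ LinearMap.ker f : Submodule K E) :=
      ⟨⟨⟨z, hz1, hz2⟩, 0, fun h => hz0 (congrArg Subtype.val h)⟩⟩
    exact Module.finrank_pos

lemma exists_fin_basis {E : Type*} [AddCommGroup E] [Module K E] [Module.Finite K E]
    (N : Submodule K E) :
    ∃ b : Fin (finrank K N) → E, (∀ i, b i ∈ N) ∧ LinearIndependent K b :=
  ⟨fun i => Module.finBasis K N i, fun i => (Module.finBasis K N i).2,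
    (Module.finBasis K N).linearIndependent.map' N.subtype N.ker_subtype⟩

/-- A vector orthogonal to all dependences of `P` is a combination of the coordinates of `P`. -/
lemma exists_coord (P : V → ι → K) (r : V → K)
    (h : ∀ x : V → K, ∑ u, x u • P u = 0 → x ⬝ᵥ r = 0) : ∃ γ : ι → K, ∀ u, P u ⬝ᵥ γ = r u := by
  have hmem := mem_span_of_iInf_ker_le_ker (𝕜 := K)
    (L := fun i : ι => (LinearMap.proj i).comp (Fintype.linearCombination K P))
    (K := Fintype.linearCombination K r) (by
      intro x hx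
      simp only [Submodule.mem_iInf, LinearMap.mem_ker, LinearMap.comp_apply,
        LinearMap.proj_apply, Fintype.linearCombination_apply] at hx
      rw [LinearMap.mem_ker, Fintype.linearCombination_apply]
      exact h x (funext hx))
  obtain ⟨γ, hγ⟩ := (Submodule.mem_span_range_iff_exists_fun K).1 hmem
  refine ⟨γ, fun u => ?_⟩
  have := congrArg (fun f => f (Pi.single u 1)) hγ
  simpa [Fintype.linearCombination_apply_single, dotProduct, mul_comm] using this

lemma M1_count [CharZero K] {a j l : ℕ} (S : Submodule K (V → ι → K)) (lam : Fin a → ι → K)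
    (xi : Fin j → ι → K) (yy : Fin j → V → K) (zz : Fin l → V → K)
    (hlam : LinearIndependent K lam) (hxi : LinearIndependent K xi)
    (hyz : LinearIndependent K (Sum.elim yy zz))
    (h1 : ∀ i t, tens (zz t) (lam i) ∈ S)
    (h2 : ∀ s t, tens (yy s) (xi t) + tens (yy t) (xi s) ∈ S) :
    a * l + (j + 1).choose 2 ≤ finrank K S := by
  obtain ⟨lam', hlam'⟩ := exists_dual_vec lam hlam
  obtain ⟨xi', hxi'⟩ := exists_dual_vec xi hxi
  obtain ⟨yz', hyz'⟩ := exists_dual_vec _ hyz
  have hyy : ∀ s t, yz' (.inl s) ⬝ᵥ yy t = if s = t then 1 else 0 := fun s t => by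
    simpa using hyz' (.inl s) (.inl t)
  have hyz0 : ∀ s t, yz' (.inl s) ⬝ᵥ zz t = 0 := fun s t => by
    simpa using hyz' (.inl s) (.inr t)
  have hzy0 : ∀ s t, yz' (.inr s) ⬝ᵥ yy t = 0 := fun s t => by
    simpa using hyz' (.inr s) (.inl t)
  have hzz1 : ∀ s t, yz' (.inr s) ⬝ᵥ zz t = if s = t then 1 else 0 := fun s t => by
    simpa using hyz' (.inr s) (.inr t)
  let φ : (Fin a × Fin l) ⊕ Sym2 (Fin j) → V → ι → K :=
    Sum.elim (fun x => tens (zz x.2) (lam x.1))
      (Sym2.lift ⟨fun s t => tens (yy s) (xi t) + tens (yy t) (xi s), fun _ _ => add_comm _ _⟩)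
  let ψ : (Fin a × Fin l) ⊕ Sym2 (Fin j) → V → ι → K :=
    Sum.elim (fun x => tens (yz' (.inr x.2)) (lam' x.1))
      (Sym2.lift ⟨fun s t => tens (yz' (.inl s)) (xi' t) + tens (yz' (.inl t)) (xi' s),
        fun _ _ => add_comm _ _⟩)
  have hadd : ∀ p q z : V → ι → K, pair (p + q) z = pair p z + pair q z := fun p q z => by
    rw [pair_comm, map_add, pair_comm z, pair_comm z]
  have hφ : LinearIndependent K φ := by
    refine linearIndependent_of_test φ (fun i => pair (ψ i)) ?_ ?_
    · rintro (⟨i, t⟩ | e) (⟨i', t'⟩ | e') hne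
      · simp only [φ, ψ, Sum.elim_inl, pair_tens_tens, hzz1, hlam']
        by_cases h1 : t = t'
        · have : i ≠ i' := fun h => hne (by rw [h, h1])
          simp [this]
        · simp [h1]
      · induction e' using Sym2.ind with
        | h s' t' => simp [φ, ψ, pair_tens_tens, hzy0]
      · induction e using Sym2.ind with
        | h s t => simp [φ, ψ, pair_tens_tens, hyz0, hadd]
      · induction e using Sym2.ind with
        | h s t =>
          induction e' using Sym2.ind with
          | h s' t' =>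
            have hne' : s(s, t) ≠ s(s', t') := fun h => hne (by rw [h])
            rw [Ne, Sym2.eq_iff] at hne'
            simp only [φ, ψ, Sum.elim_inr, Sym2.lift_mk, map_add, hadd, pair_tens_tens, hyy,
              hxi']
            have e1 : ¬ (s = s' ∧ t = t') := fun h => hne' (Or.inl h)
            have e2 : ¬ (s = t' ∧ t = s') := fun h => hne' (Or.inr h)
            have e3 : ((if s = s' then 1 else 0) * (if t = t' then 1 else 0) : K) = 0 := by
              by_cases h1 : s = s'
              · have : t ≠ t' := fun h => e1 ⟨h1, h⟩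
                simp [this]
              · simp [h1]
            have e4 : ((if s = t' then 1 else 0) * (if t = s' then 1 else 0) : K) = 0 := by
              by_cases h1 : s = t'
              · have : t ≠ s' := fun h => e2 ⟨h1, h⟩
                simp [this]
              · simp [h1]
            linear_combination 2 * e3 + 2 * e4
    · rintro (⟨i, t⟩ | e)
      · simp [φ, ψ, pair_tens_tens, hzz1, hlam']
      · induction e using Sym2.ind with
        | h s t =>
          simp only [φ, ψ, Sum.elim_inr, Sym2.lift_mk, map_add, hadd, pair_tens_tens, hyy,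
            hxi']
          by_cases h1 : s = t
          · subst h1; simp
          · have h2 : t ≠ s := fun h => h1 h.symm
            simp [h1, h2]
  have hmem : ∀ i, φ i ∈ S := by
    rintro (⟨i, t⟩ | e)
    · exact h1 i t
    · induction e using Sym2.ind with
      | h s t => exact h2 s t
  have h3 : LinearIndependent K (fun i => (⟨φ i, hmem i⟩ : S)) :=
    LinearIndependent.of_comp S.subtype hφ
  have h4 := h3.fintype_card_le_finrank
  simpa only [Fintype.card_sum, Fintype.card_prod, Fintype.card_fin, Sym2.card] using h4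

lemma finrank_ker_P {P : V → ι → K} (hP : Gen P) (hc : Fintype.card ι ≤ Fintype.card V) :
    finrank K (LinearMap.ker (Fintype.linearCombination K P)) + Fintype.card ι =
      Fintype.card V := by
  have h1 := LinearMap.finrank_range_add_finrank_ker (Fintype.linearCombination K P)
  have h2 : LinearMap.range (Fintype.linearCombination K P) = ⊤ := by
    obtain ⟨B, -, hB⟩ := exists_subset_card_eq (s := (univ : Finset V)) (n := Fintype.card ι)
      (by simpa using hc)
    rw [LinearMap.range_eq_top]
    intro y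
    obtain ⟨α, -, h⟩ := hP.span B hB y
    exact ⟨α, by rw [Fintype.linearCombination_apply, h]⟩
  rw [h2, finrank_top, Module.finrank_fintype_fun_eq_card,
    Module.finrank_fintype_fun_eq_card] at h1
  omega

lemma M1_rank {P X : V → ι → K} (R : Submodule K (V → K))
    (hR : ∀ r ∈ R, ∃ ν : V → K, ∀ u, r u = ∑ w, ν w * MM P X w u) {j : ℕ} (yy : Fin j → V → K)
    (hyP : ∀ s, ∑ u, yy s u • P u = 0)
    (hy : ∀ x : V → K, ∑ u, x u • P u = 0 →
      ∃ β : Fin j → K, ∑ s, β s • ∑ u, yy s u • X u = ∑ u, x u • X u) :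
    finrank K R ≤ finrank K (R.comap (Matrix.mulVecLin (Matrix.of P))) + j := by
  have h1 := finrank_map_add_inf (Matrix.mulVecLin (Matrix.of yy)) R
  have h2 : finrank K (R.map (Matrix.mulVecLin (Matrix.of yy))) ≤ j := by
    have := Submodule.finrank_le (R.map (Matrix.mulVecLin (Matrix.of yy)))
    simpa using this
  have h3 : R ⊓ LinearMap.ker (Matrix.mulVecLin (Matrix.of yy)) ≤
      (R.comap (Matrix.mulVecLin (Matrix.of P))).map (Matrix.mulVecLin (Matrix.of P)) := by
    rintro r ⟨hr, hr'⟩
    obtain ⟨ν, hν⟩ := hR r hr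
    have e5 : ∀ s, yy s ⬝ᵥ r = 0 := fun s => congrFun hr' s
    obtain ⟨γ, hγ⟩ := exists_coord P r (by
      intro x hx
      obtain ⟨β, hβ⟩ := hy x hx
      have hsub : ∀ Q : V → ι → K, ∑ u, (x - ∑ s, β s • yy s) u • Q u =
          ∑ u, x u • Q u - ∑ s, β s • ∑ u, yy s u • Q u := by
        intro Q
        rw [← Fintype.linearCombination_apply K, map_sub, map_sum]
        simp only [map_smul, Fintype.linearCombination_apply]
      have e3 := MM_bilin P X ν (x - ∑ s, β s • yy s)
      rw [hsub, hsub, hβ, hx] at e3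
      simp only [hyP, smul_zero, sum_const_zero, sub_self, dotProduct_zero, add_zero] at e3
      have e4 : (x - ∑ s, β s • yy s) ⬝ᵥ r = 0 := by
        rw [← e3, sum_comm, dotProduct]
        refine sum_congr rfl fun u _ => ?_
        rw [hν, mul_sum]
        exact sum_congr rfl fun w _ => by ring
      simpa [sub_dotProduct, sum_dotProduct, e5] using e4)
    have hγ' : Matrix.mulVecLin (Matrix.of P) γ = r := funext hγ
    exact ⟨γ, by
      show Matrix.mulVecLin (Matrix.of P) γ ∈ R
      rw [hγ']; exact hr, hγ'⟩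
  have h4 := (Submodule.finrank_mono h3).trans (Submodule.finrank_map_le _ _)
  omega

theorem M1 [CharZero K] {P : V → ι → K} (hP : Gen P) (hc : Fintype.card ι ≤ Fintype.card V)
    (X : V → ι → K) :
    ∃ (W : Finset V) (a j l : ℕ), j ≤ a ∧ j + l + Fintype.card ι = Fintype.card V ∧
      W.card ≤ a + j ∧
      ((∃ z : V → K, z ≠ 0 ∧ ∑ u, z u • P u = 0 ∧ ∑ u, z u • X u = 0) → 1 ≤ l) ∧
      a * l + (j + 1).choose 2 ≤ (touch P X W).card ∧
      (∀ u ∈ W, ∃ w ∈ W, MM P X u w ≠ 0) ∧ ((∃ u w, MM P X u w ≠ 0) → W.Nonempty) := by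
  obtain ⟨W, -, hWi, hWs⟩ := exists_basis_subset (K := K) (MM P X) univ
  have hA : ∀ v, ∃ A : V → K, (∀ w, A w ≠ 0 → w ∈ W) ∧ ∑ w, A w • MM P X w = MM P X v := by
    intro v
    have : MM P X v ∈ Submodule.span K (MM P X '' W) := by
      rw [hWs]; exact Submodule.subset_span ⟨v, by simp, rfl⟩
    exact (mem_span_image_iff (MM P X) W _).1 this
  choose A hA hAs using hA
  have hs : ∀ v x, ∑ w, A v w * MM P X w x = MM P X v x := fun v x => by
    simpa [Finset.sum_apply] using congrFun (hAs v) x
  have hRW := hWi.finrank_eq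
  generalize hRdef : Submodule.span K (MM P X '' W) = R at hRW hWs
  have hR : ∀ r, r ∈ R ↔ ∃ ν : V → K, ∀ u, r u = ∑ w, ν w * MM P X w u := by
    intro r
    rw [hWs, mem_span_image_iff]
    constructor
    · rintro ⟨ν, -, rfl⟩; exact ⟨ν, fun u => by simp [Finset.sum_apply]⟩
    · rintro ⟨ν, h⟩
      exact ⟨ν, by simp, by ext u; simp [Finset.sum_apply, h]⟩
  obtain ⟨j, l, yy, zz, hjl, hj, hyP, hzP, hzX, hxi, hyz, hy, hz⟩ :=
    exists_adapted (Fintype.linearCombination K X) (LinearMap.ker (Fintype.linearCombination K P))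
  simp only [LinearMap.mem_ker, Fintype.linearCombination_apply] at hyP hzP hzX hxi hy hz
  obtain ⟨lam, hlamR, hlam⟩ := exists_fin_basis (R.comap (Matrix.mulVecLin (Matrix.of P)))
  have hN := finrank_ker_P hP hc
  refine ⟨W, finrank K (R.comap (Matrix.mulVecLin (Matrix.of P))), j, l, ?_, by omega,
    ?_, hz, ?_, ?_, ?_⟩
  · rw [hj]
    refine Submodule.finrank_mono ?_
    rintro _ ⟨ν, hν, rfl⟩
    refine (hR _).2 ⟨ν, fun u => ?_⟩
    have h0 : ∑ u, ν u • P u = 0 := by
      rw [← Fintype.linearCombination_apply K]; exact hν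
    have := MM_bilin P X ν (Pi.single u 1)
    simp only [Pi.single_apply, mul_ite, mul_one, mul_zero, ite_mul, zero_mul, sum_ite_eq',
      mem_univ, if_true, ite_smul, one_smul, zero_smul, h0, zero_dotProduct, zero_add] at this
    rw [this, dotProduct_comm, Fintype.linearCombination_apply]; rfl
  · rw [← hRW]
    exact M1_rank R (fun r hr => (hR r).1 hr) yy hyP hy
  · obtain ⟨S, hS, hS'⟩ := exists_gens hP X W A hA hs
    refine le_trans (M1_count S lam _ yy zz hlam hxi hyz ?_ ?_) hS
    · intro i t
      refine hS' _ fun Y D hD hY hM => ?_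
      obtain ⟨ν, hν⟩ := (hR _).1 (hlamR i)
      exact der_type1 hD hY hM (lam i) ν (zz t) hν (hzP t) (hzX t)
    · intro s t
      exact hS' _ fun Y D hD hY hM => der_type2 hD hY hM (yy s) (yy t) (hyP s) (hyP t)
  · intro u hu
    by_contra hno
    push Not at hno
    have h0 : MM P X u = 0 := by
      ext v
      rw [MM_comm, ← hs v u]
      refine sum_eq_zero fun w _ => ?_
      by_cases h : A v w = 0
      · simp [h]
      · rw [MM_comm, hno w (hA v w h), mul_zero]
    have := hWi (Pi.single u 1) (fun g hg => by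
      by_contra hc
      have : g ≠ u := fun h => hc (h ▸ hu)
      simp [this] at hg) (by
        rw [sum_eq_single u]
        · simp [h0]
        · intro b _ hb; simp [hb]
        · simp)
    simpa using congrFun this u
  · rintro ⟨u, w, h⟩
    by_contra hno
    rw [not_nonempty_iff_eq_empty] at hno
    apply h
    rw [← hs u w]
    refine sum_eq_zero fun x _ => ?_
    by_cases h : A u x = 0
    · simp [h]
    · have := hA u x h; simp [hno] at this

end Pool.Agent.P.MP_2d96df_co.H35
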