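import Pool.Agent.P.MP_2d96df_co.H35.Middle

/-! The main estimate near the threshold dimension. -/

namespace Pool.Agent.P.MP_2d96df_co.H35

open Finset Filter Topology
open scoped Classical

set_option linter.unusedSectionVars false
set_option maxHeartbeats 400000

lemma tendsto_exp_lin {a : ℝ} (ha : 0 < a) (b : ℝ) :
    Tendsto (fun T : ℝ => Real.exp (b - a * T)) atTop (𝓝 0) := by
  refine Real.tendsto_exp_atBot.comp ?_
  simp only [sub_eq_add_neg]
  exact tendsto_atBot_add_const_left _ _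
    (tendsto_neg_atTop_atBot.comp (tendsto_id.const_mul_atTop ha))

lemma tendsto_mul_exp_lin {a : ℝ} (ha : 0 < a) (b C : ℝ) :
    Tendsto (fun T : ℝ => C * T * Real.exp (b - a * T)) atTop (𝓝 0) := by
  have h := ((Real.tendsto_pow_mul_exp_neg_atTop_nhds_zero 1).comp
    (tendsto_id.const_mul_atTop ha)).const_mul (C * Real.exp b / a)
  rw [mul_zero] at h
  refine h.congr fun T => ?_
  simp only [Function.comp, id, pow_one, sub_eq_add_neg, Real.exp_add]
  field_simp

/-- The graph has at least as many edges as rigidity requires. -/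
def Enough {V : Type*} [Fintype V] (c : ℕ) (G : Finset (Sym2 V)) : Prop :=
  (Fintype.card V + 1).choose 2 ≤ G.card + Fintype.card V + (Fintype.card V - c + 1).choose 2

variable {K : Type*} [Field K] [CharZero K] {V : Type*} [Fintype V] [DecidableEq V]
  {ι : Type*} [Fintype ι] [DecidableEq ι]

lemma Pr_stepB {P : V → ι → K} (hP : Gen P) {p ξ δ ζ l n c : ℝ} (hn : n = Fintype.card V)
    (hc : c = Fintype.card ι) (hp : 0 < p) (hp1 : p < 1) (hξ : 0 < ξ) (hξ1 : ξ ≤ 1 / 100)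
    (hδ : δ ≤ ξ) (hδζ : δ ≤ ζ) (hc1 : 1 ≤ c) (hcn : c ≤ n) (hc2 : c ≤ 2 * p * n) (hl : 2 * l < c)
    (hl0 : 0 ≤ l) (hT : 1 ≤ ξ * n ^ 2) (Good : Finset (Sym2 V) → Prop)
    (hQ : ∀ G, Good G → QR p ξ G ∧ Sparse (ζ * n) l G ∧ MinDeg (c + 2 * l + 1) G ∧
      ∀ U : Finset V, δ * n ≤ U.card → U.card ≤ (1 - δ) * n → ¬ Cov P U G)
    (hβ : ∀ G, Good G → ∀ X : V → ι → K,
      (∀ e, pair X (rho P e) = 0 ↔ rho P e ∈ Sp P (G ∩ pr univ univ)) →
      c * (univ : Finset V).card ≤ 2 * (G ∩ pr univ univ).card →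
      (∀ Y ⊆ univ, Clq P X Y →
        (∀ v ∈ univ \ Y, (Y.filter fun b => s(v, b) ∈ G).card ≤ Fintype.card ι) →
        Y.card + ζ * n ≤ (univ : Finset V).card) →
      (1 - p) * (univ : Finset V).card * (p * (univ : Finset V).card - c) / (2 * p) +
        4 * ξ * n ^ 2 ≤ (supp P X univ).card)
    (j : ℕ) (hj : ∀ G : Finset (Sym2 V), j ≤ G.card → Enough (Fintype.card ι) G) :
    ξ * Pr (pr univ univ) p (fun G => ¬ Rigid P G ∧ j ≤ G.card) ≤
      Pr (pr univ univ) p (fun G => ¬ Good G) +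
        Pr (pr (univ : Finset V) univ) p (fun G => G.card = j - 1) := by
  have hn0 : 0 < n := by linarith
  have hc1' : 1 ≤ Fintype.card ι := by rw [hc] at hc1; exact_mod_cast hc1
  have hcn' : Fintype.card ι ≤ Fintype.card V := by rw [hc, hn] at hcn; exact_mod_cast hcn
  have hN : (2 * (pr (univ : Finset V) univ).card + n : ℝ) = n * n := by
    rw [hn]; exact_mod_cast card_pr_self (univ : Finset V)
  have h := stepB hp.le hp1.le P j Good (c * ((1 - δ) * n) / 2)
    (p * (pr (univ : Finset V) univ).card - ξ * p * n ^ 2)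
    ((1 - p) * n * (p * n - c) / (2 * p) + 4 * ξ * n ^ 2)
    ((1 - p) * (c * n / 2) * (1 - 2 * ξ) / p)
    (by have : 0 ≤ 1 - p := by linarith
        have : 0 ≤ 1 - 2 * ξ := by linarith
        positivity)
    (by
      rw [le_div_iff₀ hp]
      have e1 : (1 - p) * n * (p * n - c) / (2 * p) * p = (1 - p) * n * (p * n - c) / 2 := by
        field_simp
      have e2 : ξ * (c * n) ≤ ξ * (2 * p * n * n) :=
        mul_le_mul_of_nonneg_left (mul_le_mul_of_nonneg_right hc2 hn0.le) hξ.le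
      have e3 : 0 ≤ p * (ξ * (c * n)) := by positivity
      have e4 : p * (ξ * p * n ^ 2) ≤ ξ * p * n ^ 2 := mul_le_of_le_one_left (by positivity) hp1.le
      have e5 := mul_le_mul_of_nonneg_left hT hp.le
      have e6 : p * (1 - p) * (2 * (pr (univ : Finset V) univ).card) ≤ p * (1 - p) * (n * n) :=
        mul_le_mul_of_nonneg_left (by linarith) (mul_nonneg hp.le (by linarith))
      linarith)
    (by
      intro G hG hg hr hjG
      obtain ⟨q1, q2, q3, q4⟩ := hQ G hg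
      have hGi : G ∩ pr univ univ = G := inter_eq_left.2 hG
      refine ⟨?_, ?_, fun X hX => ?_⟩
      · obtain ⟨e, he, hC⟩ := exists_InC hP hc1' hcn' (fun e he => mem_pr_univ.1 (hG he))
          (hj G hjG) hr
        have hcov := cov_self P G
        have hall : ∀ v ∈ univ.filter fun v => ∃ w, InC P G s(v, w), ∃ w, InC P G s(v, w) :=
          fun v hv => (mem_filter.1 hv).2
        have hpos : 0 < (univ.filter fun v => ∃ w, InC P G s(v, w)).card := by
          induction e using Sym2.ind with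
          | h a b => exact card_pos.2 ⟨a, mem_filter.2 ⟨mem_univ _, b, hC⟩⟩
        generalize (univ.filter fun v => ∃ w, InC P G s(v, w)) = U at hcov hall hpos
        have e1 := (Nat.cast_le (α := ℝ)).2
          ((card_C hP _ U hcov).trans (Nat.mul_le_mul_left 2 (card_filter_le _ _)))
        have e2 := (Nat.cast_le (α := ℝ)).2 (card_C hP _ U hall)
        have e3 : (0 : ℝ) < U.card := by exact_mod_cast hpos
        push_cast at e1 e2
        rw [← hc] at e1 e2
        have e4 : ζ * n < U.card := by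
          by_contra hle
          have := q2 U (not_lt.1 hle)
          nlinarith
        have e5 : (1 - δ) * n < U.card := by
          by_contra hle
          exact q4 U (by nlinarith) (not_lt.1 hle) hcov
        nlinarith
      · have := (abs_le.1 (q1 univ univ)).1
        rw [hGi, ← hn] at this
        linarith
      · have := hβ G hg X (by rw [hGi]; exact hX) (by
          have e1 := (Nat.cast_le (α := ℝ)).2 (sum_deg_le G univ)
          have e2 := sum_le_sum (s := univ) fun v _ => q3 v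
          rw [sum_const, nsmul_eq_mul] at e2
          push_cast at e1
          nlinarith [Nat.cast_nonneg (α := ℝ) (univ : Finset V).card]) (by
          intro Y _ hq hout
          rw [card_univ]
          refine far_clique q2 q3 Y ?_ fun v hv => by rw [hc]; exact_mod_cast hout v hv
          rintro rfl
          refine hr fun e => (hX e).1 ?_
          induction e using Sym2.ind with
          | h a b => rw [pair_rho]; exact hq a (mem_univ _) b (mem_univ _))
        rwa [card_univ, ← hn] at this)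
  have h1 := Pr_le_add (Ω := pr univ univ) hp.le hp1.le (A := fun G => ¬ Rigid P G ∧ j ≤ G.card)
    (B := fun G => (¬ Rigid P G ∧ j ≤ G.card) ∧ Good G) (C := fun G => ¬ Good G)
    (fun G _ h => by tauto)
  have h2 := Pr_le_add (Ω := pr univ univ) hp.le hp1.le
    (A := fun G => ¬ Rigid P G ∧ j ≤ G.card + 1)
    (B := fun G => ¬ Rigid P G ∧ j ≤ G.card) (C := fun G => G.card = j - 1)
    (fun G _ h => by
      by_cases h' : j ≤ G.card
      · exact Or.inl ⟨h.1, h'⟩
      · right; omega)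
  have h3 := Pr_nonneg (Ω := pr univ univ) hp.le hp1.le
    (fun G => (¬ Rigid P G ∧ j ≤ G.card) ∧ Good G)
  have h4 := Pr_nonneg (Ω := pr univ univ) hp.le hp1.le
    (fun G => ¬ Rigid P G ∧ j ≤ G.card + 1)
  have h5 := Pr_nonneg (Ω := pr (univ : Finset V) univ) hp.le hp1.le (fun G => G.card = j - 1)
  generalize Pr (pr univ univ) p (fun G => (¬ Rigid P G ∧ j ≤ G.card) ∧ Good G) = x at *
  generalize Pr (pr univ univ) p (fun G => ¬ Rigid P G ∧ j ≤ G.card + 1) = y at *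
  have h6 : (1 - δ) * x ≤ (1 - 2 * ξ) * y := by
    refine le_of_mul_le_mul_left (le_trans (le_of_eq ?_) (h.trans (le_of_eq ?_)))
      (show 0 < (1 - p) * (c * n / 2) from mul_pos (by linarith) (by positivity))
    · ring
    · field_simp
  have h7 : x ≤ (1 - ξ) * y := by
    refine le_of_mul_le_mul_left ?_ (show 0 < 1 - ξ by linarith)
    nlinarith [mul_nonneg (sq_nonneg ξ) h4]
  have h8 := mul_le_mul_of_nonneg_left h2 (show 0 ≤ 1 - ξ by linarith)
  nlinarith

lemma le_exp_of_log {ε T n : ℝ} (hε : 0 < ε) (hn : 1 ≤ n)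
    (hlog : (1 + ε) * (2 / (1 - Real.log 2)) * Real.log n ≤ T) : n ≤ Real.exp T := by
  rw [← Real.log_le_iff_le_exp (by linarith)]
  have l1 := Real.log_two_gt_d9
  have l2 := Real.log_two_lt_d9
  have h1 : 1 ≤ 2 / (1 - Real.log 2) := by rw [le_div_iff₀ (by linarith)]; linarith
  have h2 : 1 ≤ (1 + ε) * (2 / (1 - Real.log 2)) := by nlinarith
  nlinarith [Real.log_nonneg hn]

lemma choose_succ_two (n : ℕ) : (n + 1).choose 2 = n + n.choose 2 := by
  rw [Nat.choose_succ_succ, Nat.choose_one_right]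

set_option maxHeartbeats 2000000 in
theorem middle (ε : ℝ) (hε : 0 < ε) (hε1 : ε ≤ 1) : ∃ ξ : ℝ, 0 < ξ ∧ ξ ≤ 1 / 6400 ∧
    ∀ η : ℝ, 0 < η → ∃ T0 : ℝ,
    ∀ (K V ι : Type) [Field K] [CharZero K] [Fintype V] [DecidableEq V] [Fintype ι]
      [DecidableEq ι] (P : V → ι → K), Gen P → ∀ (p n c : ℝ), n = Fintype.card V →
      c = Fintype.card ι → 0 < p → p ≤ 1599 / 1600 → 1 ≤ c → c ≤ n → T0 ≤ p * n →
      (1 + ε) * (2 / (1 - Real.log 2)) * Real.log n ≤ p * n →
      |c * n - c ^ 2 / 2 - p * n ^ 2 / 2| ≤ ξ * p * n ^ 2 →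
      Pr (pr univ univ) p (fun G => ¬ Rigid P G ∧ Enough (Fintype.card ι) G) ≤ η := by
  obtain ⟨ζ, hζd⟩ : ∃ ζ, ζ = 2 * Real.exp (-(3 / (ε / 400))) := ⟨_, rfl⟩
  have hζ : 0 < ζ := by rw [hζd]; positivity
  have hζ1 : ζ ≤ 1 := by
    rw [hζd, Real.exp_neg, ← div_eq_mul_inv, div_le_one (Real.exp_pos _)]
    have : 1 ≤ 3 / (ε / 400) := by rw [le_div_iff₀ (by positivity)]; linarith
    linarith [Real.add_one_le_exp (3 / (ε / 400))]
  obtain ⟨ξB, γB, μB, hξB, hξB1, hγB, hγB1, -, hμB, HB⟩ := beta ζ hζ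
  obtain ⟨ξA, γA, μA, hξA, hξA1, hγA, hγA1, -, hμA, HA⟩ := beta (min ξB ζ) (lt_min hξB hζ)
  obtain ⟨ξ, hξ, hξa, hξb, hξc, hξd⟩ :
      ∃ ξ : ℝ, 0 < ξ ∧ ξ ≤ 1 / 6400 ∧ ξ ≤ ε / 100 ∧ ξ ≤ ξA ∧ ξ ≤ ξB :=
    ⟨min (min (1 / 6400) (ε / 100)) (min ξA ξB), lt_min (lt_min (by norm_num) (by positivity))
      (lt_min hξA hξB), (min_le_left _ _).trans (min_le_left _ _),
      (min_le_left _ _).trans (min_le_right _ _), (min_le_right _ _).trans (min_le_left _ _),
      (min_le_right _ _).trans (min_le_right _ _)⟩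
  refine ⟨ξ, hξ, hξa, fun η hη => ?_⟩
  obtain ⟨S, hS1, hS⟩ : ∃ S : ℝ, 1 ≤ S ∧ 20000 / S ≤ ξB * η / 2 :=
    ⟨max 1 (40000 / (ξB * η)), le_max_left _ _, by
      rw [div_le_iff₀ (lt_of_lt_of_le one_pos (le_max_left _ _))]
      have := mul_le_mul_of_nonneg_left (le_max_right 1 (40000 / (ξB * η)))
        (show 0 ≤ ξB * η / 2 by positivity)
      refine le_trans (le_of_eq ?_) this
      field_simp; norm_num⟩
  have hF : Tendsto (fun T : ℝ => (2 * Real.exp (3 - ξB ^ 2 / 4 * T) + Real.exp (3 - γB / 4 * T)) +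
      (2 * Real.exp (0 - 1 * T) + ((Real.exp (1 - ε / 32 * T) +
        100 / ε * T * Real.exp (1 - 1 / 40000 * T)) +
      (2 * Real.exp (3 - ξA ^ 2 / 4 * T) + Real.exp (3 - γA / 4 * T)) / ξA))) atTop (𝓝 0) := by
    have := (((tendsto_exp_lin (show 0 < ξB ^ 2 / 4 by positivity) 3).const_mul 2).add
      (tendsto_exp_lin (show 0 < γB / 4 by positivity) 3)).add
      (((tendsto_exp_lin one_pos 0).const_mul 2).add
      (((tendsto_exp_lin (show 0 < ε / 32 by positivity) 1).add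
      (tendsto_mul_exp_lin (show (0 : ℝ) < 1 / 40000 by norm_num) 1 (100 / ε))).add
      ((((tendsto_exp_lin (show 0 < ξA ^ 2 / 4 by positivity) 3).const_mul 2).add
      (tendsto_exp_lin (show 0 < γA / 4 by positivity) 3)).div_const ξA)))
    simpa only [mul_zero, add_zero, zero_div] using this
  have hev : ∀ {a : ℝ} (b : ℝ), 0 < a → ∀ᶠ T : ℝ in atTop, b ≤ a * T := fun b ha =>
    (tendsto_id.const_mul_atTop ha).eventually_ge_atTop b
  obtain ⟨T0, hT0⟩ := eventually_atTop.1 ((hF.eventually_le_const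
    (show 0 < ξB * η / 2 by positivity)).and ((hev 3 (show 0 < ξB ^ 2 / 4 by positivity)).and
    ((hev 3 (show 0 < γB / 4 by positivity)).and ((hev 3 (show 0 < ξA ^ 2 / 4 by positivity)).and
    ((hev 3 (show 0 < γA / 4 by positivity)).and ((hev 1000 hε).and ((hev 1 hξ).and
    (eventually_ge_atTop (S ^ 2)))))))))
  refine ⟨T0, ?_⟩
  intro K V ι _ _ _ _ _ _ P hP p n c hn hc hp hp1 hc1 hcn hT hlog hdim
  obtain ⟨t1, t2, t3, t4, t5, t6, t7, t8⟩ := hT0 _ hT
  obtain ⟨μ, hμ, rfl⟩ : ∃ μ : ℝ, 0 < μ ∧ μ ^ 10 = p :=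
    ⟨p ^ ((10 : ℕ) : ℝ)⁻¹, by positivity, Real.rpow_inv_natCast_pow hp.le (by norm_num)⟩
  have hn1 : 1 ≤ n := by linarith
  have hn1' : 1 ≤ Fintype.card V := by rw [hn] at hn1; exact_mod_cast hn1
  have hp1' : μ ^ 10 ≤ 1 := by linarith
  obtain ⟨d1, d2, d3, d4, d5⟩ := dim_facts hp hp1 hξa (by linarith) (by linarith) hcn hdim
  have hT0' : 0 < μ ^ 10 * n := by positivity
  have hmono : ∀ x : ℝ, ξ ≤ x → 1 ≤ x * (μ ^ 10 * n) ∧ 1 ≤ x * μ ^ 10 * n ^ 2 ∧ 1 ≤ x * n ^ 2 ∧
      |c * n - c ^ 2 / 2 - μ ^ 10 * n ^ 2 / 2| ≤ x * μ ^ 10 * n ^ 2 := by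
    intro x hx
    have a1 : 1 ≤ x * (μ ^ 10 * n) := t7.trans (mul_le_mul_of_nonneg_right hx hT0'.le)
    have a2 : 1 ≤ x * μ ^ 10 * n ^ 2 := by
      linarith [mul_le_mul a1 hn1 zero_le_one (zero_le_one.trans a1)]
    refine ⟨a1, a2, ?_, hdim.trans (by gcongr)⟩
    have : x * μ ^ 10 * n ^ 2 ≤ x * 1 * n ^ 2 := by
      have : 0 ≤ x := by linarith
      gcongr
    linarith
  obtain ⟨a1, a2, -, a4⟩ := hmono ξA hξc
  obtain ⟨b1, -, b3, b4⟩ := hmono ξB hξd
  have hc1' : 1 ≤ Fintype.card ι := by rw [hc] at hc1; exact_mod_cast hc1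
  have hch : Fintype.card V + (Fintype.card V - Fintype.card ι + 1).choose 2 ≤
      (Fintype.card V + 1).choose 2 := by
    have hcn' : Fintype.card ι ≤ Fintype.card V := by rw [hc, hn] at hcn; exact_mod_cast hcn
    have := Nat.choose_le_choose 2 (show Fintype.card V - Fintype.card ι + 1 ≤ Fintype.card V by
      omega)
    rw [choose_succ_two (Fintype.card V)]; omega
  obtain ⟨j, hj⟩ := Nat.exists_eq_add_of_le hch
  have hB := Pr_stepB hP hn hc hp (by linarith) hξB hξB1 (min_le_left ξB ζ) (min_le_right _ _)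
    hc1 hcn d1 (l := ε / 400 * (μ ^ 10 * n))
    (by linarith [mul_le_mul_of_nonneg_right hε1 hT0'.le]) (by positivity) b3
    (fun G => GoodQ P μ ξB γB μB n c G ∧ Sparse (ζ * n) (ε / 400 * (μ ^ 10 * n)) G ∧
      MinDeg (c + 2 * (ε / 400 * (μ ^ 10 * n)) + 1) G ∧
      ∀ U : Finset V, min ξB ζ * n ≤ U.card → U.card ≤ (1 - min ξB ζ) * n → ¬ Cov P U G)
    (fun G h => ⟨h.1.1, h.2⟩)
    (fun G h X hX h1 h2 => HB K V ι P hP μ n c hn hc hμ hp1 hc1 hcn b1 b4 G h.1.1 h.1.2 univ X hX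
      (by rw [card_univ, ← hn]; exact mul_le_of_le_one_left (by linarith) hζ1) h1 (Or.inr h2)) j
    (fun G h => by unfold Enough; omega)
  have g1 := Pr_not_GoodQ P hn hc hμ hp1' hξB (by linarith) hγB hγB1 hμB hcn d1 hn1' t2 t3
  have g2 := Pr_not_GoodQ P hn hc hμ hp1' hξA (by linarith) hγA hγA1 hμA hcn d1 hn1' t4 t5
  have g3 := Pr_not_Sparse (V := V) hp.le hp1' (show 0 < ε / 400 by positivity) hn
    (le_exp_of_log hε hn1 hlog)
  have g4 := mindeg_bound hn hε hε1 hp hp1' hξb hn1 t6 hlog d4 d5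
  have g5 := point_bound hn hc hp hp1' hn1 d3 hS1 t8 (j - 1) (by omega)
  rw [← hζd] at g3
  have g6 : Pr (pr univ univ) (μ ^ 10) (fun G => ¬ ∀ U : Finset V, min ξB ζ * n ≤ U.card →
      U.card ≤ (1 - min ξB ζ) * n → ¬ Cov P U G) ≤
      (2 * Real.exp (3 - ξA ^ 2 / 4 * (μ ^ 10 * n)) + Real.exp (3 - γA / 4 * (μ ^ 10 * n))) /
        ξA := by
    refine (Pr_le_sum hp.le hp1' (univ.filter fun U : Finset V => min ξB ζ * n ≤ U.card ∧
      U.card ≤ (1 - min ξB ζ) * n) (B := fun U => Cov P U) fun G _ h => ?_).trans ?_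
    · push Not at h
      obtain ⟨U, h1, h2, h3⟩ := h
      exact ⟨U, mem_filter.2 ⟨mem_univ _, h1, h2⟩, h3⟩
    · rw [le_div_iff₀ hξA, sum_mul]
      refine le_trans (sum_le_sum (g := fun _ => Pr (pr univ univ) (μ ^ 10)
        (fun G => ¬ GoodQ P μ ξA γA μA n c G)) fun U hU => ?_) (le_trans ?_ g2)
      · rw [mul_comm]
        exact Pr_cov hP hn hc hp hp1' hξA hξA1 a2 U _ (fun G h => h.1)
          (fun G h h1 X hX => HA K V ι P hP μ n c hn hc hμ hp1 hc1 hcn a1 a4 G h.1 h.2 U X hX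
            (mem_filter.1 hU).2.1 h1 (Or.inl (mem_filter.1 hU).2.2))
      · rw [sum_const, nsmul_eq_mul]
        refine mul_le_mul_of_nonneg_right ?_ (Pr_nonneg hp.le hp1' _)
        have := card_filter_le (univ : Finset (Finset V)) fun U : Finset V =>
          min ξB ζ * n ≤ U.card ∧ U.card ≤ (1 - min ξB ζ) * n
        rw [card_univ, Fintype.card_finset] at this
        exact_mod_cast this
  have g7 : Pr (pr univ univ) (μ ^ 10) (fun G => ¬ GoodQ P μ ξB γB μB n c G) ≤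
      2 ^ Fintype.card V * Pr (pr univ univ) (μ ^ 10) (fun G => ¬ GoodQ P μ ξB γB μB n c G) :=
    le_mul_of_one_le_left (Pr_nonneg hp.le hp1' _) (one_le_pow₀ one_le_two)
  have g8 := (Pr_le_add (Ω := pr univ univ) hp.le hp1' (fun G _ h => not_and_or.1
    (show ¬ (GoodQ P μ ξB γB μB n c G ∧ Sparse (ζ * n) (ε / 400 * (μ ^ 10 * n)) G ∧
      MinDeg (c + 2 * (ε / 400 * (μ ^ 10 * n)) + 1) G ∧
      ∀ U : Finset V, min ξB ζ * n ≤ U.card → U.card ≤ (1 - min ξB ζ) * n → ¬ Cov P U G)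
      from h))).trans
    (add_le_add (g7.trans g1) ((Pr_le_add hp.le hp1' (fun G _ h => not_and_or.1 h)).trans
    (add_le_add g3 ((Pr_le_add hp.le hp1' (fun G _ h => not_and_or.1 h)).trans
    (add_le_add g4 g6)))))
  rw [zero_sub, one_mul] at t1
  have g9 := Pr_mono (Ω := pr univ univ) hp.le hp1'
    (A := fun G => ¬ Rigid P G ∧ Enough (Fintype.card ι) G)
    (B := fun G => ¬ Rigid P G ∧ j ≤ G.card) (fun G _ h => ⟨h.1, by
      have := h.2; unfold Enough at this; omega⟩)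
  refine g9.trans (le_of_mul_le_mul_left ?_ hξB)
  linarith

end Pool.Agent.P.MP_2d96df_co.H35
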