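import Pool.Agent.P.MP_2d96df_co.H35.Dense

/-! The main estimate for all densities and dimensions, in the homogeneous model. -/

namespace Pool.Agent.P.MP_2d96df_co.H35

open Finset Filter Topology
open scoped Classical

set_option linter.unusedSectionVars false
set_option maxHeartbeats 400000

variable {K : Type*} [Field K] [CharZero K] {V : Type*} [Fintype V] [DecidableEq V]

/-- The first `c` coordinates. -/
def trunc (P : V → ℕ → K) (c : ℕ) : V → Fin c → K := fun u i => P u i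

lemma Gen.trunc {P : V → ℕ → K} (hP : Gen P) (c : ℕ) : Gen (trunc P c) := by
  intro Y
  obtain ⟨D, hD, h⟩ := hP (fun u i => if h : i < c then Y u ⟨i, h⟩ else 0)
  exact ⟨D, hD, fun u i => by simp [H35.trunc, h]⟩

lemma dot_ext (a : ℕ → K) {c c' : ℕ} (h : c ≤ c') (b : Fin c → K) :
    (fun i : Fin c' => a i) ⬝ᵥ (fun i : Fin c' => if h : i.1 < c then b ⟨i, h⟩ else 0) =
      (fun i : Fin c => a i) ⬝ᵥ b := by
  have h1 := Fin.sum_univ_eq_sum_range (fun i => a i * if h : i < c then b ⟨i, h⟩ else 0) c'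
  have h2 := Fin.sum_univ_eq_sum_range (fun i => a i * if h : i < c then b ⟨i, h⟩ else 0) c
  simp only [Fin.is_lt, dite_true, Fin.eta] at h2
  rw [dotProduct, dotProduct, h1, h2]
  exact (sum_subset (range_mono h) fun x _ hx => by simp [mem_range.not.1 hx]).symm

lemma Rigid.of_le {P : V → ℕ → K} {c c' : ℕ} (h : c ≤ c') {G : Finset (Sym2 V)}
    (hr : Rigid (trunc P c') G) : Rigid (trunc P c) G := by
  obtain ⟨X, hX⟩ := exists_generic_flex (trunc P c) G
  have key : ∀ e, pair (fun u (i : Fin c') => if h : i.1 < c then X u ⟨i, h⟩ else 0)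
      (rho (trunc P c') e) = pair X (rho (trunc P c) e) := by
    intro e
    induction e using Sym2.ind with
    | h u w =>
      rw [pair_rho, pair_rho, MM, MM, dotProduct_comm _ (trunc P c' w),
        dotProduct_comm _ (trunc P c w)]
      exact congrArg₂ _ (dot_ext _ h _) (dot_ext _ h _)
  intro e
  rw [← hX, ← key]
  exact pair_eq_zero_of_mem_Sp (fun g hg => by rw [key, hX]; exact rho_mem_Sp _ hg) (hr e)

lemma enough_iff {c : ℕ} (hc : c ≤ Fintype.card V) (G : Finset (Sym2 V)) :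
    Enough c G ↔ (c * Fintype.card V - c ^ 2 / 2 + c / 2 - Fintype.card V : ℝ) ≤ G.card := by
  obtain ⟨k, hk⟩ := Nat.exists_eq_add_of_le hc
  have h := choose_diff c k
  unfold Enough
  rw [hk, Nat.add_sub_cancel_left]
  constructor
  · intro h1
    have h2 := (Nat.cast_le (α := ℝ)).2
      (show 2 * c * k + c * c + c ≤ 2 * (G.card + (c + k)) by omega)
    push_cast at h2 ⊢
    linarith
  · intro h1
    have h2 : 2 * c * k + c * c + c ≤ 2 * (G.card + (c + k)) := by
      rw [← Nat.cast_le (α := ℝ)]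
      push_cast at h1 ⊢
      linarith
    omega

theorem main_abs (ε : ℝ) (hε : 0 < ε) (η : ℝ) (hη : 0 < η) : ∃ n0 : ℝ,
    ∀ (K V : Type) [Field K] [CharZero K] [Fintype V] [DecidableEq V] (P : V → ℕ → K), Gen P →
      ∀ p : ℝ, p ≤ 1 → n0 ≤ Fintype.card V →
      (1 + ε) * (2 / (1 - Real.log 2)) * Real.log (Fintype.card V) ≤ p * Fintype.card V →
      ∀ c : ℕ, 1 ≤ c → c ≤ Fintype.card V →
      Pr (pr univ univ) p (fun G => ¬ Rigid (trunc P c) G ∧ Enough c G) ≤ η := by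
  obtain ⟨ξ, hξ, hξ1, H⟩ := middle (min ε 1) (lt_min hε one_pos) (min_le_right _ _)
  obtain ⟨T0, HT⟩ := H (η / 2) (by positivity)
  obtain ⟨n1, Hd⟩ := dense η hη
  obtain ⟨T1, hT1⟩ := eventually_atTop.1 (((by
    simpa only [mul_zero] using (tendsto_exp_lin (show 0 < ξ ^ 2 / 64 by positivity) 0).const_mul 2 :
      Tendsto (fun T : ℝ => 2 * Real.exp (0 - ξ ^ 2 / 64 * T)) atTop (𝓝 0)).eventually_le_const
      (show 0 < η / 2 by positivity)).and ((eventually_ge_atTop T0).and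
      ((tendsto_id.const_mul_atTop hξ).eventually_ge_atTop 2)))
  refine ⟨max (max 1 n1) (Real.exp T1), ?_⟩
  intro K V _ _ _ _ P hP p hp1 hn hlog c hc1 hcn
  obtain ⟨n, hnd⟩ : ∃ n : ℝ, n = Fintype.card V := ⟨_, rfl⟩
  rw [← hnd] at hlog
  rw [← hnd, max_le_iff, max_le_iff] at hn
  obtain ⟨⟨hn1, hn2⟩, hn3⟩ := hn
  by_cases hp : 1599 / 1600 ≤ p
  · simpa using Hd K V (Fin c) _ (hP.trunc c) p hp hp1 (by simpa using hc1) (by simpa using hcn)
      (hnd ▸ hn2)
  replace hp := (not_le.1 hp).le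
  obtain ⟨t1, t2, t3⟩ := hT1 (p * n) (Real.exp_le_exp.1 (hn3.trans (le_exp_of_log hε hn1 hlog)))
  simp only [id] at t3
  have hp0 : 0 < p := by
    by_contra h
    have := mul_nonneg hξ.le (mul_nonneg (neg_nonneg.2 (not_lt.1 h)) (show 0 ≤ n by linarith))
    linarith
  have hlog' : (1 + min ε 1) * (2 / (1 - Real.log 2)) * Real.log n ≤ p * n := by
    refine le_trans (mul_le_mul_of_nonneg_right (mul_le_mul_of_nonneg_right
      (by linarith [min_le_left ε 1]) ?_) (Real.log_nonneg hn1)) hlog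
    have := Real.log_two_lt_d9
    exact div_nonneg (by norm_num) (by linarith)
  have hmid : ∀ c : ℕ, 1 ≤ c → c ≤ Fintype.card V →
      |c * n - c ^ 2 / 2 - p * n ^ 2 / 2| ≤ ξ * p * n ^ 2 →
      Pr (pr univ univ) p (fun G => ¬ Rigid (trunc P c) G ∧ Enough c G) ≤ η / 2 := by
    intro c h1 h2 h3
    simpa using HT K V (Fin c) _ (hP.trunc c) p n c hnd (by simp) hp0 hp (by exact_mod_cast h1)
      (by rw [hnd]; exact_mod_cast h2) t2 hlog' h3
  have hN : (2 * (pr (univ : Finset V) univ).card + n : ℝ) = n * n := by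
    rw [hnd]; exact_mod_cast card_pr_self (univ : Finset V)
  have hN' : p * (pr (univ : Finset V) univ).card = p * n ^ 2 / 2 - p * n / 2 := by
    linear_combination (p / 2) * hN
  have hpn : 0 ≤ p * n ∧ p * n ≤ n := ⟨by positivity, mul_le_of_le_one_left (by linarith) hp1⟩
  have hnn : 2 * n ≤ ξ * p * n ^ 2 := by
    linarith [mul_le_mul_of_nonneg_right t3 (show 0 ≤ n by linarith)]
  have hdev : Pr (pr (univ : Finset V) univ) p (fun G => ξ / 4 * (p * n ^ 2) <
      |((G ∩ pr univ univ).card : ℝ) - p * (pr (univ : Finset V) univ).card|) ≤ η / 2 := by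
    refine (Pr_dev hp0.le hp1 subset_rfl (by positivity) (by linarith)
      (by linarith [show 0 ≤ p * n ^ 2 by positivity])).trans
      (le_trans (mul_le_mul_of_nonneg_left (Real.exp_le_exp.2 ?_) (by norm_num)) t1)
    have := mul_le_mul_of_nonneg_left hn1 (show 0 ≤ ξ ^ 2 / 64 * (p * n) by positivity)
    linarith
  rcases lt_or_ge (ξ * p * n ^ 2) (c * n - c ^ 2 / 2 - p * n ^ 2 / 2) with h | h
  · refine (Pr_mono hp0.le hp1 fun G hG hh => ?_).trans (hdev.trans (by linarith))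
    have := (enough_iff hcn G).1 hh.2
    rw [inter_eq_left.2 hG, lt_abs]
    rw [← hnd] at this
    left
    have : (0 : ℝ) ≤ c := by positivity
    linarith
  rcases le_or_gt (-(ξ * p * n ^ 2)) (c * n - c ^ 2 / 2 - p * n ^ 2 / 2) with h' | h'
  · exact (hmid c hc1 hcn (abs_le.2 ⟨h', h⟩)).trans (by linarith)
  have hex : ∃ c' : ℕ, c ≤ c' ∧ -(ξ * p * n ^ 2) ≤ c' * n - c' ^ 2 / 2 - p * n ^ 2 / 2 :=
    ⟨Fintype.card V, hcn, by
      rw [← hnd]
      have := mul_le_mul_of_nonneg_right hp1 (sq_nonneg n)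
      linarith⟩
  obtain ⟨s1, s2⟩ := Nat.find_spec hex
  have s3 : Nat.find hex ≤ Fintype.card V := Nat.find_min' hex ⟨hcn, by
      rw [← hnd]
      have := mul_le_mul_of_nonneg_right hp1 (sq_nonneg n)
      linarith⟩
  have s4 : ∀ m, m < Nat.find hex → c ≤ m →
      m * n - m ^ 2 / 2 - p * n ^ 2 / 2 < -(ξ * p * n ^ 2) := fun m hm hcm =>
    not_le.1 fun hh => Nat.find_min hex hm ⟨hcm, hh⟩
  generalize Nat.find hex = c0 at s1 s2 s3 s4
  obtain ⟨m, rfl⟩ : ∃ m, c0 = m + 1 := ⟨c0 - 1, by omega⟩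
  have s5 : c ≤ m := by
    by_contra hh
    have : c = m + 1 := by omega
    rw [← this] at s2
    linarith
  have s6 := s4 m (Nat.lt_succ_self m) s5
  have s7 : ((m + 1 : ℕ) : ℝ) * n - ((m + 1 : ℕ) : ℝ) ^ 2 / 2 - p * n ^ 2 / 2 ≤
      -(ξ * p * n ^ 2) + n := by
    have : (0 : ℝ) ≤ m := by positivity
    push_cast; linarith
  have s8 : ((m + 1 : ℕ) : ℝ) ≤ n := by rw [hnd]; exact_mod_cast s3
  refine (Pr_le_add hp0.le hp1 fun G hG hh => ?_).trans ((add_le_add
    (hmid (m + 1) (by omega) s3 (abs_le.2 ⟨s2, by linarith⟩)) hdev).trans (by linarith))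
  by_cases hE : Enough (m + 1) G
  · exact Or.inl ⟨fun hr => hh.1 (hr.of_le s1), hE⟩
  · right
    rw [enough_iff s3, not_le, ← hnd] at hE
    rw [inter_eq_left.2 hG, lt_abs]
    right
    linarith

end Pool.Agent.P.MP_2d96df_co.H35
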