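import Pool.Agent.P.MP_2d96df_co.H35.Steps

/-! Estimates for the regime where the density is bounded away from one. -/

namespace Pool.Agent.P.MP_2d96df_co.H35

open Finset
open scoped Classical

set_option linter.unusedSectionVars false
set_option maxHeartbeats 400000

variable {K : Type*} [Field K] [CharZero K] {V : Type*} [Fintype V] [DecidableEq V]
  {ι : Type*} [Fintype ι] [DecidableEq ι]

/-- The quasirandomness event used by the closure bound. -/
def GoodQ (P : V → ι → K) (μ ξ γ μ0 n c : ℝ) (G : Finset (Sym2 V)) : Prop :=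
  QR (μ ^ 10) ξ G ∧ (μ ≤ μ0 → PatHit P (2 * ⌊μ ^ 2 * c⌋₊) (γ * n ^ 2) G)

lemma pow_exp_le (N : ℕ) (hN : 1 ≤ N) {a T : ℝ} (h : 3 ≤ a * T) :
    8 ^ N * Real.exp (-(a * (T * N))) ≤ Real.exp (3 - a * T) := by
  have h8 : (8 : ℝ) ≤ Real.exp 3 := by
    have := pow_le_pow_left₀ (by norm_num) (Real.add_one_le_exp 1) 3
    rw [← Real.exp_nat_mul] at this
    norm_num at this ⊢; exact this
  refine (mul_le_mul_of_nonneg_right (pow_le_pow_left₀ (by norm_num) h8 N)
    (Real.exp_pos _).le).trans ?_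
  rw [← Real.exp_nat_mul, ← Real.exp_add]
  have : (1 : ℝ) ≤ N := by exact_mod_cast hN
  exact Real.exp_le_exp.2 (by nlinarith)

lemma Pr_not_GoodQ (P : V → ι → K) {μ ξ γ μ0 n c : ℝ} (hn : n = Fintype.card V)
    (hc : c = Fintype.card ι) (hμ : 0 < μ) (hp1 : μ ^ 10 ≤ 1) (hξ : 0 < ξ) (hξ1 : ξ ≤ 2)
    (hγ : 0 < γ) (hγ1 : γ ≤ 1) (hμγ : μ0 ≤ γ ^ 2 / 10000) (hcn : c ≤ n) (hc2 : c ≤ 2 * μ ^ 10 * n)
    (hn1 : 1 ≤ Fintype.card V) (h1 : 3 ≤ ξ ^ 2 / 4 * (μ ^ 10 * n)) (h2 : 3 ≤ γ / 4 * (μ ^ 10 * n)) :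
    2 ^ Fintype.card V * Pr (pr univ univ) (μ ^ 10) (fun G => ¬ GoodQ P μ ξ γ μ0 n c G) ≤
      2 * Real.exp (3 - ξ ^ 2 / 4 * (μ ^ 10 * n)) + Real.exp (3 - γ / 4 * (μ ^ 10 * n)) := by
  have hp0 : 0 ≤ μ ^ 10 := by positivity
  have e1 := Pr_not_QR (V := V) hp0 hp1 hξ hξ1
  have e2 : Pr (pr univ univ) (μ ^ 10) (fun G => ¬ (μ ≤ μ0 →
      PatHit P (2 * ⌊μ ^ 2 * c⌋₊) (γ * n ^ 2) G)) ≤
      4 ^ Fintype.card V * Real.exp (-(γ / 4 * (μ ^ 10 * n * n))) := by
    by_cases h : μ ≤ μ0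
    · refine (Pr_mono hp0 hp1 fun G _ hG hh => hG fun _ => hh).trans
        ((Pr_not_PatHit hp0 hp1 P _ _).trans ?_)
      refine (mul_le_mul_of_nonneg_right (card_pats_le P hn hc hμ hγ hγ1 (h.trans hμγ) hcn hc2)
        (by positivity)).trans (le_of_eq ?_)
      rw [mul_left_comm, ← Real.exp_add]; congr 2; ring
    · rw [Pr_false (fun G _ hG => hG fun h' => absurd h' h)]; positivity
  have e3 := Pr_le_add (Ω := pr univ univ) hp0 hp1 (A := fun G => ¬ GoodQ P μ ξ γ μ0 n c G)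
    (fun G _ h => not_and_or.1 h)
  have e4 := pow_exp_le _ hn1 h1
  have e5 := pow_exp_le _ hn1 h2
  rw [← hn] at e1 e4 e5
  rw [show (8 : ℝ) = 2 * 4 by norm_num, mul_pow] at e4 e5
  rw [show ξ ^ 2 * (μ ^ 10 * n ^ 2) / 4 = ξ ^ 2 / 4 * (μ ^ 10 * n * n) by ring] at e1
  have e6 := mul_le_mul_of_nonneg_left (e3.trans (add_le_add e1 e2))
    (show (0 : ℝ) ≤ 2 ^ Fintype.card V by positivity)
  linarith

lemma Pr_cov {P : V → ι → K} (hP : Gen P) {p ξ n c : ℝ} (hn : n = Fintype.card V)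
    (hc : c = Fintype.card ι) (hp : 0 < p) (hp1 : p ≤ 1) (hξ : 0 < ξ) (hξ1 : ξ ≤ 1 / 100)
    (hT : 1 ≤ ξ * p * n ^ 2) (U : Finset V) (Good : Finset (Sym2 V) → Prop)
    (hQ : ∀ G, Good G → QR p ξ G)
    (hβ : ∀ G, Good G → c * U.card ≤ 2 * (G ∩ pr U U).card → ∀ X : V → ι → K,
      (∀ e, pair X (rho P e) = 0 ↔ rho P e ∈ Sp P (G ∩ pr U U)) →
      (1 - p) * U.card * (p * U.card - c) / (2 * p) + 4 * ξ * n ^ 2 ≤ (supp P X U).card) :
    ξ * Pr (pr univ univ) p (Cov P U) ≤ Pr (pr univ univ) p (fun G => ¬ Good G) := by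
  have hcov : ∀ G, Cov P U G → c * U.card ≤ 2 * (G ∩ pr U U).card := fun G h => by
    have := (card_C hP _ U h).trans (Nat.mul_le_mul_left 2 (card_filter_le _ _))
    rw [hc]; exact_mod_cast this
  have hup : ∀ G, Good G → ((G ∩ pr U U).card : ℝ) ≤ p * U.card ^ 2 / 2 + ξ * p * n ^ 2 :=
    fun G h => by rw [hn]; exact (hQ G h).upper hp.le U
  have h1 := Pr_le_add (Ω := pr univ univ) hp.le hp1 (A := Cov P U)
    (B := fun G => Cov P U G ∧ Good G) (C := fun G => ¬ Good G) (fun G _ h => by tauto)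
  have h0 := Pr_nonneg (Ω := pr univ univ) hp.le hp1 (Cov P U)
  suffices Pr (pr univ univ) p (fun G => Cov P U G ∧ Good G) ≤
      (1 - ξ) * Pr (pr univ univ) p (Cov P U) by linarith
  by_cases hS : -(ξ * p * n ^ 2) ≤ U.card * (p * U.card - c) / 2
  swap
  · rw [Pr_false (fun G _ h => hS (by linarith [hcov G h.1, hup G h.2]))]
    exact mul_nonneg (by linarith) h0
  have h2 := stepA hp.le hp1 hP U Good _ _ (U.card * (p * U.card - c) / 2 + 2 * ξ * p * n ^ 2)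
    (by linarith) (by rw [← hc]; linarith) (fun G hG h => hβ G hG (hcov G h)) hup
  obtain ⟨S, hSd⟩ : ∃ S, S = U.card * (p * U.card - c) / 2 := ⟨_, rfl⟩
  obtain ⟨M, hM⟩ : ∃ M, M = p * n ^ 2 := ⟨_, rfl⟩
  have hU : (U.card : ℝ) ≤ n := by rw [hn]; exact_mod_cast card_le_univ U
  have hU0 : (0 : ℝ) ≤ U.card := by positivity
  have hc0 : 0 ≤ c := by rw [hc]; positivity
  have hSM : S ≤ M / 2 := by
    have := mul_le_mul_of_nonneg_left (pow_le_pow_left₀ hU0 hU 2) hp.le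
    have := mul_nonneg hU0 hc0
    rw [hSd, hM]; linarith
  rw [← mul_assoc, ← mul_assoc, show p * ((1 - p) * U.card * (p * U.card - c) / (2 * p) +
    4 * ξ * n ^ 2) = (1 - p) * S + 4 * ξ * M by rw [hSd, hM]; field_simp,
    show (U.card * (p * U.card - c) / 2 + 2 * ξ * p * n ^ 2 : ℝ) = S + 2 * ξ * M by
      rw [hSd, hM]; ring] at h2
  rw [mul_assoc, ← hM] at hT
  rw [← hSd, mul_assoc, ← hM] at hS
  have hM0 : 0 < M := by nlinarith
  have h3 : 0 < (1 - p) * S + 4 * ξ * M := by nlinarith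
  refine le_of_mul_le_mul_left (h2.trans ?_) h3
  rw [← mul_assoc]
  refine mul_le_mul_of_nonneg_right ?_ h0
  have h4 : (1 - p) * S ≤ M / 2 := by nlinarith
  have h5 := mul_le_mul_of_nonneg_left h4 hξ.le
  have h6 : 0 ≤ p * (ξ * M) := by positivity
  have h7 : ξ * (ξ * M) ≤ 1 / 100 * (ξ * M) := mul_le_mul_of_nonneg_right hξ1 (by positivity)
  linarith

lemma dim_facts {p ξ n c : ℝ} (hp : 0 < p) (hp1 : p ≤ 1599 / 1600) (hξ : ξ ≤ 1 / 6400)
    (hn : 0 < n) (hc0 : 0 ≤ c) (hcn : c ≤ n)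
    (h : |c * n - c ^ 2 / 2 - p * n ^ 2 / 2| ≤ ξ * p * n ^ 2) :
    c ≤ 2 * p * n ∧ p * n / 4 ≤ c ∧ n / 57 ≤ n - c ∧ c ≤ (1 / 2 + ξ + 2 * p) * (p * n) ∧
      c ≤ 59 / 60 * (p * n) := by
  obtain ⟨h1, h2⟩ := abs_le.1 h
  have hM : 0 < p * n ^ 2 := by positivity
  have h3 : ξ * p * n ^ 2 ≤ 1 / 6400 * (p * n ^ 2) := by
    rw [mul_assoc]; exact mul_le_mul_of_nonneg_right hξ hM.le
  have h4 := mul_nonneg hc0 (sub_nonneg.2 hcn)
  have a1 : c ≤ 2 * p * n := le_of_mul_le_mul_right (by nlinarith) hn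
  have a3 : n / 57 ≤ n - c := by
    refine le_of_sq_le_sq ?_ ?_
    · nlinarith [mul_le_mul_of_nonneg_right hp1 (sq_nonneg n)]
    · linarith
  refine ⟨a1, le_of_mul_le_mul_right (by nlinarith [sq_nonneg c]) hn, a3, ?_, ?_⟩
  · have := pow_le_pow_left₀ hc0 a1 2
    exact le_of_mul_le_mul_right (by nlinarith) hn
  · have := mul_le_mul_of_nonneg_left a3 hc0
    exact le_of_mul_le_mul_right (by nlinarith) hn

lemma mindeg_bound {ε p ξ n c : ℝ} (hn : n = Fintype.card V) (hε : 0 < ε) (hε1 : ε ≤ 1)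
    (hp : 0 < p) (hp1 : p ≤ 1) (hξ : ξ ≤ ε / 100) (hn1 : 1 ≤ n) (hT : 1000 ≤ ε * (p * n))
    (hlog : (1 + ε) * (2 / (1 - Real.log 2)) * Real.log n ≤ p * n)
    (h1 : c ≤ (1 / 2 + ξ + 2 * p) * (p * n)) (h2 : c ≤ 59 / 60 * (p * n)) :
    Pr (pr (univ : Finset V) univ) p (fun G => ¬ MinDeg (c + 2 * (ε / 400 * (p * n)) + 1) G) ≤
      Real.exp (1 - ε / 32 * (p * n)) +
        100 / ε * (p * n) * Real.exp (1 - 1 / 40000 * (p * n)) := by
  obtain ⟨T, hTd⟩ : ∃ T, T = p * n := ⟨_, rfl⟩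
  have hT0 : 0 < T := by rw [hTd]; positivity
  by_cases hpp : p ≤ ε / 100
  · refine le_trans ?_ (le_add_of_nonneg_right (by positivity))
    refine (Pr_not_MinDeg hp.le hp1 _ (Real.log 2) (Real.log_nonneg one_le_two)).trans ?_
    rw [← hn, Real.exp_neg, Real.exp_log two_pos, ← hTd]
    rw [← hTd] at hT hlog h1
    have l1 := Real.log_two_gt_d9
    have l2 := Real.log_two_lt_d9
    have e1 : Real.log n ≤ (1 - Real.log 2) / 2 * T * (1 - ε / 2) := by
      have hl := Real.log_nonneg hn1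
      have : (1 + ε) * Real.log n ≤ (1 - Real.log 2) / 2 * T := by
        have := mul_le_mul_of_nonneg_left hlog (show 0 ≤ (1 - Real.log 2) / 2 by linarith)
        refine le_trans (le_of_eq ?_) this
        have : 1 - Real.log 2 ≠ 0 := by linarith
        field_simp
      nlinarith [mul_nonneg hl (mul_nonneg hε.le (sub_nonneg.2 hε1))]
    have e2 : c + 2 * (ε / 400 * T) + 1 ≤ (1 / 2 + ε / 20) * T := by nlinarith
    have e3 := mul_le_mul_of_nonneg_left e2 (show 0 ≤ Real.log 2 by linarith)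
    have e4 : p * (n - 1) * (2⁻¹ - 1) = -T / 2 + p / 2 := by rw [hTd]; ring
    rw [e4]
    nth_rewrite 1 [← Real.exp_log (show 0 < n by linarith)]
    rw [← Real.exp_add]
    refine Real.exp_le_exp.2 ?_
    have e5 : Real.log 2 * (ε * T) ≤ 0.6931471808 * (ε * T) :=
      mul_le_mul_of_nonneg_right l2.le (by positivity)
    nlinarith
  · refine le_trans ?_ (le_add_of_nonneg_left (by positivity))
    refine (Pr_not_MinDeg hp.le hp1 _ (1 / 200) (by norm_num)).trans ?_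
    rw [← hn]
    refine mul_le_mul ?_ (Real.exp_le_exp.2 ?_) (by positivity) (by positivity)
    · rw [div_mul_eq_mul_div, le_div_iff₀ hε]; nlinarith
    · have e1 := exp_sub_le (t := -(1 / 200)) (by rw [abs_neg, abs_of_pos] <;> norm_num)
      have e2 := mul_le_mul_of_nonneg_left e1 (show 0 ≤ p * (n - 1) by
        have : 0 ≤ n - 1 := by linarith
        positivity)
      have e3 : ε * (p * n) ≤ p * n := by nlinarith
      nlinarith

lemma point_bound {p n c T0 : ℝ} (hn : n = Fintype.card V) (hc : c = Fintype.card ι)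
    (hp : 0 < p) (hp1 : p ≤ 1) (hn1 : 1 ≤ n) (hcn : n / 57 ≤ n - c) (hT0 : 1 ≤ T0)
    (hT : T0 ^ 2 ≤ p * n) (j : ℕ)
    (hj : j + Fintype.card V + (Fintype.card V - Fintype.card ι + 1).choose 2 ≤
      (Fintype.card V + 1).choose 2) :
    Pr (pr (univ : Finset V) univ) p (fun G => G.card = j) ≤ 20000 / T0 := by
  obtain ⟨s, hs0, hs⟩ : ∃ s : ℝ, 0 ≤ s ∧ s ^ 2 = p * n ^ 2 :=
    ⟨√(p * n ^ 2), Real.sqrt_nonneg _, Real.sq_sqrt (by positivity)⟩
  have hsT : T0 ≤ s := le_of_sq_le_sq (by nlinarith [mul_pos hp (show 0 < n by linarith)]) hs0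
  have hs1 : 0 < s := by linarith
  have h := Pr_card_eq (Ω := pr (univ : Finset V) univ) hp.le hp1 j (1 / s) (by positivity)
    (by rw [div_le_one hs1]; linarith)
  have e1 := card_pr_self (univ : Finset V)
  have e2 := two_mul_choose (Fintype.card V)
  have e3 := two_mul_choose (Fintype.card V - Fintype.card ι)
  rw [card_univ] at e1
  have e4 : 2 * j + (Fintype.card V - Fintype.card ι) * (Fintype.card V - Fintype.card ι) ≤
      2 * (pr (univ : Finset V) univ).card := by nlinarith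
  have hcV : Fintype.card ι ≤ Fintype.card V := by
    have : c ≤ n := by linarith
    rw [hc, hn] at this; exact_mod_cast this
  have e5 := (Nat.cast_le (α := ℝ)).2 e4
  have e6 : (2 * (pr (univ : Finset V) univ).card + n : ℝ) = n * n := by
    rw [hn]; exact_mod_cast e1
  push_cast [Nat.cast_sub hcV] at e5
  rw [← hn, ← hc] at e5
  have e7 : n ^ 2 / 6498 ≤ ((pr (univ : Finset V) univ).card : ℝ) - j := by
    nlinarith [mul_le_mul hcn hcn (by linarith) (by linarith)]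
  have e8 : Real.exp (p * (pr (univ : Finset V) univ).card * (1 / s) ^ 2) ≤ 3 := by
    refine le_trans (Real.exp_le_exp.2 ?_) (Real.exp_one_lt_d9.le.trans (by norm_num))
    rw [div_pow, one_pow, mul_one_div, div_le_one (by positivity), hs]
    exact mul_le_mul_of_nonneg_left (by nlinarith) hp.le
  have h0 := Pr_nonneg (Ω := pr (univ : Finset V) univ) hp.le hp1 (fun G => G.card = j)
  have e9 := mul_le_mul_of_nonneg_left (mul_le_mul_of_nonneg_right e7 h0) hp.le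
  rw [div_div_eq_mul_div, div_one] at h
  have e10 : s * (s * Pr (pr (univ : Finset V) univ) p (fun G => G.card = j)) ≤ s * 19494 := by
    have := mul_le_mul_of_nonneg_right e8 hs0
    have e11 : s * (s * Pr (pr (univ : Finset V) univ) p (fun G => G.card = j)) =
        6498 * (p * (n ^ 2 / 6498 * Pr (pr (univ : Finset V) univ) p (fun G => G.card = j))) := by
      rw [← mul_assoc, ← sq, hs]; ring
    linarith
  have e12 := le_of_mul_le_mul_left e10 hs1
  rw [le_div_iff₀ (by linarith)]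
  nlinarith

end Pool.Agent.P.MP_2d96df_co.H35
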