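import Pool.Agent.P.MP_2d96df_co.H35.Struct

/-! Counting zero patterns of quadratic polynomials, and cliques in dense parts. -/

namespace Pool.Agent.P.MP_2d96df_co.H35

open Finset Module MvPolynomial
open scoped Classical

set_option linter.unusedSectionVars false
set_option maxHeartbeats 400000

variable {K : Type*} [Field K] {V : Type*} [Fintype V] [DecidableEq V]
  {ι : Type*} [Fintype ι] [DecidableEq ι]

lemma card_exponents (σ : Type*) [Fintype σ] [DecidableEq σ] (D : ℕ) (t : ℝ) (ht : 0 < t)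
    (ht1 : t < 1) :
    (((Fintype.piFinset fun _ : σ => range (D + 1)).filter fun α => ∑ s, α s ≤ D).card : ℝ) *
      t ^ D ≤ (1 - t)⁻¹ ^ Fintype.card σ := by
  have h1 : (((Fintype.piFinset fun _ : σ => range (D + 1)).filter
      fun α => ∑ s, α s ≤ D).card : ℝ) * t ^ D ≤
      ∑ α ∈ Fintype.piFinset fun _ : σ => range (D + 1), ∏ s, t ^ α s := by
    rw [← nsmul_eq_mul, ← sum_const]
    refine le_trans (sum_le_sum fun α hα => ?_) (sum_le_sum_of_subset_of_nonneg
      (filter_subset (fun α : σ → ℕ => ∑ s, α s ≤ D) _) fun α _ _ => by positivity)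
    rw [prod_pow_eq_pow_sum]
    exact pow_le_pow_of_le_one ht.le ht1.le (mem_filter.1 hα).2
  refine h1.trans ?_
  rw [← prod_univ_sum, ← card_univ, ← prod_const]
  refine prod_le_prod (fun _ _ => by positivity) fun _ _ => ?_
  rw [← tsum_geometric_of_lt_one ht.le ht1]
  exact (summable_geometric_of_lt_one ht.le ht1).sum_le_tsum _ fun _ _ => by positivity

lemma card_patterns {σ J : Type*} [Fintype σ] [DecidableEq σ] [Fintype J] [DecidableEq J]
    (f : J → MvPolynomial σ K) (hf : ∀ j, (f j).totalDegree ≤ 2) (𝒯 : Finset (Finset J))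
    (h𝒯 : ∀ T ∈ 𝒯, ∃ x : σ → K, ∀ j, j ∈ T ↔ eval x (f j) ≠ 0) (t : ℝ) (ht : 0 < t)
    (ht1 : t < 1) : (𝒯.card : ℝ) * t ^ (2 * Fintype.card J) ≤ (1 - t)⁻¹ ^ Fintype.card σ := by
  refine le_trans (mul_le_mul_of_nonneg_right ?_ (by positivity))
    (card_exponents σ (2 * Fintype.card J) t ht ht1)
  set A := (Fintype.piFinset fun _ : σ => range (2 * Fintype.card J + 1)).filter
    fun α => ∑ s, α s ≤ 2 * Fintype.card J with hA
  choose! x hx using h𝒯
  have hdeg : ∀ T : Finset J, (∏ j ∈ T, f j).totalDegree ≤ 2 * Fintype.card J := by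
    intro T
    refine (totalDegree_finsetProd _ _).trans ((sum_le_sum fun j _ => hf j).trans ?_)
    rw [sum_const, smul_eq_mul, mul_comm]
    exact Nat.mul_le_mul_left _ (card_le_univ _)
  have hli : LinearIndependent K (fun (T : 𝒯) (α : A) =>
      coeff (Finsupp.equivFunOnFinite.symm α.1) (∏ j ∈ T.1, f j)) := by
    rw [Fintype.linearIndependent_iff]
    intro c hc
    have hp : ∑ T : 𝒯, c T • ∏ j ∈ T.1, f j = 0 := by
      ext m
      rw [coeff_sum, coeff_zero]
      by_cases hm : ∑ s, m s ≤ 2 * Fintype.card J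
      · have hmA : (m : σ → ℕ) ∈ A := by
          rw [hA, mem_filter, Fintype.mem_piFinset]
          refine ⟨fun s => mem_range.2 (Nat.lt_succ_of_le (le_trans ?_ hm)), hm⟩
          exact single_le_sum (f := fun s => m s) (fun _ _ => Nat.zero_le _) (mem_univ s)
        simpa [Finset.sum_apply] using congrFun hc ⟨m, hmA⟩
      · refine sum_eq_zero fun T _ => ?_
        rw [coeff_smul, coeff_eq_zero_of_totalDegree_lt, smul_zero]
        refine lt_of_le_of_lt (hdeg _) ?_
        rw [sum_subset (subset_univ _) (fun s _ hs => by simpa using hs)]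
        omega
    by_contra hne
    push Not at hne
    obtain ⟨T0, hT0, hmin⟩ := exists_min_image (univ.filter fun T : 𝒯 => c T ≠ 0)
      (fun T => T.1.card) (by obtain ⟨T, hT⟩ := hne; exact ⟨T, by simpa using hT⟩)
    simp only [mem_filter, mem_univ, true_and] at hT0 hmin
    have := congrArg (eval (x T0.1)) hp
    rw [map_sum, map_zero, sum_eq_single T0] at this
    · rw [smul_eval, map_prod] at this
      exact mul_ne_zero hT0 (prod_ne_zero_iff.2 fun j hj => (hx _ T0.2 j).1 hj) this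
    · intro T _ hT
      by_cases h0 : c T = 0
      · simp [h0]
      rw [smul_eval, map_prod]
      refine mul_eq_zero_of_right _ ?_
      by_contra hne
      have hsub : T.1 ⊆ T0.1 := fun j hj => (hx _ T0.2 j).2 (prod_ne_zero_iff.1 hne j hj)
      exact hT (Subtype.ext (eq_of_subset_of_card_le hsub (hmin T h0)))
    · simp
  have := hli.fintype_card_le_finrank
  simp only [Fintype.card_coe, Module.finrank_fintype_fun_eq_card] at this
  exact_mod_cast this

/-- The support patterns of motions described by few parameters. -/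
noncomputable def pats (P : V → ι → K) (b : ℕ) : Finset (Finset (V × V)) :=
  univ.filter fun T => ∃ (A A' : ι → ι → K) (B B' : Fin b → ι → K) (β β' : V → Fin b → K),
    ∀ u w, (u, w) ∈ T ↔ P u ⬝ᵥ XX P A' B' β' w + XX P A B β u ⬝ᵥ P w ≠ 0

lemma card_pats (P : V → ι → K) (b : ℕ) (t : ℝ) (ht : 0 < t) (ht1 : t < 1) :
    ((pats P b).card : ℝ) * t ^ (2 * (Fintype.card V * Fintype.card V)) ≤
      (1 - t)⁻¹ ^ (2 * (Fintype.card ι * Fintype.card ι + b * Fintype.card ι +
        Fintype.card V * b)) := by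
  let σ1 := (ι × ι) ⊕ (Fin b × ι) ⊕ (V × Fin b)
  let XP : (σ1 → σ1 ⊕ σ1) → V → ι → MvPolynomial (σ1 ⊕ σ1) K := fun e u i =>
    ∑ l, C (P u l) * X (e (.inl (l, i))) +
      ∑ t, X (e (.inr (.inr (u, t)))) * X (e (.inr (.inl (t, i))))
  have hXP : ∀ e u i, (XP e u i).totalDegree ≤ 2 := by
    intro e u i
    refine (totalDegree_add _ _).trans (max_le ?_ ?_)
    · refine (totalDegree_finsetSum _ _).trans (Finset.sup_le fun l _ => ?_)
      refine (totalDegree_mul _ _).trans ?_
      simp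
    · refine (totalDegree_finsetSum _ _).trans (Finset.sup_le fun l _ => ?_)
      refine (totalDegree_mul _ _).trans ?_
      simp
  have := card_patterns (K := K) (σ := σ1 ⊕ σ1) (J := V × V)
    (fun x => ∑ i, C (P x.1 i) * XP .inr x.2 i + ∑ i, XP .inl x.1 i * C (P x.2 i)) (by
      intro x
      refine (totalDegree_add _ _).trans (max_le ?_ ?_)
      · refine (totalDegree_finsetSum _ _).trans (Finset.sup_le fun l _ => ?_)
        refine (totalDegree_mul _ _).trans ?_
        simpa using hXP _ _ _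
      · refine (totalDegree_finsetSum _ _).trans (Finset.sup_le fun l _ => ?_)
        refine (totalDegree_mul _ _).trans ?_
        simpa using hXP _ _ _) (pats P b) (by
      intro T hT
      obtain ⟨A, A', B, B', β, β', h⟩ := (mem_filter.1 hT).2
      refine ⟨Sum.elim
        (Sum.elim (fun x => A x.1 x.2) (Sum.elim (fun x => B x.1 x.2) (fun x => β x.1 x.2)))
        (Sum.elim (fun x => A' x.1 x.2) (Sum.elim (fun x => B' x.1 x.2) (fun x => β' x.1 x.2))),
        fun ⟨u, w⟩ => ?_⟩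
      rw [h]
      simp [XP, XX, dotProduct, Finset.sum_apply]) t ht ht1
  simp only [σ1, Fintype.card_sum, Fintype.card_prod, Fintype.card_fin] at this
  convert this using 2
  ring

/-- Every large piece of a pattern meets the graph or the diagonal. -/
def PatHit (P : V → ι → K) (b : ℕ) (m : ℝ) (G : Finset (Sym2 V)) : Prop :=
  ∀ T ∈ pats P b, ∀ Z Z' : Finset V,
    (∀ x ∈ T ∩ Z ×ˢ Z', ¬ (mk2 x).IsDiag ∧ mk2 x ∉ G) → ((T ∩ Z ×ˢ Z').card : ℝ) ≤ m

lemma avg_count (Y G : Finset V) (N : V → Finset V) (hN : ∀ u ∈ Y, ∀ v ∈ Y, u ∈ N v → v ∈ N u)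
    (hG : G ⊆ Y) (S : Finset (V × V)) (hS : S ⊆ Y ×ˢ Y) (h m : ℝ) (h0 : 0 ≤ h) (hm0 : 0 ≤ m)
    (hh : ∀ u ∈ Y, h ≤ (G ∩ N u).card)
    (hm : ∀ v ∈ G, ∀ v' ∈ G, ((S ∩ N v ×ˢ N v').card : ℝ) ≤ m) :
    S.card * h ^ 2 ≤ (Fintype.card V) ^ 2 * m := by
  have h1 : ∑ y ∈ G ×ˢ G, ((S.filter fun x => x ∈ N y.1 ×ˢ N y.2).card : ℝ) ≤
      (Fintype.card V) ^ 2 * m := by
    refine (sum_le_sum (g := fun _ => m) fun y hy => ?_).trans ?_
    · rw [filter_mem_eq_inter]; exact hm _ (mem_product.1 hy).1 _ (mem_product.1 hy).2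
    · rw [sum_const, nsmul_eq_mul, card_product]
      refine mul_le_mul_of_nonneg_right ?_ hm0
      have : G.card ≤ Fintype.card V := card_le_univ _
      rw [sq]; exact_mod_cast Nat.mul_le_mul this this
  refine le_trans ?_ h1
  have h2 : ∑ y ∈ G ×ˢ G, ((S.filter fun x => x ∈ N y.1 ×ˢ N y.2).card : ℝ) =
      ∑ x ∈ S, (((G ×ˢ G).filter fun y => x ∈ N y.1 ×ˢ N y.2).card : ℝ) := by
    simp only [card_filter]; push_cast
    exact sum_comm
  rw [h2, ← nsmul_eq_mul, ← sum_const]
  refine sum_le_sum fun x hx => ?_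
  have hx' := mem_product.1 (hS hx)
  have h3 : (G ∩ N x.1) ×ˢ (G ∩ N x.2) ⊆ (G ×ˢ G).filter fun y => x ∈ N y.1 ×ˢ N y.2 := by
    intro y hy
    simp only [mem_product, mem_inter, mem_filter] at hy ⊢
    exact ⟨⟨hy.1.1, hy.2.1⟩, hN _ (hG hy.1.1) _ hx'.1 hy.1.2, hN _ (hG hy.2.1) _ hx'.2 hy.2.2⟩
  have h4 := card_le_card h3
  rw [card_product] at h4
  have h5 : ((G ∩ N x.1).card * (G ∩ N x.2).card : ℝ) ≤
      ((G ×ˢ G).filter fun y => x ∈ N y.1 ×ˢ N y.2).card := by exact_mod_cast h4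
  rw [sq]
  exact le_trans (mul_le_mul (hh _ hx'.1) (hh _ hx'.2) h0 (by positivity)) h5

/-- A part of large minimum degree in the zero pattern is a clique. -/
lemma dense_clique [CharZero K] {P X : V → ι → K} (hP : Gen P) (hd : ∀ u, MM P X u u = 0)
    (h1 : 1 ≤ Fintype.card ι) (G : Finset (Sym2 V)) (Y : Finset V)
    (hG : ∀ u ∈ Y, ∀ w ∈ Y, s(u, w) ∈ G → MM P X u w = 0) (g D m : ℝ) (b : ℕ) (hg : 0 < g)
    (hm0 : 0 ≤ m) (hcD : (2 * Fintype.card ι : ℝ) ≤ D)
    (hnum : (Fintype.card ι * Fintype.card V / g +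
        g * Fintype.card V / (D - Fintype.card ι)) * (b + 1 + 2 * Fintype.card ι) ≤
        (b + 1) * (D / 2))
    (hm : 32 * (Fintype.card V) ^ 2 * m < D ^ 4) (hhit : PatHit P (2 * b) m G)
    (hD : ∀ v ∈ Y, D ≤ (nb P X Y v).card) : Clq P X Y := by
  have hc1 : (1 : ℝ) ≤ Fintype.card ι := by exact_mod_cast h1
  obtain ⟨Go, hGo, hGr, hGc⟩ := exists_good hP Y g D hg (by linarith) hD b
  have hYV : (Y.card : ℝ) ≤ Fintype.card V := by exact_mod_cast card_le_univ Y
  have hbad : ((Y \ Go).card : ℝ) ≤ D / 2 := by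
    refine le_of_mul_le_mul_left (hGc.trans (le_trans ?_ hnum)) (by positivity)
    have : 0 < D - Fintype.card ι := by linarith
    gcongr
  have havg := avg_count Y Go (nb P X Y) (fun u hu v hv h => by
      simp only [nb, mem_filter] at h ⊢
      exact ⟨hv, by rw [MM_comm]; exact h.2⟩) hGo
    ((Y ×ˢ Y).filter fun x => MM P X x.1 x.2 ≠ 0) (filter_subset _ _) (D / 2) m (by linarith) hm0
    (fun u hu => by
      have e1 : (nb P X Y u).card ≤ (Go ∩ nb P X Y u).card + (Y \ Go).card := by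
        refine le_trans (card_le_card ?_) (card_union_le _ _)
        intro x hx
        simp only [nb, mem_filter, mem_union, mem_inter, mem_sdiff] at hx ⊢
        tauto
      have e2 : ((nb P X Y u).card : ℝ) ≤ (Go ∩ nb P X Y u).card + (Y \ Go).card := by
        exact_mod_cast e1
      linarith [hD u hu])
    (fun v hv v' hv' => by
      have hc : ∀ v ∈ Y, Fintype.card ι ≤ (nb P X Y v).card := fun v hv => by
        have := hD v hv
        exact_mod_cast (show (Fintype.card ι : ℝ) ≤ (nb P X Y v).card by linarith)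
      obtain ⟨A, B, β, e⟩ := exists_repr hP X (hc v (hGo hv)) (hGr v hv)
      obtain ⟨A', B', β', e'⟩ := exists_repr hP X (hc v' (hGo hv')) (hGr v' hv')
      let T : Finset (V × V) := univ.filter fun x =>
        P x.1 ⬝ᵥ XX P A' B' β' x.2 + XX P A B β x.1 ⬝ᵥ P x.2 ≠ 0
      have hT : T ∈ pats P (2 * b) :=
        mem_filter.2 ⟨mem_univ _, A, A', B, B', β, β', fun u w => by simp [T]⟩
      have heq : (Y ×ˢ Y).filter (fun x => MM P X x.1 x.2 ≠ 0) ∩ nb P X Y v ×ˢ nb P X Y v' =
          T ∩ nb P X Y v ×ˢ nb P X Y v' := by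
        ext ⟨x, y⟩
        simp only [T, mem_inter, mem_filter, mem_product, mem_univ, true_and]
        constructor
        · rintro ⟨⟨-, h⟩, hx, hy⟩
          exact ⟨by rw [← e x hx, ← e' y hy]; exact h, hx, hy⟩
        · rintro ⟨h, hx, hy⟩
          rw [← e x hx, ← e' y hy] at h
          exact ⟨⟨⟨(mem_filter.1 hx).1, (mem_filter.1 hy).1⟩, h⟩, hx, hy⟩
      rw [heq]
      refine hhit T hT _ _ fun x hx => ?_
      rw [← heq] at hx
      simp only [mem_inter, mem_filter, mem_product] at hx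
      refine ⟨fun h => hx.1.2 ?_, fun h => hx.1.2 (hG _ hx.1.1.1 _ hx.1.1.2 h)⟩
      rw [← Sym2.mk_isDiag_iff.1 h]; exact hd _)
  obtain ⟨Y0, hY0, hq, hmax, hout⟩ := exists_max_clique hP hd h1 Y
  by_contra hno
  obtain ⟨v, hv⟩ : (Y \ Y0).Nonempty := by
    rw [sdiff_nonempty]
    intro h
    exact hno (subset_antisymm hY0 h ▸ hq)
  have hit := IT hP X Y0.card Y hmax
  rw [← two_mul_supp hd] at havg
  have e1 : (nb P X Y v).card ≤ (Y0.filter fun b => MM P X v b = 0).card + (Y \ Y0).card := by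
    refine le_trans (card_le_card ?_) (card_union_le _ _)
    intro x hx
    simp only [nb, mem_filter, mem_union, mem_sdiff] at hx ⊢
    tauto
  have e2 := hout v hv
  have e3 := hD v (mem_sdiff.1 hv).1
  rw [card_sdiff_of_subset hY0] at e1
  have e4 : (nb P X Y v).card ≤ Y.card := card_le_card (filter_subset _ _)
  have e5 := card_le_card hY0
  obtain ⟨t, ht⟩ : ∃ t : ℕ, Y.card - Fintype.card ι = (Y0.card - Fintype.card ι) + t ∧
      (nb P X Y v).card ≤ t + Fintype.card ι :=
    ⟨Y.card - Fintype.card ι - (Y0.card - Fintype.card ι), by omega, by omega⟩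
  rw [ht.1] at hit
  have e6 : t ^ 2 ≤ 4 * (supp P X Y).card := by nlinarith
  have e7 : (t : ℝ) ^ 2 ≤ 4 * (supp P X Y).card := by exact_mod_cast e6
  have e8 : ((nb P X Y v).card : ℝ) ≤ t + Fintype.card ι := by exact_mod_cast ht.2
  have e9 : (D / 2) ^ 2 ≤ (t : ℝ) ^ 2 := pow_le_pow_left₀ (by linarith) (by linarith) 2
  push_cast at havg
  have e10 : (D / 2) ^ 2 * (D / 2) ^ 2 ≤ 4 * (supp P X Y).card * (D / 2) ^ 2 :=
    mul_le_mul_of_nonneg_right (e9.trans e7) (by positivity)
  nlinarith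

lemma core_count (P X : V → ι → K) (D : ℝ) (hD0 : 0 ≤ D) (w : ℕ) (U : Finset V)
    (h : ∀ Y ⊆ U, (∀ v ∈ Y, D ≤ (nb P X Y v).card) → Y.card ≤ w) :
    (((U ×ˢ U).filter fun x => MM P X x.1 x.2 = 0).card : ℝ) ≤ w ^ 2 + 2 * D * U.card := by
  induction U using Finset.strongInduction with
  | H U ih =>
    by_cases hU : ∀ v ∈ U, D ≤ (nb P X U v).card
    · have h1 := h U subset_rfl hU
      have h2 : ((U ×ˢ U).filter fun x => MM P X x.1 x.2 = 0).card ≤ w ^ 2 := by
        refine (card_filter_le _ _).trans ?_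
        rw [card_product, sq]; exact Nat.mul_le_mul h1 h1
      have h3 : (((U ×ˢ U).filter fun x => MM P X x.1 x.2 = 0).card : ℝ) ≤ w ^ 2 := by
        exact_mod_cast h2
      have : 0 ≤ 2 * D * U.card := by positivity
      linarith
    push Not at hU
    obtain ⟨v, hv, hvD⟩ := hU
    have h1 := ih (U.erase v) (erase_ssubset hv) fun Y hY => h Y (hY.trans (erase_subset _ _))
    have h2 : ((U ×ˢ U).filter fun x => MM P X x.1 x.2 = 0).card ≤
        ((U.erase v ×ˢ U.erase v).filter fun x => MM P X x.1 x.2 = 0).card +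
          (({v} ×ˢ nb P X U v).card + (nb P X U v ×ˢ {v}).card) := by
      refine le_trans (card_le_card ?_) ((card_union_le _ _).trans
        (Nat.add_le_add_left (card_union_le _ _) _))
      rintro ⟨x, y⟩ hx
      simp only [nb, mem_filter, mem_union, mem_product, mem_erase, mem_singleton] at hx ⊢
      by_cases h1 : x = v
      · subst h1; tauto
      · by_cases h2 : y = v
        · subst h2; rw [MM_comm] at hx; tauto
        · tauto
    simp only [card_product, card_singleton, one_mul, mul_one] at h2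
    have h3 : (((U ×ˢ U).filter fun x => MM P X x.1 x.2 = 0).card : ℝ) ≤
        ((U.erase v ×ˢ U.erase v).filter fun x => MM P X x.1 x.2 = 0).card +
          ((nb P X U v).card + (nb P X U v).card) := by exact_mod_cast h2
    have h4 : ((U.erase v).card : ℝ) + 1 = U.card := by exact_mod_cast card_erase_add_one hv
    rw [← h4]
    nlinarith

lemma core_supp {P X : V → ι → K} (hd : ∀ u, MM P X u u = 0) (D : ℝ) (hD0 : 0 ≤ D) (w : ℕ)
    (U : Finset V) (h : ∀ Y ⊆ U, (∀ v ∈ Y, D ≤ (nb P X Y v).card) → Y.card ≤ w) :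
    (U.card : ℝ) ^ 2 ≤ 2 * (supp P X U).card + w ^ 2 + 2 * D * U.card := by
  have h1 := core_count P X D hD0 w U h
  have h2 := card_filter_add_card_filter_not (s := U ×ˢ U) (fun x => MM P X x.1 x.2 = 0)
  have h3 := two_mul_supp hd U
  rw [card_product] at h2
  simp only [ne_eq] at h3
  rw [← h3] at h2
  have h4 : ((((U ×ˢ U).filter fun x => MM P X x.1 x.2 = 0).card : ℝ) +
      2 * (supp P X U).card) = U.card * U.card := by exact_mod_cast h2
  nlinarith

end Pool.Agent.P.MP_2d96df_co.H35
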