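import Mathlib

/-! The binomial random subset of a finite set: tails, the add-remove identity, point masses. -/

namespace Pool.Agent.P.MP_2d96df_co.H35

open Finset
open scoped Classical

set_option linter.unusedSectionVars false
set_option maxHeartbeats 400000

variable {α : Type*} [DecidableEq α]

/-- Weight of a subset. -/
noncomputable def wt (Ω : Finset α) (p : ℝ) (G : Finset α) : ℝ :=
  p ^ G.card * (1 - p) ^ (Ω.card - G.card)

/-- Expectation. -/
noncomputable def Ex (Ω : Finset α) (p : ℝ) (f : Finset α → ℝ) : ℝ :=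
  ∑ G ∈ Ω.powerset, wt Ω p G * f G

/-- Probability. -/
noncomputable def Pr (Ω : Finset α) (p : ℝ) (A : Finset α → Prop) : ℝ :=
  Ex Ω p fun G => if A G then 1 else 0

variable {Ω : Finset α} {p : ℝ}

lemma wt_nonneg (h0 : 0 ≤ p) (h1 : p ≤ 1) (G : Finset α) : 0 ≤ wt Ω p G :=
  mul_nonneg (pow_nonneg h0 _) (pow_nonneg (by linarith) _)

lemma Ex_mono (h0 : 0 ≤ p) (h1 : p ≤ 1) {f g : Finset α → ℝ} (h : ∀ G ⊆ Ω, f G ≤ g G) :
    Ex Ω p f ≤ Ex Ω p g :=
  sum_le_sum fun G hG => mul_le_mul_of_nonneg_left (h G (mem_powerset.1 hG)) (wt_nonneg h0 h1 G)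

lemma Ex_congr {f g : Finset α → ℝ} (h : ∀ G ⊆ Ω, f G = g G) : Ex Ω p f = Ex Ω p g :=
  sum_congr rfl fun G hG => by rw [h G (mem_powerset.1 hG)]

lemma Ex_add (f g : Finset α → ℝ) : Ex Ω p (fun G => f G + g G) = Ex Ω p f + Ex Ω p g := by
  simp only [Ex, mul_add, sum_add_distrib]

lemma Ex_mul (c : ℝ) (f : Finset α → ℝ) : Ex Ω p (fun G => c * f G) = c * Ex Ω p f := by
  simp only [Ex, mul_sum]; exact sum_congr rfl fun G _ => by ring

lemma Ex_sum {β : Type*} (s : Finset β) (f : β → Finset α → ℝ) :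
    Ex Ω p (fun G => ∑ i ∈ s, f i G) = ∑ i ∈ s, Ex Ω p (f i) := by
  simp only [Ex, mul_sum]; exact sum_comm

lemma Ex_pow {S : Finset α} (hS : S ⊆ Ω) (x : ℝ) :
    Ex Ω p (fun G => x ^ (G ∩ S).card) = (1 - p + p * x) ^ S.card := by
  have h1 := prod_add (fun e => p * (if e ∈ S then x else 1)) (fun _ => 1 - p) Ω
  have h2 : ∏ e ∈ Ω, (p * (if e ∈ S then x else 1) + (1 - p)) = (1 - p + p * x) ^ S.card := by
    rw [← prod_const, ← prod_subset hS]
    · exact prod_congr rfl fun e he => by simp [he]; ring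
    · intro e _ he; simp [he]
  rw [← h2, h1]
  refine sum_congr rfl fun G hG => ?_
  rw [prod_mul_distrib, prod_const, prod_const, card_sdiff_of_subset (mem_powerset.1 hG),
    prod_ite_mem, prod_const, wt]
  ring

lemma Ex_one : Ex Ω p (fun _ => 1) = 1 := by
  simpa using Ex_pow (p := p) (empty_subset Ω) 1

lemma Ex_const (c : ℝ) : Ex Ω p (fun _ => c) = c := by
  simpa [Ex_one] using Ex_mul (Ω := Ω) (p := p) c (fun _ => 1)

lemma Pr_le_Ex (h0 : 0 ≤ p) (h1 : p ≤ 1) {A : Finset α → Prop} {f : Finset α → ℝ}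
    (hf : ∀ G ⊆ Ω, 0 ≤ f G) (h : ∀ G ⊆ Ω, A G → 1 ≤ f G) : Pr Ω p A ≤ Ex Ω p f :=
  Ex_mono h0 h1 fun G hG => by
    split_ifs with hA
    · exact h G hG hA
    · exact hf G hG

lemma Pr_nonneg (h0 : 0 ≤ p) (h1 : p ≤ 1) (A : Finset α → Prop) : 0 ≤ Pr Ω p A := by
  rw [← Ex_const (Ω := Ω) (p := p) 0]
  exact Ex_mono h0 h1 fun G _ => by split_ifs <;> norm_num

lemma Pr_le_one (h0 : 0 ≤ p) (h1 : p ≤ 1) (A : Finset α → Prop) : Pr Ω p A ≤ 1 :=
  (Pr_le_Ex h0 h1 (fun _ _ => zero_le_one) fun _ _ _ => le_rfl).trans Ex_one.le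

lemma Pr_mono (h0 : 0 ≤ p) (h1 : p ≤ 1) {A B : Finset α → Prop} (h : ∀ G ⊆ Ω, A G → B G) :
    Pr Ω p A ≤ Pr Ω p B :=
  Pr_le_Ex h0 h1 (fun G _ => by split_ifs <;> norm_num) fun G hG hA => by simp [h G hG hA]

lemma Pr_le_add (h0 : 0 ≤ p) (h1 : p ≤ 1) {A B C : Finset α → Prop}
    (h : ∀ G ⊆ Ω, A G → B G ∨ C G) : Pr Ω p A ≤ Pr Ω p B + Pr Ω p C := by
  rw [Pr, Pr, Pr, ← Ex_add]
  refine Pr_le_Ex h0 h1 (fun G _ => by split_ifs <;> norm_num) fun G hG hA => ?_
  rcases h G hG hA with h | h <;> split_ifs <;> norm_num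

lemma Pr_le_sum (h0 : 0 ≤ p) (h1 : p ≤ 1) {β : Type*} (s : Finset β) {A : Finset α → Prop}
    {B : β → Finset α → Prop} (h : ∀ G ⊆ Ω, A G → ∃ i ∈ s, B i G) :
    Pr Ω p A ≤ ∑ i ∈ s, Pr Ω p (B i) := by
  simp only [Pr]
  rw [← Ex_sum]
  refine Pr_le_Ex h0 h1 (fun G _ => sum_nonneg fun _ _ => by split_ifs <;> norm_num)
    fun G hG hA => ?_
  obtain ⟨i, hi, hB⟩ := h G hG hA
  refine le_trans (by simp [hB]) (single_le_sum (f := fun i => if B i G then (1 : ℝ) else 0)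
    (fun _ _ => by split_ifs <;> norm_num) hi)

lemma Pr_not (A : Finset α → Prop) : Pr Ω p (fun G => ¬ A G) = 1 - Pr Ω p A := by
  rw [eq_sub_iff_add_eq, Pr, Pr, ← Ex_add]
  refine Eq.trans (Ex_congr fun G _ => ?_) Ex_one
  by_cases h : A G <;> simp [h]

lemma Pr_false {A : Finset α → Prop} (h : ∀ G ⊆ Ω, ¬ A G) : Pr Ω p A = 0 := by
  rw [← Ex_const (Ω := Ω) (p := p) 0]
  exact Ex_congr fun G hG => by simp [h G hG]

lemma Pr_avoid {S : Finset α} (hS : S ⊆ Ω) :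
    Pr Ω p (fun G => ∀ e ∈ S, e ∉ G) = (1 - p) ^ S.card := by
  have := Ex_pow (p := p) hS 0
  rw [mul_zero, add_zero] at this
  rw [← this]
  refine Ex_congr fun G _ => ?_
  split_ifs with h
  · rw [card_eq_zero.2 (eq_empty_of_forall_notMem fun e he =>
      h e (mem_inter.1 he).2 (mem_inter.1 he).1), pow_zero]
  · push Not at h
    obtain ⟨e, h1, h2⟩ := h
    rw [zero_pow (card_pos.2 ⟨e, mem_inter.2 ⟨h2, h1⟩⟩).ne']

lemma Ex_exp (h0 : 0 ≤ p) (h1 : p ≤ 1) {S : Finset α} (hS : S ⊆ Ω) (t : ℝ) :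
    Ex Ω p (fun G => Real.exp (t * (G ∩ S).card)) ≤ Real.exp (p * S.card * (Real.exp t - 1)) := by
  simp only [mul_comm t, Real.exp_nat_mul]
  rw [Ex_pow hS, show p * S.card * (Real.exp t - 1) = S.card * (p * (Real.exp t - 1)) by ring,
    Real.exp_nat_mul]
  refine pow_le_pow_left₀ (by have := Real.exp_pos t; nlinarith) ?_ _
  linarith [Real.add_one_le_exp (p * (Real.exp t - 1))]

lemma Pr_tail (h0 : 0 ≤ p) (h1 : p ≤ 1) {S : Finset α} (hS : S ⊆ Ω) (t a : ℝ) :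
    Pr Ω p (fun G => a ≤ t * (G ∩ S).card) ≤
      Real.exp (p * S.card * (Real.exp t - 1) - a) := by
  refine (Pr_le_Ex h0 h1 (f := fun G => Real.exp (-a) * Real.exp (t * (G ∩ S).card))
    (fun _ _ => by positivity) fun G _ h => ?_).trans ?_
  · rw [← Real.exp_add]; exact Real.one_le_exp (by linarith)
  · rw [Ex_mul, sub_eq_add_neg, Real.exp_add, mul_comm]
    exact mul_le_mul_of_nonneg_right (Ex_exp h0 h1 hS t) (by positivity)

lemma exp_sub_le {t : ℝ} (ht : |t| ≤ 1) : Real.exp t - 1 ≤ t + t ^ 2 := by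
  have := (abs_le.1 (Real.abs_exp_sub_one_sub_id_le ht)).2
  linarith

lemma Pr_dev (h0 : 0 ≤ p) (h1 : p ≤ 1) {S : Finset α} (hS : S ⊆ Ω) {ξ M : ℝ} (hξ : 0 < ξ)
    (hξ1 : ξ ≤ 2) (hM : p * S.card ≤ M) :
    Pr Ω p (fun G => ξ * M < |((G ∩ S).card : ℝ) - p * S.card|) ≤
      2 * Real.exp (-(ξ ^ 2 * M / 4)) := by
  have hb : ∀ t : ℝ, |t| = ξ / 2 →
      Pr Ω p (fun G => t * (p * S.card) + ξ ^ 2 * M / 2 ≤ t * (G ∩ S).card) ≤
        Real.exp (-(ξ ^ 2 * M / 4)) := by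
    intro t ht
    refine (Pr_tail h0 h1 hS t _).trans (Real.exp_le_exp.2 ?_)
    have e1 := mul_le_mul_of_nonneg_left (exp_sub_le (t := t) (by linarith))
      (show 0 ≤ p * S.card by positivity)
    have e2 : t ^ 2 = ξ ^ 2 / 4 := by rw [← sq_abs, ht]; ring
    rw [e2] at e1
    nlinarith [sq_nonneg ξ]
  have := add_le_add (hb (ξ / 2) (abs_of_pos (by linarith)))
    (hb (-(ξ / 2)) (by rw [abs_neg]; exact abs_of_pos (by linarith)))
  refine le_trans (Pr_le_add h0 h1 fun G _ h => ?_) (this.trans (by linarith))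
  rcases lt_abs.1 h with h | h
  · left; nlinarith
  · right; nlinarith

/-- The add-remove identity. -/
lemma mecke (h : Finset α → α → ℝ) :
    p * Ex Ω p (fun G => ∑ e ∈ Ω \ G, h G e) =
      (1 - p) * Ex Ω p (fun G => ∑ e ∈ G, h (G.erase e) e) := by
  have h1 : Ex Ω p (fun G => ∑ e ∈ Ω \ G, h G e) =
      ∑ e ∈ Ω, Ex Ω p (fun G => if e ∈ G then 0 else h G e) := by
    rw [← Ex_sum]
    refine Ex_congr fun G _ => ?_
    rw [sdiff_eq_filter, sum_filter]
    exact sum_congr rfl fun e _ => by by_cases he : e ∈ G <;> simp [he]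
  have h2 : Ex Ω p (fun G => ∑ e ∈ G, h (G.erase e) e) =
      ∑ e ∈ Ω, Ex Ω p (fun G => if e ∈ G then h (G.erase e) e else 0) := by
    rw [← Ex_sum]
    refine Ex_congr fun G hG => ?_
    rw [← sum_filter, filter_mem_eq_inter, inter_eq_right.2 hG]
  rw [h1, h2, mul_sum, mul_sum]
  refine sum_congr rfl fun e he => ?_
  obtain ⟨Ω', he', rfl⟩ : ∃ Ω', e ∉ Ω' ∧ Ω = insert e Ω' :=
    ⟨Ω.erase e, notMem_erase _ _, (insert_erase he).symm⟩
  simp only [Ex]
  rw [sum_powerset_insert he', sum_powerset_insert he']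
  simp only [mem_insert_self, if_true, mul_zero, sum_const_zero, add_zero]
  rw [sum_eq_zero (s := Ω'.powerset)
    (f := fun G => wt (insert e Ω') p G * if e ∈ G then h (G.erase e) e else 0), zero_add,
    mul_sum, mul_sum]
  · refine sum_congr rfl fun G hG => ?_
    have hG' := mem_powerset.1 hG
    have heG : e ∉ G := fun h => he' (hG' h)
    have := card_le_card hG'
    rw [if_neg heG, erase_insert heG, wt, wt, card_insert_of_notMem he', card_insert_of_notMem heG,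
      Nat.add_sub_add_right, show Ω'.card + 1 - G.card = Ω'.card - G.card + 1 by omega]
    ring
  · intro G hG
    have heG : e ∉ G := fun h => he' (mem_powerset.1 hG h)
    simp [heG]

lemma mecke_up (h0 : 0 ≤ p) (h1 : p ≤ 1) (A B : Finset α → Prop) (R : Finset α → α → Prop)
    (f b : ℝ) (hf : ∀ G ⊆ Ω, A G → f ≤ ((Ω \ G).filter (R G)).card)
    (hb : ∀ G ⊆ Ω, ((G.filter fun e => A (G.erase e) ∧ R (G.erase e) e).card : ℝ) ≤
      if B G then b else 0) : p * (f * Pr Ω p A) ≤ (1 - p) * (b * Pr Ω p B) := by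
  have := mecke (Ω := Ω) (p := p) (fun G e => if A G ∧ R G e then 1 else 0)
  refine le_trans (mul_le_mul_of_nonneg_left ?_ h0) (this.le.trans
    (mul_le_mul_of_nonneg_left ?_ (by linarith)))
  · rw [Pr, ← Ex_mul]
    refine Ex_mono h0 h1 fun G hG => ?_
    by_cases hA : A G
    · simpa [hA] using hf G hG hA
    · simp [hA]
  · rw [Pr, ← Ex_mul]
    refine Ex_mono h0 h1 fun G hG => ?_
    simpa using hb G hG

lemma mecke_down (h0 : 0 ≤ p) (h1 : p ≤ 1) (A B : Finset α → Prop) (R : Finset α → α → Prop)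
    (f b : ℝ) (hf : ∀ G ⊆ Ω, A G → f ≤ (G.filter (R G)).card)
    (hb : ∀ G ⊆ Ω, (((Ω \ G).filter fun e => A (insert e G) ∧ R (insert e G) e).card : ℝ) ≤
      if B G then b else 0) : (1 - p) * (f * Pr Ω p A) ≤ p * (b * Pr Ω p B) := by
  have := mecke (Ω := Ω) (p := p) (fun G e => if A (insert e G) ∧ R (insert e G) e then 1 else 0)
  refine le_trans (mul_le_mul_of_nonneg_left ?_ (by linarith)) (this.ge.trans
    (mul_le_mul_of_nonneg_left ?_ h0))
  · rw [Pr, ← Ex_mul]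
    refine Ex_mono h0 h1 fun G hG => ?_
    rw [sum_congr rfl (g := fun e => if A G ∧ R G e then 1 else 0)
      (fun e he => by rw [insert_erase he])]
    by_cases hA : A G
    · simpa [hA] using hf G hG hA
    · simp [hA]
  · rw [Pr, ← Ex_mul]
    refine Ex_mono h0 h1 fun G hG => ?_
    simpa using hb G hG

lemma mecke_up' (h0 : 0 ≤ p) (h1 : p ≤ 1) (A B : Finset α → Prop) (R : Finset α → α → Prop)
    (f b : ℝ) (hb0 : 0 ≤ b)
    (hf : ∀ G ⊆ Ω, A G → ∃ S ⊆ Ω \ G, (∀ e ∈ S, R G e) ∧ f ≤ S.card)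
    (hb : ∀ G ⊆ Ω, ∀ S ⊆ G, S.Nonempty → (∀ e ∈ S, A (G.erase e) ∧ R (G.erase e) e) →
      B G ∧ S.card ≤ b) : p * (f * Pr Ω p A) ≤ (1 - p) * (b * Pr Ω p B) := by
  refine mecke_up h0 h1 A B R f b (fun G hG hA => ?_) fun G hG => ?_
  · obtain ⟨S, h1, h2, h3⟩ := hf G hG hA
    exact h3.trans (Nat.cast_le.2 (card_le_card fun e he => mem_filter.2 ⟨h1 he, h2 e he⟩))
  · rcases (G.filter fun e => A (G.erase e) ∧ R (G.erase e) e).eq_empty_or_nonempty with h | h
    · rw [h]; split_ifs <;> simp [hb0]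
    · obtain ⟨h1, h2⟩ := hb G hG _ (filter_subset _ _) h fun e he => (mem_filter.1 he).2
      rwa [if_pos h1]

lemma mecke_down' (h0 : 0 ≤ p) (h1 : p ≤ 1) (A B : Finset α → Prop) (R : Finset α → α → Prop)
    (f b : ℝ) (hb0 : 0 ≤ b)
    (hf : ∀ G ⊆ Ω, A G → ∃ S ⊆ G, (∀ e ∈ S, R G e) ∧ f ≤ S.card)
    (hb : ∀ G ⊆ Ω, ∀ S ⊆ Ω \ G, S.Nonempty → (∀ e ∈ S, A (insert e G) ∧ R (insert e G) e) →
      B G ∧ S.card ≤ b) : (1 - p) * (f * Pr Ω p A) ≤ p * (b * Pr Ω p B) := by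
  refine mecke_down h0 h1 A B R f b (fun G hG hA => ?_) fun G hG => ?_
  · obtain ⟨S, h1, h2, h3⟩ := hf G hG hA
    exact h3.trans (Nat.cast_le.2 (card_le_card fun e he => mem_filter.2 ⟨h1 he, h2 e he⟩))
  · rcases ((Ω \ G).filter fun e => A (insert e G) ∧ R (insert e G) e).eq_empty_or_nonempty
      with h | h
    · rw [h]; split_ifs <;> simp [hb0]
    · obtain ⟨h1, h2⟩ := hb G hG _ (filter_subset _ _) h fun e he => (mem_filter.1 he).2
      rwa [if_pos h1]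

/-- Point masses of the size are small. -/
lemma Pr_card_eq (h0 : 0 ≤ p) (h1 : p ≤ 1) (j : ℕ) (t : ℝ) (ht : 0 < t) (ht1 : t ≤ 1) :
    p * ((Ω.card - j) * Pr Ω p (fun G => G.card = j)) ≤ Real.exp (p * Ω.card * t ^ 2) / t := by
  have h := mecke (Ω := Ω) (p := p) (fun G _ => if j ≤ G.card then 1 else 0)
  have e1 : Ex Ω p (fun G => ∑ e ∈ Ω \ G, if j ≤ G.card then (1 : ℝ) else 0) =
      (Ω.card - j) * Pr Ω p (fun G => G.card = j) +
        Ex Ω p (fun G => if j < G.card then (Ω.card - G.card : ℝ) else 0) := by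
    rw [Pr, ← Ex_mul, ← Ex_add]
    refine Ex_congr fun G hG => ?_
    rw [sum_const, nsmul_eq_mul, card_sdiff_of_subset hG, Nat.cast_sub (card_le_card hG)]
    rcases lt_trichotomy j G.card with h | h | h
    · simp [h, h.le, h.ne']
    · simp [h]
    · simp [h.ne, h.not_gt, h.not_ge]
  have e2 : Ex Ω p (fun G => ∑ e ∈ G, if j ≤ (G.erase e).card then (1 : ℝ) else 0) =
      Ex Ω p (fun G => if j < G.card then (G.card : ℝ) else 0) := by
    refine Ex_congr fun G _ => ?_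
    rw [sum_congr rfl (g := fun _ => if j < G.card then (1 : ℝ) else 0) (fun e he => by
      have := card_erase_add_one he
      exact if_congr (by omega) rfl rfl)]
    split_ifs <;> simp
  have h' : p * ((Ω.card - j) * Pr Ω p (fun G => G.card = j)) =
      Ex Ω p (fun G => (1 - p) * (if j < G.card then (G.card : ℝ) else 0) +
        (-p) * (if j < G.card then (Ω.card - G.card : ℝ) else 0)) := by
    rw [Ex_add, Ex_mul, Ex_mul, ← e2, ← h, e1]; ring
  rw [h']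
  refine (Ex_mono h0 h1 (g := fun G => (Real.exp (-(t * (p * Ω.card))) / t) *
    Real.exp (t * (G ∩ Ω).card)) fun G hG => ?_).trans ?_
  · rw [inter_eq_left.2 hG, div_mul_eq_mul_div, ← Real.exp_add]
    split_ifs
    · rw [le_div_iff₀ ht]
      linarith [Real.add_one_le_exp (-(t * (p * Ω.card)) + t * G.card)]
    · simp only [mul_zero, add_zero]; positivity
  · rw [Ex_mul, div_mul_eq_mul_div]
    refine div_le_div_of_nonneg_right ?_ ht.le
    refine (mul_le_mul_of_nonneg_left (Ex_exp h0 h1 subset_rfl t) (by positivity)).trans ?_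
    rw [← Real.exp_add]
    refine Real.exp_le_exp.2 ?_
    have := mul_le_mul_of_nonneg_left (exp_sub_le (t := t) (by rw [abs_of_pos ht]; exact ht1))
      (show 0 ≤ p * Ω.card by positivity)
    linarith

end Pool.Agent.P.MP_2d96df_co.H35
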