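import Pool.Agent.P.MP_2d96df_co.H35.Beta
import Pool.Agent.P.MP_2d96df_co.H35.Prob

/-! Probabilities of the quasirandomness events. -/

namespace Pool.Agent.P.MP_2d96df_co.H35

open Finset
open scoped Classical

set_option linter.unusedSectionVars false
set_option maxHeartbeats 400000

variable {K : Type*} [Field K] {V : Type*} [Fintype V] [DecidableEq V]
  {ι : Type*} [Fintype ι] [DecidableEq ι] {p : ℝ}

lemma card_finset_prod : ((univ : Finset (Finset V × Finset V)).card : ℝ) = 4 ^ Fintype.card V := by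
  rw [card_univ, Fintype.card_prod, Fintype.card_finset]
  push_cast
  rw [← mul_pow]; norm_num

lemma Pr_not_QR (h0 : 0 ≤ p) (h1 : p ≤ 1) {ξ : ℝ} (hξ : 0 < ξ) (hξ1 : ξ ≤ 2) :
    Pr (pr (univ : Finset V) univ) p (fun G => ¬ QR p ξ G) ≤
      4 ^ Fintype.card V * (2 * Real.exp (-(ξ ^ 2 * (p * Fintype.card V ^ 2) / 4))) := by
  refine (Pr_le_sum h0 h1 (univ : Finset (Finset V × Finset V))
    (B := fun x G => ξ * (p * Fintype.card V ^ 2) <
      |((G ∩ pr x.1 x.2).card : ℝ) - p * (pr x.1 x.2).card|) fun G _ h => ?_).trans ?_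
  · simp only [QR, not_forall, not_le] at h
    obtain ⟨A, B, h⟩ := h
    exact ⟨(A, B), mem_univ _, by rw [← mul_assoc]; exact h⟩
  · rw [← card_finset_prod, ← nsmul_eq_mul, ← sum_const]
    refine sum_le_sum fun x _ => Pr_dev h0 h1 (pr_subset _ _) hξ hξ1 ?_
    refine mul_le_mul_of_nonneg_left ?_ h0
    rw [sq]; exact_mod_cast card_pr_le x.1 x.2

lemma Pr_not_PatHit (h0 : 0 ≤ p) (h1 : p ≤ 1) (P : V → ι → K) (b : ℕ) (m : ℝ) :
    Pr (pr (univ : Finset V) univ) p (fun G => ¬ PatHit P b m G) ≤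
      (pats P b).card * (4 ^ Fintype.card V * Real.exp (-(p * m / 2))) := by
  refine (Pr_le_sum h0 h1 (pats P b ×ˢ (univ : Finset (Finset V × Finset V)))
    (B := fun y G => m < (y.1 ∩ y.2.1 ×ˢ y.2.2).card ∧
      ∀ x ∈ y.1 ∩ y.2.1 ×ˢ y.2.2, ¬ (mk2 x).IsDiag ∧ mk2 x ∉ G) fun G _ h => ?_).trans ?_
  · simp only [PatHit, not_forall, not_le] at h
    obtain ⟨T, hT, Z, Z', h, h'⟩ := h
    exact ⟨(T, Z, Z'), mem_product.2 ⟨hT, mem_univ _⟩, h', h⟩
  · rw [← card_finset_prod, ← mul_assoc, ← Nat.cast_mul, ← card_product, ← nsmul_eq_mul,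
      ← sum_const]
    refine sum_le_sum fun y _ => ?_
    by_cases hy : m < (y.1 ∩ y.2.1 ×ˢ y.2.2).card ∧ ∀ x ∈ y.1 ∩ y.2.1 ×ˢ y.2.2, ¬ (mk2 x).IsDiag
    · have hS : (y.1 ∩ y.2.1 ×ˢ y.2.2).image mk2 ⊆ pr univ univ := fun e he => by
        obtain ⟨x, hx, rfl⟩ := mem_image.1 he
        exact mem_pr_univ.2 (hy.2 x hx)
      refine (Pr_mono h0 h1 (B := fun G => ∀ e ∈ (y.1 ∩ y.2.1 ×ˢ y.2.2).image mk2, e ∉ G)
        fun G _ h e he => ?_).trans ?_
      · obtain ⟨x, hx, rfl⟩ := mem_image.1 he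
        exact (h.2 x hx).2
      · rw [Pr_avoid hS]
        have e1 : ((y.1 ∩ y.2.1 ×ˢ y.2.2).card : ℝ) ≤
            2 * ((y.1 ∩ y.2.1 ×ˢ y.2.2).image mk2).card := by
          exact_mod_cast card_le_two_mul_image _
        refine (pow_le_pow_left₀ (by linarith) (Real.one_sub_le_exp_neg p) _).trans ?_
        rw [← Real.exp_nat_mul]
        refine Real.exp_le_exp.2 ?_
        nlinarith [hy.1]
    · rw [Pr_false]
      · positivity
      · exact fun G _ h => hy ⟨h.1, fun x hx => (h.2 x hx).1⟩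

lemma card_pats_le (P : V → ι → K) {μ γ n c : ℝ} (hn : n = Fintype.card V)
    (hc : c = Fintype.card ι) (hμ : 0 < μ) (hγ : 0 < γ) (hγ1 : γ ≤ 1) (hμγ : μ ≤ γ ^ 2 / 10000)
    (hcn : c ≤ n) (hc2 : c ≤ 2 * μ ^ 10 * n) :
    ((pats P (2 * ⌊μ ^ 2 * c⌋₊)).card : ℝ) ≤ Real.exp (γ * (μ ^ 10 * n ^ 2) / 4) := by
  have hc0 : 0 ≤ c := by rw [hc]; positivity
  have hn0 : 0 ≤ n := by rw [hn]; positivity
  have hγ2 : γ ^ 2 ≤ γ := pow_le_of_le_one hγ.le hγ1 two_ne_zero
  have hμ1 : μ ≤ 1 := by linarith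
  have hp1 : μ ^ 10 ≤ μ ^ 2 := pow_le_pow_of_le_one hμ.le hμ1 (by norm_num)
  have hp2 : μ ^ 10 ≤ 1 := pow_le_one₀ hμ.le hμ1
  obtain ⟨x, hx⟩ : ∃ x, x = γ * μ ^ 10 / 32 := ⟨_, rfl⟩
  have hx0 : 0 < x := by rw [hx]; positivity
  have hx1 : x ≤ 1 / 32 := by rw [hx]; nlinarith [show 0 < μ ^ 10 by positivity]
  have h := card_pats P (2 * ⌊μ ^ 2 * c⌋₊) (1 - x) (by linarith) (by linarith)
  have e1 : Real.exp (-(γ * (μ ^ 10 * n ^ 2) / 8)) ≤
      (1 - x) ^ (2 * (Fintype.card V * Fintype.card V)) := by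
    have : Real.exp (-(2 * x)) ≤ 1 - x := by
      rw [Real.exp_neg, inv_le_comm₀ (Real.exp_pos _) (by linarith), inv_le_iff_one_le_mul₀
        (by linarith)]
      nlinarith [Real.add_one_le_exp (2 * x)]
    refine le_trans (le_of_eq ?_) (pow_le_pow_left₀ (by positivity) this _)
    rw [← Real.exp_nat_mul, hx, hn]; congr 1; push_cast; ring
  have e2 : (1 - (1 - x))⁻¹ ≤ Real.exp (32 / γ + 10 / μ) := by
    rw [sub_sub_cancel, hx, Real.exp_add, show (γ * μ ^ 10 / 32)⁻¹ = 32 / γ * (1 / μ) ^ 10 by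
      field_simp, show 10 / μ = (10 : ℕ) * (1 / μ) by push_cast; ring, Real.exp_nat_mul]
    refine mul_le_mul (by linarith [Real.add_one_le_exp (32 / γ)])
      (pow_le_pow_left₀ (by positivity) (by linarith [Real.add_one_le_exp (1 / μ)]) _)
      (by positivity) (by positivity)
  have e3 := pow_le_pow_left₀ (by rw [sub_sub_cancel]; positivity) e2
    (2 * (Fintype.card ι * Fintype.card ι + 2 * ⌊μ ^ 2 * c⌋₊ * Fintype.card ι +
        Fintype.card V * (2 * ⌊μ ^ 2 * c⌋₊)))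
  rw [← Real.exp_nat_mul] at e3
  have e4 : ((2 * (Fintype.card ι * Fintype.card ι + 2 * ⌊μ ^ 2 * c⌋₊ * Fintype.card ι +
        Fintype.card V * (2 * ⌊μ ^ 2 * c⌋₊)) : ℕ) : ℝ) ≤ 24 * μ ^ 2 * (μ ^ 10 * n ^ 2) := by
    push_cast
    rw [← hc, ← hn]
    have f1 : (⌊μ ^ 2 * c⌋₊ : ℝ) ≤ μ ^ 2 * (2 * μ ^ 10 * n) :=
      (Nat.floor_le (by positivity)).trans (mul_le_mul_of_nonneg_left hc2 (by positivity))
    have f2 : c * c ≤ (2 * μ ^ 10 * n) * (2 * μ ^ 2 * n) :=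
      mul_le_mul hc2 (hc2.trans (by nlinarith)) hc0 (by positivity)
    have f3 : (⌊μ ^ 2 * c⌋₊ : ℝ) * c ≤ μ ^ 2 * (2 * μ ^ 10 * n) * n :=
      mul_le_mul f1 hcn hc0 (by positivity)
    have f4 : (⌊μ ^ 2 * c⌋₊ : ℝ) * n ≤ μ ^ 2 * (2 * μ ^ 10 * n) * n :=
      mul_le_mul_of_nonneg_right f1 hn0
    linarith
  have e5 : 24 * μ ^ 2 * (32 / γ + 10 / μ) ≤ γ / 8 := by
    have f1 : μ ^ 2 * (32 / γ) ≤ γ * (32 / 10000) := by
      rw [mul_div_assoc', div_le_iff₀ hγ]; nlinarith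
    have f2 : μ ^ 2 * (10 / μ) = 10 * μ := by field_simp
    nlinarith
  have e6 : (1 - (1 - x))⁻¹ ^ (2 * (Fintype.card ι * Fintype.card ι +
      2 * ⌊μ ^ 2 * c⌋₊ * Fintype.card ι + Fintype.card V * (2 * ⌊μ ^ 2 * c⌋₊))) ≤
      Real.exp (γ * (μ ^ 10 * n ^ 2) / 8) := by
    refine e3.trans (Real.exp_le_exp.2 ?_)
    refine (mul_le_mul_of_nonneg_right e4 (by positivity)).trans ?_
    have := mul_le_mul_of_nonneg_right e5 (show 0 ≤ μ ^ 10 * n ^ 2 by positivity)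
    linarith
  have e7 := (mul_le_mul_of_nonneg_left e1 (Nat.cast_nonneg _)).trans (h.trans e6)
  rw [Real.exp_neg, ← div_eq_mul_inv, div_le_iff₀ (Real.exp_pos _), ← Real.exp_add] at e7
  exact e7.trans (le_of_eq (by congr 1; ring))

/-- Small sets are sparse. -/
def Sparse (a l : ℝ) (G : Finset (Sym2 V)) : Prop :=
  ∀ A : Finset V, (A.card : ℝ) ≤ a → ((G ∩ pr A A).card : ℝ) ≤ l * A.card

lemma Pr_not_Sparse (h0 : 0 ≤ p) (h1 : p ≤ 1) {ε n : ℝ} (hε : 0 < ε) (hn : n = Fintype.card V)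
    (hT : n ≤ Real.exp (p * n)) :
    Pr (pr (univ : Finset V) univ) p
      (fun G => ¬ Sparse (2 * Real.exp (-(3 / ε)) * n) (ε * (p * n)) G) ≤
      2 * Real.exp (-(p * n)) := by
  have hn0 : 0 ≤ n := by rw [hn]; positivity
  refine (Pr_le_sum h0 h1 ((univ : Finset V).powerset.erase ∅)
    (B := fun A G => (A.card : ℝ) ≤ 2 * Real.exp (-(3 / ε)) * n ∧
      3 * (p * n) * A.card ≤ 3 / ε * (G ∩ pr A A).card) fun G _ h => ?_).trans ?_
  · simp only [Sparse, not_forall, not_le] at h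
    obtain ⟨A, hA, h⟩ := h
    refine ⟨A, mem_erase.2 ⟨?_, by simp⟩, hA, ?_⟩
    · rintro rfl
      simp [pr] at h
    · have := mul_le_mul_of_nonneg_left h.le (show 0 ≤ 3 / ε by positivity)
      refine le_trans (le_of_eq ?_) this
      field_simp
  refine (sum_le_sum (g := fun A => Real.exp (-(2 * (p * n))) ^ A.card) fun A _ => ?_).trans ?_
  · by_cases hA : (A.card : ℝ) ≤ 2 * Real.exp (-(3 / ε)) * n
    · refine ((Pr_mono h0 h1 fun G _ h => h.2).trans
        (Pr_tail h0 h1 (pr_subset A A) _ _)).trans ?_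
      rw [← Real.exp_nat_mul]
      refine Real.exp_le_exp.2 ?_
      have e1 : (2 * (pr A A).card + A.card : ℝ) = A.card * A.card := by
        exact_mod_cast card_pr_self A
      have e2 : ((pr A A).card : ℝ) ≤ A.card * (Real.exp (-(3 / ε)) * n) := by
        nlinarith [Nat.cast_nonneg (α := ℝ) A.card]
      have e3 : ((pr A A).card : ℝ) * Real.exp (3 / ε) ≤ A.card * n := by
        refine (mul_le_mul_of_nonneg_right e2 (Real.exp_pos _).le).trans (le_of_eq ?_)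
        rw [Real.exp_neg]; field_simp
      have e4 := mul_le_mul_of_nonneg_left e3 h0
      have e5 : 0 ≤ p * (pr A A).card := by positivity
      linarith
    · rw [Pr_false (fun G _ h => hA h.1)]; positivity
  · have e1 := sum_pow_mul_eq_add_pow (Real.exp (-(2 * (p * n)))) 1 (univ : Finset V)
    simp only [one_pow, mul_one] at e1
    rw [← add_sum_erase _ _ (empty_mem_powerset _), card_empty, pow_zero, card_univ] at e1
    have e2 := pow_le_pow_left₀ (by positivity) (Real.add_one_le_exp (Real.exp (-(2 * (p * n)))))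
      (Fintype.card V)
    rw [← Real.exp_nat_mul, ← hn] at e2
    have e3 : n * Real.exp (-(2 * (p * n))) ≤ Real.exp (-(p * n)) := by
      refine (mul_le_mul_of_nonneg_right hT (Real.exp_pos _).le).trans (le_of_eq ?_)
      rw [← Real.exp_add]; congr 1; ring
    have e4 : Real.exp (-(p * n)) ≤ 1 := Real.exp_le_one_iff.2 (by
      have := mul_nonneg h0 hn0; linarith)
    have e5 := exp_sub_le (t := Real.exp (-(p * n))) (by rwa [abs_of_pos (Real.exp_pos _)])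
    have e6 := Real.exp_le_exp.2 e3
    have e7 := Real.exp_pos (-(p * n))
    nlinarith

/-- Minimum degree. -/
def MinDeg (a : ℝ) (G : Finset (Sym2 V)) : Prop :=
  ∀ v : V, a ≤ (univ.filter fun w => w ≠ v ∧ s(v, w) ∈ G).card

lemma Pr_not_MinDeg (h0 : 0 ≤ p) (h1 : p ≤ 1) (a t : ℝ) (ht : 0 ≤ t) :
    Pr (pr (univ : Finset V) univ) p (fun G => ¬ MinDeg a G) ≤
      Fintype.card V * Real.exp (p * (Fintype.card V - 1) * (Real.exp (-t) - 1) + t * a) := by
  refine (Pr_le_sum h0 h1 (univ : Finset V)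
    (B := fun v G => -(t * a) ≤ -t * (G ∩ pr {v} (univ.erase v)).card) fun G _ h => ?_).trans ?_
  · simp only [MinDeg, not_forall, not_le] at h
    obtain ⟨v, h⟩ := h
    refine ⟨v, mem_univ _, ?_⟩
    have e1 := card_inter_pr_le G {v} (univ.erase v)
    rw [sum_singleton] at e1
    have e2 : ((univ.erase v).filter fun b => s(v, b) ∈ G) =
        univ.filter fun w => w ≠ v ∧ s(v, w) ∈ G := by ext; simp
    rw [e2] at e1
    have e3 : ((G ∩ pr {v} (univ.erase v)).card : ℝ) ≤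
        (univ.filter fun w => w ≠ v ∧ s(v, w) ∈ G).card := by exact_mod_cast e1
    nlinarith
  · rw [← card_univ, ← nsmul_eq_mul, ← sum_const]
    refine sum_le_sum fun v _ => (Pr_tail h0 h1 (pr_subset _ _) _ _).trans (le_of_eq ?_)
    rw [card_pr_disj (by simp), card_singleton, one_mul, card_erase_of_mem (mem_univ v),
      Nat.cast_sub (card_pos.2 ⟨v, mem_univ v⟩)]
    congr 1; push_cast; ring

end Pool.Agent.P.MP_2d96df_co.H35
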