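import Pool.Agent.P.MP_2d96df_co.H35.Basic

/-! Independence, closure, generic flexes, the union of circuits and rank bounds. -/

namespace Pool.Agent.P.MP_2d96df_co.H35

open Finset Module
open scoped Classical

set_option linter.unusedSectionVars false

section LA

variable (K : Type*) [Field K] {α M : Type*} [Fintype α] [DecidableEq α] [AddCommGroup M]
  [Module K M]

/-- The subfamily of `v` indexed by `T` is independent. -/
def Indep (v : α → M) (T : Finset α) : Prop :=
  ∀ ω : α → K, (∀ g, ω g ≠ 0 → g ∈ T) → ∑ g, ω g • v g = 0 → ω = 0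

variable {K}

lemma sum_ext_zero (v : α → M) (T : Finset α) (g : T → K) :
    ∑ u, (if h : u ∈ T then g ⟨u, h⟩ else 0) • v u = ∑ u : T, g u • v u := by
  rw [← Finset.sum_subset (Finset.subset_univ T) (fun x _ hx => by simp [hx]),
    ← Finset.sum_coe_sort]
  exact sum_congr rfl fun x _ => by simp

lemma Indep.linearIndependent {v : α → M} {T : Finset α} (h : Indep K v T) :
    LinearIndependent K (fun g : T => v g) := by
  rw [Fintype.linearIndependent_iff]
  intro g hg i
  have := h (fun u => if h : u ∈ T then g ⟨u, h⟩ else 0)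
    (fun u hu => by by_contra h; simp [h] at hu) (by rw [sum_ext_zero, hg])
  simpa using congrFun this i

lemma Indep.card_le {v : α → M} {T : Finset α} (h : Indep K v T) (S : Submodule K M)
    [Module.Finite K S] (hS : ∀ g ∈ T, v g ∈ S) : T.card ≤ finrank K S := by
  have h1 : LinearIndependent K (fun g : T => (⟨v g, hS g g.2⟩ : S)) :=
    LinearIndependent.of_comp S.subtype h.linearIndependent
  simpa using h1.fintype_card_le_finrank

lemma finrank_span_image_le (v : α → M) (T : Finset α) :
    finrank K (Submodule.span K (v '' T)) ≤ T.card := by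
  have := finrank_span_finset_le_card (R := K) (T.image v)
  rw [Set.finrank, coe_image] at this
  exact this.trans card_image_le

instance finite_span_image (v : α → M) (T : Set α) :
    Module.Finite K (Submodule.span K (v '' T)) :=
  Module.Finite.span_of_finite K (Set.toFinite _)

lemma Indep.finrank_eq {v : α → M} {T : Finset α} (h : Indep K v T) :
    finrank K (Submodule.span K (v '' T)) = T.card :=
  le_antisymm (finrank_span_image_le v T)
    (h.card_le _ fun g hg => Submodule.subset_span ⟨g, hg, rfl⟩)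

lemma mem_span_image_iff (v : α → M) (S : Set α) (z : M) :
    z ∈ Submodule.span K (v '' S) ↔
      ∃ ω : α → K, (∀ g, ω g ≠ 0 → g ∈ S) ∧ ∑ g, ω g • v g = z := by
  constructor
  · intro hz
    induction hz using Submodule.span_induction with
    | mem x hx =>
      obtain ⟨g, hg, rfl⟩ := hx
      refine ⟨Pi.single g 1, fun a ha => ?_, ?_⟩
      · by_contra hc
        have : a ≠ g := fun h => hc (h ▸ hg)
        simp [this] at ha
      · rw [sum_eq_single g] <;> simp +contextual
    | zero => exact ⟨0, by simp, by simp⟩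
    | add x y _ _ hx hy =>
      obtain ⟨a, ha, rfl⟩ := hx
      obtain ⟨b, hb, rfl⟩ := hy
      refine ⟨a + b, fun g hg => ?_, by simp [add_smul, sum_add_distrib]⟩
      by_cases h : a g = 0
      · exact hb g (by simpa [h] using hg)
      · exact ha g h
    | smul c x _ hx =>
      obtain ⟨a, ha, rfl⟩ := hx
      exact ⟨c • a, fun g hg => ha g (fun h => by simp [h] at hg), by simp [smul_sum, smul_smul]⟩
  · rintro ⟨ω, hω, rfl⟩
    refine Submodule.sum_mem _ fun g _ => ?_
    by_cases h : ω g = 0
    · simp [h]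
    · exact Submodule.smul_mem _ _ (Submodule.subset_span ⟨g, hω g h, rfl⟩)

lemma mem_span_of_dep (v : α → M) (S : Set α) (ω : α → K) (e : α) (he : ω e ≠ 0)
    (hω : ∀ g, ω g ≠ 0 → g ≠ e → g ∈ S) (h : ∑ g, ω g • v g = 0) :
    v e ∈ Submodule.span K (v '' S) := by
  rw [← Finset.add_sum_erase _ _ (mem_univ e)] at h
  have : v e = -(ω e)⁻¹ • ∑ g ∈ univ.erase e, ω g • v g := by
    rw [← eq_neg_iff_add_eq_zero] at h
    rw [neg_smul, ← smul_neg, ← h, smul_smul, inv_mul_cancel₀ he, one_smul]
  rw [this]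
  refine Submodule.smul_mem _ _ (Submodule.sum_mem _ fun g hg => ?_)
  by_cases h : ω g = 0
  · simp [h]
  · exact Submodule.smul_mem _ _ (Submodule.subset_span ⟨g, hω g h (mem_erase.1 hg).1, rfl⟩)

lemma exists_basis_subset (v : α → M) (Z : Finset α) :
    ∃ B ⊆ Z, Indep K v B ∧ Submodule.span K (v '' B) = Submodule.span K (v '' Z) := by
  obtain ⟨B, hB, hmax⟩ := exists_max_image (Z.powerset.filter (fun B => Indep K v B)) card
    ⟨∅, by simp only [mem_filter, mem_powerset, empty_subset, true_and]
           intro ω hω _; ext g; by_contra h; simpa using hω g h⟩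
  simp only [mem_filter, mem_powerset] at hB hmax
  refine ⟨B, hB.1, hB.2, le_antisymm (Submodule.span_mono (Set.image_mono hB.1)) ?_⟩
  rw [Submodule.span_le]
  rintro _ ⟨z, hz, rfl⟩
  by_contra hc
  have hzB : z ∉ B := fun h => hc (Submodule.subset_span ⟨z, h, rfl⟩)
  have : Indep K v (insert z B) := by
    intro ω hω h
    by_cases hz0 : ω z = 0
    · refine hB.2 ω (fun g hg => ?_) h
      rcases mem_insert.1 (hω g hg) with rfl | h
      · exact absurd hz0 hg
      · exact h
    · exact absurd (mem_span_of_dep v B ω z hz0 (fun g hg hne => by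
        rcases mem_insert.1 (hω g hg) with h | h
        · exact absurd h hne
        · exact h) h) hc
  have := hmax _ ⟨insert_subset hz hB.1, this⟩
  rw [card_insert_of_notMem hzB] at this
  omega

end LA

variable {K : Type*} [Field K] {V : Type*} [Fintype V] [DecidableEq V]
  {ι : Type*} [Fintype ι] [DecidableEq ι]

/-- The span of the rows of `E` and of all loops. -/
def Sp (P : V → ι → K) (E : Finset (Sym2 V)) : Submodule K (V → ι → K) :=
  Submodule.span K (rho P '' {e | e ∈ E ∨ e.IsDiag})

/-- `e` lies in the support of a stress of `E`. -/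
def InC (P : V → ι → K) (E : Finset (Sym2 V)) (e : Sym2 V) : Prop :=
  ∃ ω : Sym2 V → K, (∀ g, ω g ≠ 0 → g ∈ E ∨ g.IsDiag) ∧ ∑ g, ω g • rho P g = 0 ∧ ω e ≠ 0

/-- The rows of `E` and of the loops span all rows. -/
def Rigid (P : V → ι → K) (E : Finset (Sym2 V)) : Prop := ∀ e, rho P e ∈ Sp P E

lemma rho_mem_Sp (P : V → ι → K) {E : Finset (Sym2 V)} {e : Sym2 V} (h : e ∈ E ∨ e.IsDiag) :
    rho P e ∈ Sp P E := Submodule.subset_span ⟨e, h, rfl⟩

lemma Sp_mono (P : V → ι → K) {E E' : Finset (Sym2 V)} (h : E ⊆ E') : Sp P E ≤ Sp P E' :=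
  Submodule.span_mono (Set.image_mono fun _ he => he.imp_left fun h' => h h')

lemma pair_eq_zero_of_mem_Sp {P X : V → ι → K} {E : Finset (Sym2 V)}
    (hX : ∀ e, e ∈ E ∨ e.IsDiag → pair X (rho P e) = 0) {z : V → ι → K} (hz : z ∈ Sp P E) :
    pair X z = 0 := by
  have : Sp P E ≤ LinearMap.ker (pair X) := by
    rw [Sp, Submodule.span_le]; rintro _ ⟨e, he, rfl⟩; exact hX e he
  exact this hz

lemma exists_generic_flex [CharZero K] (P : V → ι → K) (E : Finset (Sym2 V)) :
    ∃ X : V → ι → K, ∀ e, pair X (rho P e) = 0 ↔ rho P e ∈ Sp P E := by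
  let p : Submodule K (V → ι → K) :=
    { carrier := {X | ∀ z ∈ Sp P E, pair z X = 0}
      add_mem' := fun ha hb z hz => by rw [map_add, ha z hz, hb z hz, add_zero]
      zero_mem' := fun z _ => map_zero _
      smul_mem' := fun c x hx z hz => by rw [map_smul, hx z hz, smul_zero] }
  obtain ⟨X, hX, hX'⟩ := Module.Dual.exists_forall_mem_ne_zero_of_forall_exists p
    (fun e : {e // rho P e ∉ Sp P E} => pair (rho P e)) (by
      rintro ⟨e, he⟩
      obtain ⟨f, hf, hf'⟩ := Submodule.exists_le_ker_of_notMem he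
      obtain ⟨X, hX⟩ := exists_pair f
      refine ⟨X, fun z hz => ?_, ?_⟩
      · rw [pair_comm, ← hX]; exact hf' hz
      · rw [pair_comm, ← hX]; exact hf)
  refine ⟨X, fun e => ⟨fun h => ?_, fun h => ?_⟩⟩
  · by_contra hc
    exact hX' ⟨e, hc⟩ (by rw [pair_comm]; exact h)
  · rw [pair_comm]; exact hX _ h

lemma InC.mono {P : V → ι → K} {E E' : Finset (Sym2 V)} (h : E ⊆ E') {e : Sym2 V}
    (he : InC P E e) : InC P E' e := by
  obtain ⟨ω, h1, h2, h3⟩ := he
  exact ⟨ω, fun g hg => (h1 g hg).imp_left fun h' => h h', h2, h3⟩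

lemma InC.mem_Sp {P : V → ι → K} {E : Finset (Sym2 V)} {e : Sym2 V} (he : InC P E e) :
    rho P e ∈ Sp P (E.erase e) := by
  obtain ⟨ω, h1, h2, h3⟩ := he
  exact mem_span_of_dep _ _ ω e h3 (fun g hg hne => (h1 g hg).imp_left fun h' =>
    mem_erase.2 ⟨hne, h'⟩) h2

lemma InC.Sp_erase {P : V → ι → K} {E : Finset (Sym2 V)} {e : Sym2 V} (he : InC P E e) :
    Sp P (E.erase e) = Sp P E := by
  refine le_antisymm (Sp_mono P (erase_subset _ _)) ?_
  rw [Sp, Submodule.span_le]
  rintro _ ⟨g, hg, rfl⟩
  by_cases h : g = e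
  · rw [h]; exact he.mem_Sp
  · exact rho_mem_Sp P (hg.imp_left fun h' => mem_erase.2 ⟨h, h'⟩)

/-- A vertex of a stressed edge has at least `card ι` stressed edges. -/
lemma InC.deg [CharZero K] {P : V → ι → K} (hP : Gen P) {E : Finset (Sym2 V)} {v w : V}
    (he : InC P E s(v, w)) :
    Fintype.card ι ≤ (univ.filter fun x => x ≠ v ∧ s(v, x) ∈ E ∧ InC P E s(v, x)).card := by
  obtain ⟨ω, h1, h2, h3⟩ := he
  by_contra hlt
  have hrow := congrFun h2 v
  rw [sum_rho_apply] at hrow
  have := hP.indep (insert v (univ.filter fun x => x ≠ v ∧ s(v, x) ∈ E ∧ InC P E s(v, x)))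
    ((card_insert_le _ _).trans (by omega)) (Om ω v) (fun x hx => by
      rw [Om_ne] at hx
      by_cases hxv : x = v
      · simp [hxv]
      · refine mem_insert_of_mem (mem_filter.2 ⟨mem_univ _, hxv, ?_, ω, h1, h2, hx⟩)
        rcases h1 _ hx with h | h
        · exact h
        · exact absurd (Sym2.mk_isDiag_iff.1 h).symm hxv) hrow
  exact (Om_ne ω v w).2 h3 (congrFun this w)

/-- The loops. -/
def Dg (S : Finset V) : Finset (Sym2 V) := S.image Sym2.diag

lemma card_Dg (S : Finset V) : (Dg S).card = S.card :=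
  card_image_of_injective _ Sym2.diag_injective

lemma mem_Dg {S : Finset V} {u w : V} : s(u, w) ∈ Dg S ↔ u = w ∧ u ∈ S := by
  simp only [Dg, mem_image, Sym2.diag, Sym2.eq_iff]
  constructor
  · rintro ⟨a, ha, ⟨rfl, rfl⟩ | ⟨rfl, rfl⟩⟩ <;> exact ⟨rfl, ha⟩
  · rintro ⟨rfl, h⟩; exact ⟨u, h, Or.inl ⟨rfl, rfl⟩⟩

lemma mem_Dg_univ {e : Sym2 V} : e ∈ Dg (univ : Finset V) ↔ e.IsDiag := by
  induction e using Sym2.ind with
  | h a b => simp [mem_Dg]

lemma Sp_eq (P : V → ι → K) (E : Finset (Sym2 V)) :
    Sp P E = Submodule.span K (rho P '' (E ∪ Dg univ : Finset (Sym2 V))) := by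
  unfold Sp; congr 2; ext e; simp [mem_Dg_univ]

lemma finrank_Sp_le (P : V → ι → K) (E : Finset (Sym2 V)) :
    finrank K (Sp P E) ≤ E.card + Fintype.card V := by
  rw [Sp_eq]
  refine (finrank_span_image_le _ _).trans ((card_union_le _ _).trans ?_)
  rw [card_Dg, card_univ]

lemma eq_zero_of_Om [CharZero K] {ω : Sym2 V → K} (h : ∀ v, Om ω v = 0) : ω = 0 := by
  ext e
  induction e using Sym2.ind with
  | h a b =>
    by_contra hc
    exact (Om_ne ω a b).2 hc (congrFun (h a) b)

/-- All rows lie in the span of the rows touching a set of `card ι` vertices. -/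
lemma finrank_all_le {P : V → ι → K} (hP : Gen P) (hc : Fintype.card ι ≤ Fintype.card V) :
    finrank K (Sp P univ) + (Fintype.card V - Fintype.card ι + 1).choose 2 ≤
      (Fintype.card V + 1).choose 2 := by
  obtain ⟨B, -, hB⟩ := exists_subset_card_eq (s := (univ : Finset V)) (n := Fintype.card ι)
    (by simpa using hc)
  have hle : Sp P univ ≤ Submodule.span K (rho P '' (univ \ Bᶜ.sym2 : Finset (Sym2 V))) := by
    rw [Sp, Submodule.span_le]
    rintro _ ⟨e, -, rfl⟩
    by_contra hc
    obtain ⟨f, hf, hf'⟩ := Submodule.exists_le_ker_of_notMem hc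
    obtain ⟨X, hX⟩ := exists_pair f
    have hz : ∀ a b, a ∈ B ∨ b ∈ B → MM P X a b = 0 := by
      intro a b hab
      rw [← pair_rho, ← hX]
      refine hf' (Submodule.subset_span ⟨s(a, b), ?_, rfl⟩)
      simp only [coe_sdiff, coe_univ, Set.mem_sdiff, Set.mem_univ, mem_coe, mk_mem_sym2_iff,
        mem_compl, true_and]
      tauto
    induction e using Sym2.ind with
    | h u w =>
      apply hf
      rw [hX, pair_rho]
      obtain ⟨a, ha, has⟩ := hP.span B hB (P u)
      obtain ⟨b, hb, hbs⟩ := hP.span B hB (P w)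
      have h1 : ∑ x, (Pi.single u 1 - a : V → K) x • P x = 0 := by
        simp [sub_smul, sum_sub_distrib, has, Pi.single_apply]
      have h2 : ∑ x, (Pi.single w 1 - b : V → K) x • P x = 0 := by
        simp [sub_smul, sum_sub_distrib, hbs, Pi.single_apply]
      have h3 := MM_bilin P X (Pi.single u 1 - a) (Pi.single w 1 - b)
      rw [h1, h2] at h3
      simp only [zero_dotProduct, dotProduct_zero, add_zero] at h3
      have h4 : ∀ x y, (Pi.single u 1 - a : V → K) x * (Pi.single w 1 - b : V → K) y *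
          MM P X x y = (Pi.single u 1 : V → K) x * (Pi.single w 1 : V → K) y * MM P X x y := by
        intro x y
        by_cases hx : a x = 0
        · by_cases hy : b y = 0
          · simp [hx, hy]
          · simp [hz x y (Or.inr (hb y hy))]
        · simp [hz x y (Or.inl (ha x hx))]
      simp only [h4] at h3
      simpa [Pi.single_apply] using h3
  have h1 := (Submodule.finrank_mono hle).trans (finrank_span_image_le _ _)
  rw [card_sdiff_of_subset (subset_univ _), card_sym2, card_compl, hB, card_univ,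
    Sym2.card] at h1
  have h2 : (Fintype.card V - Fintype.card ι + 1).choose 2 ≤ (Fintype.card V + 1).choose 2 :=
    Nat.choose_le_choose _ (by omega)
  omega

/-- Rank of a clique together with the loops. -/
lemma clique_rank [CharZero K] {P : V → ι → K} (hP : Gen P) (h1 : 1 ≤ Fintype.card ι)
    (S : Submodule K (V → ι → K)) (Y : Finset V) (hc : Fintype.card ι ≤ Y.card)
    (hY : ∀ u ∈ Y, ∀ w ∈ Y, rho P s(u, w) ∈ S) (hD : ∀ u, rho P s(u, u) ∈ S) :
    (Y.card + 1).choose 2 + Fintype.card V ≤
      finrank K S + Y.card + (Y.card - Fintype.card ι + 1).choose 2 := by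
  obtain ⟨B, hBY, hB⟩ := exists_subset_card_eq hc
  have hI : Indep K (rho P) ((Y.sym2 \ (Y \ B).sym2) ∪ Dg Yᶜ) := by
    intro ω hω h
    have hω' : ∀ v w, Om ω v w ≠ 0 → (v ∈ Y ∧ w ∈ Y ∧ (v ∈ B ∨ w ∈ B)) ∨ (v = w ∧ v ∉ Y) := by
      intro v w hvw
      have := hω _ ((Om_ne ω v w).1 hvw)
      simp only [mem_union, mem_sdiff, mk_mem_sym2_iff, mem_Dg, mem_compl] at this
      tauto
    have hrow : ∀ v, ∑ w, Om ω v w • P w = 0 := fun v => by
      rw [← sum_rho_apply, h]; rfl
    have hA : ∀ v ∉ B, Om ω v = 0 := by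
      intro v hv
      by_cases hvY : v ∈ Y
      · exact hP.indep B hB.le _ (fun x hx => by have := hω' v x hx; tauto) (hrow v)
      · exact hP.indep {v} (by simpa using h1) _ (fun x hx => by
          have := hω' v x hx
          rcases this with h | h
          · exact absurd h.1 hvY
          · simp [h.1]) (hrow v)
    refine eq_zero_of_Om fun v => ?_
    refine hP.indep B hB.le _ (fun x hx => ?_) (hrow v)
    by_contra hxB
    rw [Om_ne, Sym2.eq_swap, ← Om_ne] at hx
    exact hx (congrFun (hA x hxB) v)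
  have hcard := hI.card_le S (by
    intro g hg
    induction g using Sym2.ind with
    | h a b =>
      simp only [mem_union, mem_sdiff, mk_mem_sym2_iff, mem_Dg, mem_compl] at hg
      rcases hg with h | h
      · exact hY a h.1.1 b h.1.2
      · rw [← h.1]; exact hD a)
  rw [card_union_of_disjoint, card_sdiff_of_subset (sym2_mono sdiff_subset), card_sym2,
    card_sym2, card_Dg, card_compl, card_sdiff_of_subset hBY, hB] at hcard
  · have h2 : (Y.card - Fintype.card ι + 1).choose 2 ≤ (Y.card + 1).choose 2 :=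
      Nat.choose_le_choose _ (by omega)
    have h3 : Y.card ≤ Fintype.card V := card_le_univ _
    omega
  · rw [disjoint_left]
    intro g hg hg'
    induction g using Sym2.ind with
    | h a b =>
      simp only [mem_sdiff, mk_mem_sym2_iff, mem_Dg, mem_compl] at hg hg'
      exact hg'.2 hg.1.1

/-- Enough edges and not rigid: there is a stressed edge. -/
lemma exists_InC [CharZero K] {P : V → ι → K} (hP : Gen P) (h1 : 1 ≤ Fintype.card ι)
    (hc : Fintype.card ι ≤ Fintype.card V) {E : Finset (Sym2 V)} (hE : ∀ e ∈ E, ¬ e.IsDiag)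
    (hcard : (Fintype.card V + 1).choose 2 ≤
      E.card + Fintype.card V + (Fintype.card V - Fintype.card ι + 1).choose 2)
    (hR : ¬ Rigid P E) : ∃ e ∈ E, InC P E e := by
  by_contra hno
  push Not at hno
  have hI : Indep K (rho P) (E ∪ Dg univ) := by
    intro ω hω h
    have hω' : ∀ g, ω g ≠ 0 → g ∈ E ∨ g.IsDiag := fun g hg => by
      simpa [mem_Dg_univ] using hω g hg
    refine eq_zero_of_Om fun v => ?_
    refine hP.indep {v} (by simpa using h1) _ (fun x hx => ?_) (by
      rw [← sum_rho_apply, h]; rfl)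
    rw [Om_ne] at hx
    rcases hω' _ hx with h' | h'
    · exact absurd ⟨ω, hω', h, hx⟩ (hno _ h')
    · simp [(Sym2.mk_isDiag_iff.1 h')]
  have h2 := hI.finrank_eq
  rw [← Sp_eq, card_union_of_disjoint, card_Dg, card_univ] at h2
  · have h3 := finrank_all_le hP hc
    have h4 : Sp P E = Sp P univ :=
      Submodule.eq_of_le_of_finrank_le (Sp_mono P (subset_univ _)) (by omega)
    exact hR fun e => h4 ▸ rho_mem_Sp P (Or.inl (mem_univ e))
  · rw [disjoint_left]; intro g hg hg'; exact hE g hg (mem_Dg_univ.1 hg')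

lemma Rigid.finrank_Sp [CharZero K] {P : V → ι → K} (hP : Gen P) (h1 : 1 ≤ Fintype.card ι)
    (hc : Fintype.card ι ≤ Fintype.card V) {E : Finset (Sym2 V)} (hR : Rigid P E) :
    finrank K (Sp P E) + (Fintype.card V - Fintype.card ι + 1).choose 2 =
      (Fintype.card V + 1).choose 2 := by
  have h2 := finrank_all_le hP hc
  have h3 := clique_rank hP h1 (Sp P E) univ (by simpa using hc) (fun u _ w _ => hR _)
    (fun u => hR _)
  have h4 : finrank K (Sp P E) ≤ finrank K (Sp P univ) :=
    Submodule.finrank_mono (Sp_mono P (subset_univ _))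
  rw [card_univ] at h3
  omega

end Pool.Agent.P.MP_2d96df_co.H35
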