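import Pool.Agent.P.MP_2d96df_co.H35.Quasi

/-! The two contraction steps. -/

namespace Pool.Agent.P.MP_2d96df_co.H35

open Finset
open scoped Classical

set_option linter.unusedSectionVars false
set_option maxHeartbeats 400000

variable {K : Type*} [Field K] [CharZero K] {V : Type*} [Fintype V] [DecidableEq V]
  {ι : Type*} [Fintype ι] [DecidableEq ι] {p : ℝ}

lemma card_C {P : V → ι → K} (hP : Gen P) (E : Finset (Sym2 V)) (U : Finset V)
    (h : ∀ v ∈ U, ∃ w, InC P E s(v, w)) :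
    Fintype.card ι * U.card ≤ 2 * (E.filter (InC P E)).card := by
  have h1 := sum_deg_le (E.filter (InC P E)) univ
  refine le_trans ?_ (h1.trans (Nat.mul_le_mul_left _ (card_le_card inter_subset_left)))
  refine le_trans ?_ (sum_le_sum_of_subset (subset_univ U))
  rw [mul_comm, ← smul_eq_mul, ← sum_const]
  refine sum_le_sum fun v hv => ?_
  obtain ⟨w, hw⟩ := h v hv
  simpa only [mem_filter] using hw.deg hP

/-- Every vertex of `U` meets a stressed edge of the graph induced on `U`. -/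
def Cov (P : V → ι → K) (U : Finset V) (G : Finset (Sym2 V)) : Prop :=
  ∀ v ∈ U, ∃ w, InC P (G ∩ pr U U) s(v, w)

lemma cov_self (P : V → ι → K) (G : Finset (Sym2 V)) :
    Cov P (univ.filter fun v => ∃ w, InC P G s(v, w)) G := by
  intro v hv
  obtain ⟨w, ω, h1, h2, h3⟩ := (mem_filter.1 hv).2
  refine ⟨w, ω, fun g hg => ?_, h2, h3⟩
  by_cases hd : g.IsDiag
  · exact Or.inr hd
  · left
    refine mem_inter.2 ⟨(h1 g hg).resolve_right hd, ?_⟩
    induction g using Sym2.ind with
    | h a b =>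
      refine mem_pr_self.2 ⟨by simpa using hd, mem_filter.2 ⟨mem_univ _, b, ω, h1, h2, hg⟩,
        mem_filter.2 ⟨mem_univ _, a, ω, h1, h2, by rwa [Sym2.eq_swap]⟩⟩

lemma supp_subset {P X : V → ι → K} {E : Finset (Sym2 V)}
    (hX : ∀ e, pair X (rho P e) = 0 ↔ rho P e ∈ Sp P E) (U : Finset V) {e : Sym2 V}
    (he : e ∈ supp P X U) : e ∈ pr U U ∧ rho P e ∉ Sp P E := by
  have h2 : rho P e ∉ Sp P E := fun h => (mem_filter.1 he).2 ((hX e).2 h)
  refine ⟨?_, h2⟩
  induction e using Sym2.ind with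
  | h a b =>
    have := mem_supp.1 he
    refine mem_pr_self.2 ⟨?_, this.1, this.2.1⟩
    rintro rfl
    exact h2 (rho_mem_Sp P (Or.inr (by simp)))

lemma stepA (h0 : 0 ≤ p) (h1 : p ≤ 1) {P : V → ι → K} (hP : Gen P) (U : Finset V)
    (Good : Finset (Sym2 V) → Prop) (f e0 b : ℝ) (hb0 : 0 ≤ b)
    (hb : e0 + 1 - Fintype.card ι * U.card / 2 ≤ b)
    (hf : ∀ G, Good G → Cov P U G → ∀ X : V → ι → K,
      (∀ e, pair X (rho P e) = 0 ↔ rho P e ∈ Sp P (G ∩ pr U U)) → f ≤ (supp P X U).card)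
    (he : ∀ G, Good G → ((G ∩ pr U U).card : ℝ) ≤ e0) :
    p * (f * Pr (pr univ univ) p (fun G => Cov P U G ∧ Good G)) ≤
      (1 - p) * (b * Pr (pr univ univ) p (Cov P U)) := by
  refine mecke_up' h0 h1 _ _ (fun G e => e ∈ pr U U ∧ rho P e ∉ Sp P (G ∩ pr U U)) f b hb0 ?_ ?_
  · intro G _ hG
    obtain ⟨X, hX⟩ := exists_generic_flex P (G ∩ pr U U)
    refine ⟨supp P X U, fun e he => ?_, fun e he => supp_subset hX U he, hf G hG.2 hG.1 X hX⟩
    obtain ⟨e1, e2⟩ := supp_subset hX U he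
    exact mem_sdiff.2 ⟨pr_subset _ _ e1, fun h =>
      e2 (rho_mem_Sp P (Or.inl (mem_inter.2 ⟨h, e1⟩)))⟩
  · rintro G _ S hS ⟨e0', he0⟩ hall
    obtain ⟨⟨hc, hg⟩, -, -⟩ := hall _ he0
    have hcov : Cov P U G := fun v hv => by
      obtain ⟨w, hw⟩ := hc v hv
      exact ⟨w, hw.mono (inter_subset_inter_right (erase_subset _ _))⟩
    refine ⟨hcov, ?_⟩
    have e1 : S.card + ((G ∩ pr U U).filter (InC P (G ∩ pr U U))).card ≤ (G ∩ pr U U).card := by
      rw [← card_union_of_disjoint]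
      · refine card_le_card (union_subset (fun e he => ?_) (filter_subset _ _))
        exact mem_inter.2 ⟨hS he, (hall e he).2.1⟩
      · rw [disjoint_left]
        intro e he he'
        apply (hall e he).2.2
        rw [erase_inter]
        exact (mem_filter.1 he').2.mem_Sp
    have e2 := card_C hP (G ∩ pr U U) U hcov
    have e3 : (G ∩ pr U U).card ≤ (G.erase e0' ∩ pr U U).card + 1 := by
      rw [erase_inter]; exact Nat.sub_le_iff_le_add.1 pred_card_le_card_erase
    have e4 := he _ hg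
    have e1' := (Nat.cast_le (α := ℝ)).2 e1
    have e2' := (Nat.cast_le (α := ℝ)).2 e2
    have e3' := (Nat.cast_le (α := ℝ)).2 e3
    push_cast at e1' e2' e3'
    linarith

lemma stepB (h0 : 0 ≤ p) (h1 : p ≤ 1) (P : V → ι → K) (j : ℕ)
    (Good : Finset (Sym2 V) → Prop) (f m0 f0 b : ℝ) (hb0 : 0 ≤ b)
    (hb : (pr (univ : Finset V) univ).card - m0 + 1 - f0 ≤ b)
    (hf : ∀ G ⊆ pr univ univ, Good G → ¬ Rigid P G → j ≤ G.card →
      f ≤ (G.filter (InC P G)).card ∧ m0 ≤ G.card ∧ ∀ X : V → ι → K,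
      (∀ e, pair X (rho P e) = 0 ↔ rho P e ∈ Sp P G) → f0 ≤ (supp P X univ).card) :
    (1 - p) * (f * Pr (pr univ univ) p (fun G => (¬ Rigid P G ∧ j ≤ G.card) ∧ Good G)) ≤
      p * (b * Pr (pr univ univ) p (fun G => ¬ Rigid P G ∧ j ≤ G.card + 1)) := by
  refine mecke_down' h0 h1 _ _ (fun G e => InC P G e) f b hb0 ?_ ?_
  · intro G hG h
    exact ⟨_, filter_subset _ _, fun e he => (mem_filter.1 he).2, (hf G hG h.2 h.1.1 h.1.2).1⟩
  · rintro G hG S hS ⟨e0, he0⟩ hall
    have hsp : ∀ e, e ∉ G → InC P (insert e G) e → Sp P G = Sp P (insert e G) := fun e he h => by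
      rw [← h.Sp_erase, erase_insert he]
    obtain ⟨⟨⟨hr, hj⟩, hg⟩, hc⟩ := hall _ he0
    have he1 := mem_sdiff.1 (hS he0)
    have hs0 := hsp e0 he1.2 hc
    obtain ⟨-, e2, e3⟩ := hf _ (insert_subset he1.1 hG) hg hr hj
    rw [card_insert_of_notMem he1.2] at hj e2
    refine ⟨⟨by rwa [Rigid, hs0], hj⟩, ?_⟩
    obtain ⟨X, hX⟩ := exists_generic_flex P (insert e0 G)
    have e4 := e3 X hX
    have e1 : S.card + (supp P X univ).card ≤ (pr univ univ \ G).card := by
      rw [← card_union_of_disjoint]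
      · refine card_le_card (union_subset hS fun e he => ?_)
        obtain ⟨a1, a2⟩ := supp_subset hX univ he
        exact mem_sdiff.2 ⟨a1, fun h => a2 (rho_mem_Sp P (Or.inl (mem_insert_of_mem h)))⟩
      · rw [disjoint_left]
        intro e he he'
        apply (supp_subset hX univ he').2
        rw [← hs0, hsp e (mem_sdiff.1 (hS he)).2 (hall e he).2]
        exact rho_mem_Sp P (Or.inl (mem_insert_self _ _))
    rw [card_sdiff_of_subset hG] at e1
    have e1' := (Nat.cast_le (α := ℝ)).2 e1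
    push_cast [Nat.cast_sub (card_le_card hG)] at e1' e2
    linarith

/-- Outside a clique that few edges join to the rest, many vertices remain. -/
lemma far_clique {G : Finset (Sym2 V)} {a l c : ℝ} (hs : Sparse a l G)
    (hm : MinDeg (c + 2 * l + 1) G) (Y : Finset V) (hY : Y ≠ univ)
    (hout : ∀ v ∈ univ \ Y, ((Y.filter fun b => s(v, b) ∈ G).card : ℝ) ≤ c) :
    Y.card + a ≤ Fintype.card V := by
  by_contra hc
  have hA : ((univ \ Y).card : ℝ) = Fintype.card V - Y.card := by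
    rw [card_sdiff_of_subset (subset_univ _), Nat.cast_sub (card_le_card (subset_univ _)),
      card_univ]
  have h1 := hs (univ \ Y) (by linarith)
  have h2 := (Nat.cast_le (α := ℝ)).2 (sum_deg_le G (univ \ Y))
  push_cast at h2
  have h3 : ∀ v ∈ univ \ Y, 2 * l + 1 ≤
      (((univ \ Y).filter fun b => b ≠ v ∧ s(v, b) ∈ G).card : ℝ) := by
    intro v hv
    have e1 : (univ.filter fun w => w ≠ v ∧ s(v, w) ∈ G).card ≤
        (Y.filter fun b => s(v, b) ∈ G).card +
          ((univ \ Y).filter fun b => b ≠ v ∧ s(v, b) ∈ G).card := by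
      refine le_trans (card_le_card ?_) (card_union_le _ _)
      intro x hx
      simp only [mem_filter, mem_union, mem_sdiff, mem_univ, true_and] at hx ⊢
      tauto
    have e1' := (Nat.cast_le (α := ℝ)).2 e1
    push_cast at e1'
    linarith [hm v, hout v hv]
  have h4 := sum_le_sum h3
  rw [sum_const, nsmul_eq_mul] at h4
  have h5 : (0 : ℝ) < (univ \ Y).card := by
    exact_mod_cast card_pos.2 (sdiff_nonempty.2 fun h => hY (univ_subset_iff.1 h))
  linarith

end Pool.Agent.P.MP_2d96df_co.H35
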