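import Pool.Agent.P.MP_2d96df_co.H35.Clique

/-! Structure of dense parts of the zero pattern of a motion. -/

namespace Pool.Agent.P.MP_2d96df_co.H35

open Finset Module
open scoped Classical

set_option linter.unusedSectionVars false
set_option maxHeartbeats 400000

variable {K : Type*} [Field K] {V : Type*} [Fintype V] [DecidableEq V]
  {ι : Type*} [Fintype ι] [DecidableEq ι]

/-- Closed neighbourhood in the zero pattern. -/
noncomputable def nb (P X : V → ι → K) (Y : Finset V) (v : V) : Finset V :=
  Y.filter fun u => MM P X v u = 0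

/-- Rank of the extended vectors on `Z`. -/
noncomputable def rk2 (P X : V → ι → K) (Z : Finset V) : ℕ :=
  finrank K (Submodule.span K ((fun u => (P u, X u)) '' Z))

lemma star_sum [CharZero K] {P X : V → ι → K} (hP : Gen P) (r : V → ℤ)
    (hr : Function.Injective r) (S T : Finset V) (hST : Disjoint S T) :
    ∃ I : Finset (Sym2 V), Indep K (rho P) I ∧
      (∀ e ∈ I, (∀ x ∈ e, x ∈ S ∪ T) ∧ pair X (rho P e) = 0) ∧
      ∑ v ∈ T, rk2 P X (nb P X (S ∪ T.filter fun x => r x ≤ r v) v) ≤ I.card := by
  induction T using Finset.induction_on_max_value r with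
  | empty => exact ⟨∅, fun ω hω _ => by ext g; by_contra h; simpa using hω g h, by simp, by simp⟩
  | insert a s ha hmax ih =>
    rw [disjoint_insert_right] at hST
    obtain ⟨I, hI, hI2, hI3⟩ := ih hST.2
    obtain ⟨B, hB, hBi, hBs⟩ := exists_basis_subset (K := K) (fun u => (P u, X u))
      (nb P X (S ∪ insert a s) a)
    have haI : ∀ w, s(a, w) ∉ I := fun w h => by
      have := (hI2 _ h).1 a (by simp)
      simp [ha, hST.1] at this
    refine ⟨I ∪ B.image (fun w => s(a, w)), ?_, ?_, ?_⟩
    · intro ω hω h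
      have hF : ∀ e, ω e ≠ 0 → pair X (rho P e) = 0 := by
        intro e he
        rcases mem_union.1 (hω e he) with h' | h'
        · exact (hI2 e h').2
        · obtain ⟨w, hw, rfl⟩ := mem_image.1 h'
          rw [pair_rho]; exact (mem_filter.1 (hB hw)).2
      have hX := hP.stress_flex ω h hF
      have h1 := congrFun h a
      have h2 := congrFun hX a
      rw [sum_rho_apply] at h1 h2
      have h3 := hBi (Om ω a) (fun w hw => by
        rw [Om_ne] at hw
        rcases mem_union.1 (hω _ hw) with h' | h'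
        · exact absurd h' (haI w)
        · obtain ⟨w', hw', he⟩ := mem_image.1 h'
          exact (Sym2.congr_right.1 he) ▸ hw') (by
          ext i
          · simpa [Prod.fst_sum] using congrFun h1 i
          · simpa [Prod.snd_sum] using congrFun h2 i)
      refine hI ω (fun e he => ?_) h
      rcases mem_union.1 (hω e he) with h' | h'
      · exact h'
      · obtain ⟨w, hw, rfl⟩ := mem_image.1 h'
        exact absurd (congrFun h3 w) ((Om_ne ω a w).2 he)
    · intro e he
      rcases mem_union.1 he with h' | h'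
      · refine ⟨fun x hx => ?_, (hI2 e h').2⟩
        have := (hI2 e h').1 x hx
        simp only [mem_union, mem_insert] at this ⊢
        tauto
      · obtain ⟨w, hw, rfl⟩ := mem_image.1 h'
        have := mem_filter.1 (hB hw)
        refine ⟨fun x hx => ?_, by rw [pair_rho]; exact this.2⟩
        rcases Sym2.mem_iff.1 hx with rfl | rfl
        · simp
        · exact this.1
    · rw [sum_insert ha, card_union_of_disjoint, card_image_of_injective _
        (fun x y h => Sym2.congr_right.1 h)]
      · have e1 : (insert a s).filter (fun x => r x ≤ r a) = insert a s :=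
          filter_true_of_mem fun x hx => by
            rcases mem_insert.1 hx with rfl | h
            · exact le_rfl
            · exact hmax x h
        have e2 : ∑ v ∈ s, rk2 P X (nb P X (S ∪ (insert a s).filter fun x => r x ≤ r v) v) =
            ∑ v ∈ s, rk2 P X (nb P X (S ∪ s.filter fun x => r x ≤ r v) v) := by
          refine sum_congr rfl fun v hv => ?_
          rw [filter_insert, if_neg]
          intro h
          exact ha (hr (le_antisymm h (hmax v hv)) ▸ hv)
        have e3 := hBi.finrank_eq
        rw [hBs] at e3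
        rw [e1, e2, rk2, e3]; omega
      · rw [disjoint_right]
        intro e he
        obtain ⟨w, -, rfl⟩ := mem_image.1 he
        exact haI w

lemma indep_card_le {P : V → ι → K} {I : Finset (Sym2 V)} (hI : Indep K (rho P) I) (Y : Finset V)
    (hY : ∀ e ∈ I, ∀ x ∈ e, x ∈ Y) : I.card ≤ Fintype.card ι * Y.card := by
  have hmem : ∀ u ∈ Y, ∀ y : ι → K, (Pi.single u y : V → ι → K) ∈ Submodule.span K
      ((fun x : V × ι => (Pi.single x.1 (Pi.single x.2 1) : V → ι → K)) ''
        (Y ×ˢ (univ : Finset ι) : Finset (V × ι))) := by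
    intro u hu y
    have : (Pi.single u y : V → ι → K) =
        ∑ i, y i • (Pi.single u (Pi.single i 1) : V → ι → K) := by
      ext v i
      by_cases h : v = u
      · subst h; simp [Finset.sum_apply, Pi.single_apply]
      · simp [Finset.sum_apply, Pi.single_eq_of_ne h]
    rw [this]
    exact Submodule.sum_mem _ fun i _ => Submodule.smul_mem _ _
      (Submodule.subset_span ⟨(u, i), by simp [hu], rfl⟩)
  have h1 := hI.card_le _ (fun e he => by
    induction e using Sym2.ind with
    | h a b =>
      rw [rho_mk]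
      exact Submodule.add_mem _ (hmem a (hY _ he a (by simp)) _) (hmem b (hY _ he b (by simp)) _))
  have h2 := h1.trans (finrank_span_image_le _ _)
  rwa [card_product, card_univ, mul_comm] at h2

lemma le_rk2 {P : V → ι → K} (hP : Gen P) (X : V → ι → K) {Z : Finset V}
    (hZ : Fintype.card ι ≤ Z.card) : Fintype.card ι ≤ rk2 P X Z := by
  obtain ⟨B, hB, hBc⟩ := exists_subset_card_eq hZ
  have hI : Indep K (fun u => (P u, X u)) B := fun ω hω h =>
    hP.indep B hBc.le ω hω (by simpa [Prod.fst_sum] using congrArg Prod.fst h)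
  rw [← hBc]
  exact hI.card_le _ fun g hg => Submodule.subset_span ⟨g, hB hg, rfl⟩

lemma rk2_mono (P X : V → ι → K) {A B : Finset V} (h : A ⊆ B) : rk2 P X A ≤ rk2 P X B :=
  Submodule.finrank_mono (Submodule.span_mono (Set.image_mono h))

lemma rk2_submod (P X : V → ι → K) (A B : Finset V) :
    rk2 P X (A ∪ B) + rk2 P X (A ∩ B) ≤ rk2 P X A + rk2 P X B := by
  unfold rk2
  rw [← Submodule.finrank_sup_add_finrank_inf_eq (Submodule.span K ((fun u => (P u, X u)) '' A)),
    coe_union, Set.image_union, Submodule.span_union]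
  refine Nat.add_le_add_left ?_ _
  apply Submodule.finrank_mono
  exact le_inf (Submodule.span_mono (Set.image_mono (coe_subset.2 inter_subset_left)))
    (Submodule.span_mono (Set.image_mono (coe_subset.2 inter_subset_right)))

lemma exists_seed (Y : Finset V) (N : V → Finset V) (c : ℕ) (g D : ℝ)
    (hD : ∀ v ∈ Y, D ≤ (Y ∩ N v).card) :
    ∃ S ⊆ Y, g * S.card ≤ c * Y.card ∧
      (Y.filter fun v => (S ∩ N v).card < c).card * (D - c) ≤ g * (Y \ S).card := by
  obtain ⟨S, hS, hmax⟩ := exists_max_image Y.powerset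
    (fun S => ((∑ v ∈ Y, min c (S ∩ N v).card : ℕ) : ℝ) - g * S.card) ⟨∅, by simp⟩
  rw [mem_powerset] at hS
  refine ⟨S, hS, ?_, ?_⟩
  · have h1 := hmax ∅ (by simp)
    have h2 : ∑ v ∈ Y, min c (S ∩ N v).card ≤ c * Y.card := by
      rw [mul_comm, ← smul_eq_mul, ← sum_const]
      exact sum_le_sum fun v _ => min_le_left _ _
    have h3 : ((∑ v ∈ Y, min c (S ∩ N v).card : ℕ) : ℝ) ≤ c * Y.card := by exact_mod_cast h2
    simp only [empty_inter, card_empty, Nat.min_zero, sum_const_zero, Nat.cast_zero, mul_zero,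
      sub_zero] at h1
    linarith
  · set Un := Y.filter fun v => (S ∩ N v).card < c with hUn
    have h1 : ∀ s ∈ Y \ S, ((Un.filter fun v => s ∈ N v).card : ℝ) ≤ g := by
      intro s hs
      rw [mem_sdiff] at hs
      have h2 := hmax (insert s S) (mem_powerset.2 (insert_subset hs.1 hS))
      have h3 : ∑ v ∈ Y, min c (S ∩ N v).card + (Un.filter fun v => s ∈ N v).card ≤
          ∑ v ∈ Y, min c (insert s S ∩ N v).card := by
        rw [hUn, filter_filter, card_filter, ← sum_add_distrib]
        refine sum_le_sum fun v _ => ?_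
        by_cases h : s ∈ N v
        · rw [insert_inter_of_mem h, card_insert_of_notMem (by simp [hs.2])]
          split_ifs <;> omega
        · rw [insert_inter_of_notMem h]; simp [h]
      have h4 : ((∑ v ∈ Y, min c (S ∩ N v).card : ℕ) : ℝ) + (Un.filter fun v => s ∈ N v).card ≤
          ((∑ v ∈ Y, min c (insert s S ∩ N v).card : ℕ) : ℝ) := by exact_mod_cast h3
      simp only [card_insert_of_notMem hs.2] at h2
      push_cast at h2 h4 ⊢
      linarith
    have h5 : ∑ s ∈ Y \ S, ((Un.filter fun v => s ∈ N v).card : ℝ) =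
        ∑ v ∈ Un, (((Y \ S).filter fun s => s ∈ N v).card : ℝ) := by
      simp only [card_filter]; push_cast
      exact sum_comm
    have h6 : ∀ v ∈ Un, D - c ≤ (((Y \ S).filter fun s => s ∈ N v).card : ℝ) := by
      intro v hv
      rw [hUn, mem_filter] at hv
      have h7 : (Y ∩ N v).card ≤ ((Y \ S).filter fun s => s ∈ N v).card + (S ∩ N v).card := by
        refine le_trans (card_le_card ?_) (card_union_le _ _)
        intro x hx
        simp only [mem_inter, mem_union, mem_filter, mem_sdiff] at hx ⊢
        tauto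
      have h8 : ((Y ∩ N v).card : ℝ) ≤ ((Y \ S).filter fun s => s ∈ N v).card + c := by
        have := hv.2; exact_mod_cast (by omega)
      linarith [hD v hv.1]
    have h7 := sum_le_sum h1
    have h8 := sum_le_sum h6
    simp only [sum_const, nsmul_eq_mul] at h7 h8
    linarith

lemma bad_count [CharZero K] {P X : V → ι → K} (hP : Gen P) (r : V → ℤ)
    (hr : Function.Injective r) (S Y T : Finset V) (hS : S ⊆ Y) (hT : T ⊆ Y \ S) (b : ℕ)
    (hsat : ∀ v ∈ T, Fintype.card ι ≤ (nb P X S v).card) :
    (b + 1) * (T.filter fun v => Fintype.card ι + b <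
      rk2 P X (nb P X (S ∪ (Y \ S).filter fun x => r x ≤ r v) v)).card ≤
      Fintype.card ι * (Y.card - T.card) := by
  obtain ⟨I, hI, hI2, hI3⟩ := star_sum (X := X) hP r hr S (Y \ S) disjoint_sdiff
  have h1 := indep_card_le hI Y (fun e he x hx => by
    have := (hI2 e he).1 x hx
    rwa [union_sdiff_of_subset hS] at this)
  have h2 := (sum_le_sum_of_subset hT).trans (hI3.trans h1)
  have h3 : Fintype.card ι * T.card + (b + 1) * (T.filter fun v => Fintype.card ι + b <
      rk2 P X (nb P X (S ∪ (Y \ S).filter fun x => r x ≤ r v) v)).card ≤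
      ∑ v ∈ T, rk2 P X (nb P X (S ∪ (Y \ S).filter fun x => r x ≤ r v) v) := by
    rw [card_filter, mul_sum, mul_comm, ← smul_eq_mul, ← sum_const, ← sum_add_distrib]
    refine sum_le_sum fun v hv => ?_
    have h4 : Fintype.card ι ≤ rk2 P X (nb P X (S ∪ (Y \ S).filter fun x => r x ≤ r v) v) :=
      le_rk2 hP X ((hsat v hv).trans (card_le_card (filter_subset_filter _ subset_union_left)))
    split_ifs <;> omega
  have h4 : T.card ≤ Y.card := card_le_card (hT.trans sdiff_subset)
  obtain ⟨t, ht⟩ := Nat.exists_eq_add_of_le h4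
  rw [ht, Nat.add_sub_cancel_left]
  rw [ht, mul_add] at h2
  omega

/-- Most vertices of a dense part have a neighbourhood of nearly minimal extended rank. -/
lemma exists_good [CharZero K] {P X : V → ι → K} (hP : Gen P) (Y : Finset V) (g D : ℝ)
    (hg : 0 < g) (hcD : (Fintype.card ι : ℝ) < D) (hD : ∀ v ∈ Y, D ≤ (nb P X Y v).card) (b : ℕ) :
    ∃ G ⊆ Y, (∀ v ∈ G, rk2 P X (nb P X Y v) ≤ Fintype.card ι + 2 * b) ∧
      ((b + 1) * (Y \ G).card : ℝ) ≤ (Fintype.card ι * Y.card / g +
        g * Y.card / (D - Fintype.card ι)) * (b + 1 + 2 * Fintype.card ι) := by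
  have hint : ∀ (A : Finset V) v, A ∩ nb P X univ v = nb P X A v := fun A v => by
    ext x; simp [nb]
  obtain ⟨S, hS, hS1, hS2⟩ := exists_seed Y (nb P X univ) (Fintype.card ι) g D
    (fun v hv => by rw [hint]; exact hD v hv)
  simp only [hint] at hS2
  set Un := Y.filter fun v => (nb P X S v).card < Fintype.card ι with hUn
  set T := (Y \ S) \ Un with hT
  have hsat : ∀ v ∈ T, Fintype.card ι ≤ (nb P X S v).card := by
    intro v hv
    simp only [hT, hUn, mem_sdiff, mem_filter] at hv
    by_contra h
    exact hv.2 ⟨hv.1.1, by omega⟩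
  let r : V → ℤ := fun v => (Fintype.equivFin V v : ℕ)
  have hr : Function.Injective r := fun a b h =>
    (Fintype.equivFin V).injective (Fin.ext (by simpa [r] using h))
  have h1 := bad_count (X := X) hP r hr S Y T hS sdiff_subset b hsat
  have h2 := bad_count (X := X) hP (fun v => -r v) (neg_injective.comp hr) S Y T hS
    sdiff_subset b hsat
  set B1 := T.filter fun v => Fintype.card ι + b <
      rk2 P X (nb P X (S ∪ (Y \ S).filter fun x => r x ≤ r v) v) with hB1
  set B2 := T.filter fun v => Fintype.card ι + b <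
      rk2 P X (nb P X (S ∪ (Y \ S).filter fun x => -r x ≤ -r v) v) with hB2
  refine ⟨T \ (B1 ∪ B2), sdiff_subset.trans (sdiff_subset.trans sdiff_subset), ?_, ?_⟩
  · intro v hv
    simp only [hB1, hB2, mem_sdiff (s := T), mem_union, mem_filter, not_or, not_and,
      not_lt] at hv
    have e1 := hv.2.1 hv.1
    have e2 := hv.2.2 hv.1
    have e3 := rk2_submod P X (nb P X (S ∪ (Y \ S).filter fun x => r x ≤ r v) v)
      (nb P X (S ∪ (Y \ S).filter fun x => -r x ≤ -r v) v)
    have e4 : Fintype.card ι ≤ rk2 P X (nb P X (S ∪ (Y \ S).filter fun x => r x ≤ r v) v ∩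
        nb P X (S ∪ (Y \ S).filter fun x => -r x ≤ -r v) v) :=
      le_rk2 hP X ((hsat v hv.1).trans (card_le_card (subset_inter
        (filter_subset_filter _ subset_union_left) (filter_subset_filter _ subset_union_left))))
    have e5 : rk2 P X (nb P X Y v) ≤ rk2 P X (nb P X (S ∪ (Y \ S).filter fun x => r x ≤ r v) v ∪
        nb P X (S ∪ (Y \ S).filter fun x => -r x ≤ -r v) v) := by
      refine rk2_mono P X fun x hx => ?_
      simp only [nb, mem_filter, mem_union, mem_sdiff, neg_le_neg_iff] at hx ⊢
      have := le_total (r x) (r v)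
      tauto
    omega
  · have e1 : Y.card - T.card ≤ S.card + Un.card := by
      have : Y.card ≤ T.card + (S.card + Un.card) := by
        refine le_trans (card_le_card ?_) ((card_union_le _ _).trans
          (Nat.add_le_add_left (card_union_le S Un) _))
        intro x hx
        simp only [hT, mem_union, mem_sdiff]
        tauto
      omega
    have e2 : (Y \ (T \ (B1 ∪ B2))).card ≤ S.card + Un.card + (B1.card + B2.card) := by
      refine le_trans (card_le_card ?_) ((card_union_le _ _).trans
        (Nat.add_le_add (card_union_le S Un) (card_union_le B1 B2)))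
      intro x hx
      simp only [hT, mem_union, mem_sdiff] at hx ⊢
      tauto
    have e3 : (b + 1) * (Y \ (T \ (B1 ∪ B2))).card ≤
        (S.card + Un.card) * (b + 1 + 2 * Fintype.card ι) := by
      have := Nat.mul_le_mul_left (b + 1) e2
      have := Nat.mul_le_mul_left (Fintype.card ι) e1
      nlinarith
    have e4 : (S.card : ℝ) ≤ Fintype.card ι * Y.card / g := by
      rw [le_div_iff₀ hg]; linarith
    have e5 : (Un.card : ℝ) ≤ g * Y.card / (D - Fintype.card ι) := by
      rw [le_div_iff₀ (by linarith)]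
      have : ((Y \ S).card : ℝ) ≤ Y.card := by exact_mod_cast card_le_card sdiff_subset
      nlinarith
    have e6 : ((b + 1) * (Y \ (T \ (B1 ∪ B2))).card : ℝ) ≤
        (S.card + Un.card) * (b + 1 + 2 * Fintype.card ι) := by exact_mod_cast e3
    refine e6.trans (mul_le_mul_of_nonneg_right (add_le_add e4 e5) (by positivity))

lemma exists_spanning_family {E : Type*} [AddCommGroup E] [Module K E] [Module.Finite K E]
    (N : Submodule K E) (b : ℕ) (hb : finrank K N ≤ b) :
    ∃ B : Fin b → E, ∀ x ∈ N, ∃ β : Fin b → K, x = ∑ t, β t • B t := by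
  let f : (Fin b → K) →ₗ[K] E := N.subtype ∘ₗ (Module.finBasis K N).equivFun.symm.toLinearMap ∘ₗ
    LinearMap.funLeft K K (Fin.castLE hb)
  refine ⟨fun t => f fun j => if t = j then 1 else 0, fun x hx => ?_⟩
  obtain ⟨β, hβ⟩ := LinearMap.funLeft_surjective_of_injective K K (Fin.castLE hb)
    (Fin.castLE_injective hb) ((Module.finBasis K N).equivFun ⟨x, hx⟩)
  refine ⟨β, ?_⟩
  rw [← LinearMap.pi_apply_eq_sum_univ]
  simp only [f, LinearMap.comp_apply, hβ, LinearEquiv.coe_coe, LinearEquiv.symm_apply_apply,
    Submodule.subtype_apply]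

/-- The motion described by the parameters `A`, `B`, `β`. -/
def XX (P : V → ι → K) {b : ℕ} (A : ι → ι → K) (B : Fin b → ι → K) (β : V → Fin b → K) (u : V) :
    ι → K := ∑ l, P u l • A l + ∑ t, β u t • B t

lemma exists_repr {P : V → ι → K} (hP : Gen P) (X : V → ι → K) {Z : Finset V} {b : ℕ}
    (hZ : Fintype.card ι ≤ Z.card) (hr : rk2 P X Z ≤ Fintype.card ι + b) :
    ∃ (A : ι → ι → K) (B : Fin b → ι → K) (β : V → Fin b → K), ∀ u ∈ Z, X u = XX P A B β u := by
  unfold rk2 at hr
  have hmem : ∀ u ∈ Z, (P u, X u) ∈ Submodule.span K ((fun u => (P u, X u)) '' Z) :=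
    fun u hu => Submodule.subset_span ⟨u, hu, rfl⟩
  generalize Submodule.span K ((fun u => (P u, X u)) '' Z) = H at hr hmem
  obtain ⟨B0, hB0, hBc⟩ := exists_subset_card_eq hZ
  have hsurj : ∀ y : ι → K, ∃ h ∈ H, h.1 = y := by
    intro y
    obtain ⟨α, hα, h⟩ := hP.span B0 hBc y
    refine ⟨∑ u, α u • (P u, X u), H.sum_mem fun u _ => ?_, by simpa [Prod.fst_sum] using h⟩
    by_cases h0 : α u = 0
    · simp [h0]
    · exact H.smul_mem _ (hmem u (hB0 (hα u h0)))
  have h1 := finrank_map_add_inf (LinearMap.fst K (ι → K) (ι → K)) H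
  have h2 : H.map (LinearMap.fst K (ι → K) (ι → K)) = ⊤ := by
    rw [eq_top_iff]; intro y _; exact hsurj y
  rw [h2, finrank_top, Module.finrank_fintype_fun_eq_card] at h1
  obtain ⟨B, hB⟩ := exists_spanning_family
    (H ⊓ LinearMap.ker (LinearMap.fst K (ι → K) (ι → K))) b (by omega)
  choose h hh hh' using fun l : ι => hsurj (Pi.single l 1)
  have h3 : ∀ u, ∃ β : Fin b → K, u ∈ Z → (P u, X u) - ∑ l, P u l • h l = ∑ t, β t • B t := by
    intro u
    by_cases hu : u ∈ Z
    · obtain ⟨β, hβ⟩ := hB ((P u, X u) - ∑ l, P u l • h l)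
        ⟨H.sub_mem (hmem u hu) (H.sum_mem fun l _ => H.smul_mem _ (hh l)), by
          show ((P u, X u) - ∑ l, P u l • h l).1 = 0
          ext i
          simp [Prod.fst_sum, hh', Finset.sum_apply, Pi.single_apply]⟩
      exact ⟨β, fun _ => hβ⟩
    · exact ⟨0, fun h => absurd h hu⟩
  choose β hβ using h3
  refine ⟨fun l => (h l).2, fun t => (B t).2, β, fun u hu => ?_⟩
  have := congrArg Prod.snd (hβ u hu)
  simp only [Prod.snd_sub, Prod.snd_sum, Prod.smul_snd] at this
  rw [XX, ← this]; abel

end Pool.Agent.P.MP_2d96df_co.H35
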