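import Pool.Agent.P.MP_2d96df_co.H35.Main2
import Pool.Agent.P.MP_2d96df_co.H35.Defs

/-! From the homogeneous model over a field of rational functions to real generic embeddings. -/

namespace Pool.Agent.P.MP_2d96df_co.H35

open Finset Module
open scoped Classical

set_option linter.unusedSectionVars false
set_option maxHeartbeats 400000

lemma exists_der {σ : Type*} (y : σ → FractionRing (MvPolynomial σ ℚ)) :
    ∃ D : FractionRing (MvPolynomial σ ℚ) →+ FractionRing (MvPolynomial σ ℚ),
      (∀ a b, D (a * b) = a * D b + D a * b) ∧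
      ∀ s, D (algebraMap (MvPolynomial σ ℚ) _ (MvPolynomial.X s)) = y s := by
  let L := FractionRing (MvPolynomial σ ℚ)
  let g : MvPolynomial σ ℚ →+* DualNumber L :=
    MvPolynomial.eval₂Hom ((TrivSqZeroExt.inlHom L L).comp (algebraMap ℚ L))
      (fun s => TrivSqZeroExt.inl (algebraMap (MvPolynomial σ ℚ) L (MvPolynomial.X s)) +
        TrivSqZeroExt.inr (y s))
  let f : DualNumber L →+* L := (TrivSqZeroExt.fstHom L L L).toRingHom
  have hf : ∀ a, f a = a.fst := fun a => rfl
  have hg : f.comp g = algebraMap (MvPolynomial σ ℚ) L :=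
    MvPolynomial.ringHom_ext' (Subsingleton.elim _ _) fun s => by simp [g, hf]
  have hu : ∀ a : nonZeroDivisors (MvPolynomial σ ℚ), IsUnit (g a) := by
    intro a
    rw [TrivSqZeroExt.isUnit_iff_isUnit_fst, ← hf, ← RingHom.comp_apply, hg]
    exact IsLocalization.map_units L a
  let φ : L →+* DualNumber L := IsLocalization.lift hu
  have hφ : f.comp φ = RingHom.id L :=
    IsLocalization.ringHom_ext (nonZeroDivisors (MvPolynomial σ ℚ)) (by
      rw [RingHom.comp_assoc, IsLocalization.lift_comp, hg, RingHom.id_comp])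
  have hφ' : ∀ a, (φ a).fst = a := fun a => congrArg (fun h : L →+* L => h a) hφ
  refine ⟨⟨⟨fun a => (φ a).snd, by simp⟩, fun a b => by simp⟩, fun a b => ?_, fun s => ?_⟩
  · show (φ (a * b)).snd = a * (φ b).snd + (φ a).snd * b
    rw [map_mul, DualNumber.snd_mul, hφ', hφ']
  · show (φ _).snd = _
    rw [IsLocalization.lift_eq]
    simp [g]

/-- The variables of the universal field. -/
noncomputable def xv (V : Type) (u : V) (i : ℕ) : FractionRing (MvPolynomial (V × ℕ) ℚ) :=
  algebraMap (MvPolynomial (V × ℕ) ℚ) _ (MvPolynomial.X (u, i))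

/-- The universal homogeneous configuration. -/
noncomputable def PU (V : Type) (u : V) : ℕ → FractionRing (MvPolynomial (V × ℕ) ℚ)
  | 0 => xv V u 0
  | i + 1 => xv V u 0 * xv V u (i + 1)

lemma xv_ne (V : Type) (u : V) (i : ℕ) : xv V u i ≠ 0 := fun h =>
  MvPolynomial.X_ne_zero (u, i) (IsFractionRing.injective (MvPolynomial (V × ℕ) ℚ) _
    (h.trans (map_zero _).symm))

lemma gen_PU (V : Type) : Gen (PU V) := by
  intro Y
  obtain ⟨D, hD, h⟩ := exists_der (σ := V × ℕ) (fun x => if x.2 = 0 then Y x.1 0 else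
    (Y x.1 x.2 - Y x.1 0 * xv V x.1 x.2) / xv V x.1 0)
  refine ⟨D, hD, fun u i => ?_⟩
  cases i with
  | zero => exact (h (u, 0)).trans (by simp)
  | succ i =>
    have h0 : D (xv V u 0) = Y u 0 := (h (u, 0)).trans (by simp)
    have h1 : D (xv V u (i + 1)) = (Y u (i + 1) - Y u 0 * xv V u (i + 1)) / xv V u 0 :=
      (h (u, i + 1)).trans (by simp)
    rw [PU, hD, h0, h1, mul_div_cancel₀ _ (xv_ne V u 0)]; ring

variable {V : Type*} [Fintype V] [DecidableEq V] {d : ℕ}

/-- The row of the rigidity matrix over a ring. -/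
def rrow {R : Type*} [CommRing R] (pt : V → Fin d → R) (e : Sym2 V) : V × Fin d → R :=
  fun x => Sym2.lift ⟨fun u w => (if x.1 = u then pt u x.2 - pt w x.2 else 0) +
    (if x.1 = w then pt w x.2 - pt u x.2 else 0), fun _ _ => add_comm _ _⟩ e

lemma li_rrow {A F : Type*} [CommRing A] [Field F] (φ : A →+* F) (hφ : Function.Injective φ)
    (pt : V → Fin d → A) (T : Finset (Sym2 V)) :
    LinearIndependent F (fun e : T => rrow (fun u i => φ (pt u i)) e) ↔
      LinearIndependent A (fun e : T => rrow pt e) := by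
  let _ := φ.toAlgebra
  have : FaithfulSMul A F := (faithfulSMul_iff_algebraMap_injective A F).2 hφ
  have : (fun e : T => rrow (fun u i => φ (pt u i)) e) =
      fun e : T => algebraMap A F ∘ rrow pt e := by
    ext ⟨e, he⟩ x
    induction e using Sym2.ind with
    | h u w =>
      simp only [rrow, Sym2.lift_mk, Function.comp, RingHom.algebraMap_toAlgebra, map_add]
      congr 1 <;> split_ifs <;> simp
  rw [this]
  exact linearIndependent_algebraMap_comp_iff

lemma finrank_rrow_le {A F F' : Type*} [CommRing A] [Field F] [Field F'] (φ : A →+* F)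
    (hφ : Function.Injective φ) (ψ : A →+* F') (hψ : Function.Injective ψ)
    (pt : V → Fin d → A) (E : Finset (Sym2 V)) :
    finrank F (Submodule.span F (rrow (fun u i => φ (pt u i)) '' E)) ≤
      finrank F' (Submodule.span F' (rrow (fun u i => ψ (pt u i)) '' E)) := by
  obtain ⟨B, hB, hBi, hBs⟩ := exists_basis_subset (K := F) (rrow (fun u i => φ (pt u i))) E
  rw [← hBs, hBi.finrank_eq]
  have h1 := (li_rrow ψ hψ pt B).2 ((li_rrow φ hφ pt B).1 hBi.linearIndependent)
  have h2 : LinearIndependent F' (fun g : B => (⟨rrow (fun u i => ψ (pt u i)) g,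
      Submodule.subset_span ⟨g, hB g.2, rfl⟩⟩ :
      Submodule.span F' (rrow (fun u i => ψ (pt u i)) '' E))) :=
    LinearIndependent.of_comp (Submodule.subtype _) h1
  simpa using h2.fintype_card_le_finrank

lemma finrank_rrow_eq {K : Type*} [Field K] [CharZero K] (t : V → K) (ht : ∀ u, t u ≠ 0)
    (pt : V → Fin d → K) (P : V → Fin (d + 1) → K) (hP : Gen P) (h0 : ∀ u, P u 0 = t u)
    (h1 : ∀ u i, P u (Fin.succ i) = t u * pt u i) (E : Finset (Sym2 V)) :
    finrank K (Submodule.span K (rrow pt '' E)) + Fintype.card V = finrank K (Sp P E) := by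
  let Φ : (V → Fin (d + 1) → K) →ₗ[K] (V × Fin d → K) :=
    { toFun := fun z x => t x.1 * (z x.1 0 * pt x.1 x.2 - z x.1 x.2.succ)
      map_add' := fun a b => by ext x; simp only [Pi.add_apply]; ring
      map_smul' := fun c a => by
        ext x; simp only [Pi.smul_apply, smul_eq_mul, RingHom.id_apply]; ring }
  have hΦ : ∀ z x, Φ z x = t x.1 * (z x.1 0 * pt x.1 x.2 - z x.1 x.2.succ) := fun _ _ => rfl
  have hrow : ∀ u w, Φ (rho P s(u, w)) = (t u * t w) • rrow pt s(u, w) := by
    intro u w
    ext ⟨v, i⟩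
    simp only [hΦ, rho_mk, Pi.add_apply, Pi.single_apply, rrow, Sym2.lift_mk, Pi.smul_apply,
      smul_eq_mul]
    split_ifs with a b b
    · subst a; subst b; simp only [h0, h1]; ring
    · subst a; simp only [h0, h1, Pi.zero_apply]; ring
    · subst b; simp only [h0, h1, Pi.zero_apply]; ring
    · simp
  have hdiag : ∀ u, rrow pt s(u, u) = 0 := fun u => by ext x; simp [rrow]
  have e1 : (Sp P E).map Φ = Submodule.span K (rrow pt '' E) := by
    apply le_antisymm
    · rw [Sp, Submodule.map_span, Submodule.span_le]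
      rintro _ ⟨_, ⟨e, he, rfl⟩, rfl⟩
      induction e using Sym2.ind with
      | h u w =>
        rw [hrow]
        refine Submodule.smul_mem _ _ ?_
        rcases he with he | he
        · exact Submodule.subset_span ⟨_, he, rfl⟩
        · rw [← Sym2.mk_isDiag_iff.1 he, hdiag]; exact Submodule.zero_mem _
    · rw [Submodule.span_le]
      rintro _ ⟨e, he, rfl⟩
      induction e using Sym2.ind with
      | h u w =>
        refine ⟨(t u * t w)⁻¹ • rho P s(u, w), Submodule.smul_mem _ _ (rho_mem_Sp P (Or.inl he)),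
          ?_⟩
        rw [map_smul, hrow, smul_smul, inv_mul_cancel₀ (mul_ne_zero (ht u) (ht w)), one_smul]
  have e2 : Sp P E ⊓ LinearMap.ker Φ =
      Submodule.span K (rho P '' (Dg univ : Finset (Sym2 V))) := by
    apply le_antisymm
    · rintro z ⟨-, hz⟩
      have hz' : ∀ v i, z v (Fin.succ i) = z v 0 * pt v i := fun v i => by
        have := congrFun (LinearMap.mem_ker.1 hz) (v, i)
        rw [hΦ] at this
        exact (sub_eq_zero.1 ((mul_eq_zero.1 this).resolve_left (ht v))).symm
      have : z = ∑ v, (z v 0 / (2 * t v)) • rho P s(v, v) := by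
        ext v i
        simp only [Finset.sum_apply, Pi.smul_apply, rho_mk, Pi.add_apply, smul_eq_mul]
        rw [sum_eq_single v]
        · have := ht v
          simp only [Pi.single_eq_same]
          refine Fin.cases ?_ (fun i => ?_) i
          · rw [h0]; field_simp; ring
          · rw [h1, hz']; field_simp; ring
        · intro b _ hb; simp [Pi.single_eq_of_ne hb.symm]
        · simp
      rw [this]
      exact Submodule.sum_mem _ fun v _ => Submodule.smul_mem _ _
        (Submodule.subset_span ⟨_, mem_coe.2 (mem_Dg.2 ⟨rfl, mem_univ _⟩), rfl⟩)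
    · rw [Submodule.span_le]
      rintro _ ⟨e, he, rfl⟩
      induction e using Sym2.ind with
      | h u w =>
        obtain ⟨rfl, -⟩ := mem_Dg.1 he
        exact ⟨rho_mem_Sp P (Or.inr (by simp)), by
          rw [SetLike.mem_coe, LinearMap.mem_ker, hrow, hdiag, smul_zero]⟩
  have hI : Indep K (rho P) (Dg (univ : Finset V)) := by
    intro ω hω h
    refine eq_zero_of_Om fun v => ?_
    refine hP.indep {v} (by simp) _ (fun x hx => ?_) (by rw [← sum_rho_apply, h]; rfl)
    rw [Om_ne] at hx
    simp [(mem_Dg.1 (hω _ hx)).1]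
  have e3 := finrank_map_add_inf Φ (Sp P E)
  rw [e1, e2, hI.finrank_eq, card_Dg, card_univ] at e3
  exact e3

lemma rank_eq {n d : ℕ} (G : SimpleGraph (Fin n)) (pt : Fin n → Fin d → ℝ) :
    (rigidityMatrix G pt).rank = finrank ℝ (Submodule.span ℝ (rrow pt '' G.edgeSet)) := by
  rw [Matrix.rank_eq_finrank_span_row, Set.image_eq_range]; rfl

lemma choose_id {n d : ℕ} (h : d + 1 ≤ n) :
    d * n + n + (n - (d + 1) + 1).choose 2 = (n + 1).choose 2 + (d + 1).choose 2 ∧
      (d + 1).choose 2 ≤ d * n := by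
  obtain ⟨k, rfl⟩ := Nat.exists_eq_add_of_le h
  have h1 := choose_diff (d + 1) k
  have h2 := two_mul_choose d
  rw [Nat.add_sub_cancel_left]
  constructor <;> nlinarith

lemma isRigid_of_rigid {n d : ℕ} (h : d + 1 ≤ n) (G : SimpleGraph (Fin n))
    (E : Finset (Sym2 (Fin n))) (hE : G.edgeSet = E)
    (hr : Rigid (trunc (PU (Fin n)) (d + 1)) E) : IsRigid d G := by
  intro pt hpt
  have hP := (gen_PU (Fin n)).trunc (d + 1)
  have e1 := hr.finrank_Sp hP (by simp) (by simpa using h)
  have e2 := finrank_rrow_eq (fun u => xv (Fin n) u 0) (fun u => xv_ne _ _ _)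
    (fun u (i : Fin d) => xv (Fin n) u (i + 1)) _ hP (fun u => rfl) (fun u i => rfl) E
  let φ : MvPolynomial (Fin n × Fin d) ℚ →+* ℝ :=
    (MvPolynomial.aeval fun x : Fin n × Fin d => pt x.1 x.2).toRingHom
  let ψ : MvPolynomial (Fin n × Fin d) ℚ →+* FractionRing (MvPolynomial (Fin n × ℕ) ℚ) :=
    (algebraMap (MvPolynomial (Fin n × ℕ) ℚ) _).comp
      (MvPolynomial.rename fun x : Fin n × Fin d => (x.1, x.2.1 + 1)).toRingHom
  have hφ : Function.Injective φ := hpt
  have hinj : Function.Injective fun x : Fin n × Fin d => (x.1, x.2.1 + 1) := fun a b h => by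
    simp only [Prod.mk.injEq, add_left_inj] at h
    exact Prod.ext h.1 (Fin.ext h.2)
  have hψ : Function.Injective ψ := fun a b h =>
    MvPolynomial.rename_injective _ hinj
      (IsFractionRing.injective (MvPolynomial (Fin n × ℕ) ℚ) _ h)
  have e3 := le_antisymm (finrank_rrow_le φ hφ ψ hψ (fun u i => MvPolynomial.X (u, i)) E)
    (finrank_rrow_le ψ hψ φ hφ (fun u i => MvPolynomial.X (u, i)) E)
  have f1 : (fun u i => φ (MvPolynomial.X (u, i))) = pt := by ext u i; simp [φ]
  have f2 : (fun u i => ψ (MvPolynomial.X (u, i))) =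
      fun u (i : Fin d) => xv (Fin n) u (i + 1) := by ext u i; simp [ψ, xv]
  rw [f1, f2] at e3
  rw [rank_eq, hE, e3]
  have := choose_id h
  simp only [Fintype.card_fin] at e1 e2
  omega

lemma exists_generic (n d : ℕ) : ∃ pt : Fin n → Fin d → ℝ, Generic pt := by
  obtain ⟨s, hs⟩ := exists_isTranscendenceBasis ℚ ℝ
  have hinf : Infinite s := by
    by_contra hfin
    rw [not_infinite_iff_finite] at hfin
    have := hs.isAlgebraic
    have h1 := Algebra.IsAlgebraic.cardinalMk_le_max
      (Algebra.adjoin ℚ (Set.range (Subtype.val : s → ℝ))) ℝ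
    have h2 := Algebra.cardinalMk_adjoin_le ℚ (Set.range (Subtype.val : s → ℝ))
    have h4 : Cardinal.mk ℝ ≤ Cardinal.aleph0 :=
      h1.trans (max_le (h2.trans (by simp)) le_rfl)
    rw [Cardinal.mk_real] at h4
    exact absurd h4 (not_le.2 Cardinal.aleph0_lt_continuum)
  let f : Fin n × Fin d ↪ s :=
    (Fintype.equivFin _).toEmbedding.trans (Fin.valEmbedding.trans (Infinite.natEmbedding s))
  exact ⟨fun u i => f (u, i), hs.1.comp f f.injective⟩

lemma IsRigid.card_le {n d : ℕ} {G : SimpleGraph (Fin n)} (h : IsRigid d G) :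
    d * n - (d + 1).choose 2 ≤ G.edgeSet.ncard := by
  obtain ⟨pt, hpt⟩ := exists_generic n d
  rw [← h pt hpt, ← Nat.card_coe_set_eq, Nat.card_eq_fintype_card]
  exact Matrix.rank_le_card_height _

lemma real_eq_Pr (p : unitInterval) (S : Set (SimpleGraph V)) :
    (SimpleGraph.binomialRandom V p).real S =
      Pr (pr univ univ) p
        (fun E : Finset (Sym2 V) => SimpleGraph.fromEdgeSet (E : Set (Sym2 V)) ∈ S) := by
  have : MeasurableSingletonClass (SimpleGraph V) := ⟨fun G => by
    have := SimpleGraph.measurable_edgeSet (measurableSet_singleton G.edgeSet)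
    rwa [← Set.image_singleton, Set.preimage_image_eq _ SimpleGraph.edgeSet_injective] at this⟩
  have hE : ∀ E : Finset (Sym2 V), E ⊆ pr univ univ →
      (SimpleGraph.fromEdgeSet (E : Set (Sym2 V))).edgeSet = E := fun E hE => by
    rw [SimpleGraph.edgeSet_fromEdgeSet, sdiff_eq_left, Set.disjoint_left]
    exact fun e he => mem_pr_univ.1 (hE he)
  have hN : (Nat.card V).choose 2 = (pr (univ : Finset V) univ).card := by
    have := card_Omega (V := V)
    rw [choose_succ_two] at this
    rw [Nat.card_eq_fintype_card]; omega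
  conv_lhs => rw [← (Set.toFinite S).coe_toFinset, ← MeasureTheory.sum_measureReal_singleton]
  simp only [Pr, Ex, mul_ite, mul_one, mul_zero, ← sum_filter]
  symm
  refine sum_bij (fun (E : Finset (Sym2 V)) _ => SimpleGraph.fromEdgeSet (E : Set (Sym2 V)))
    (fun E h => (Set.Finite.mem_toFinset _).2 (mem_filter.1 h).2) (fun E h E' h' he => ?_)
    (fun G hG => ?_) fun E h => ?_
  · have := congrArg SimpleGraph.edgeSet he
    rw [hE _ (mem_powerset.1 (mem_filter.1 h).1), hE _ (mem_powerset.1 (mem_filter.1 h').1)] at this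
    exact_mod_cast this
  · have hG' : SimpleGraph.fromEdgeSet
        (((Set.toFinite G.edgeSet).toFinset : Finset (Sym2 V)) : Set (Sym2 V)) = G := by
      rw [Set.Finite.coe_toFinset, SimpleGraph.fromEdgeSet_edgeSet]
    refine ⟨(Set.toFinite G.edgeSet).toFinset,
      mem_filter.2 ⟨mem_powerset.2 fun e he => ?_, ?_⟩, hG'⟩
    · exact mem_pr_univ.2 (G.not_isDiag_of_mem_edgeSet ((Set.Finite.mem_toFinset _).1 he))
    · rw [hG']; exact (Set.Finite.mem_toFinset _).1 hG
  · rw [MeasureTheory.measureReal_def, SimpleGraph.binomialRandom_singleton,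
      hE _ (mem_powerset.1 (mem_filter.1 h).1), Set.ncard_coe_finset, hN, wt]
    simp

end Pool.Agent.P.MP_2d96df_co.H35
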